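import Mathlib

/-!
# Pairing strategy draws of the `n^d` game

The fractional pairing: a line with at least two moving coordinates gives its weight to its points
in the empty double boxes, a line with one moving coordinate is given the increments of a
martingale.
-/

namespace Pool.Agent.H947R2.HJ

open Finset

variable {n d : ℕ}

/-- the points of the board -/
abbrev Pt (n d : ℕ) : Type := Fin d → Fin n

/-- the symbols: constants, and the two directions -/
abbrev Sy (n : ℕ) : Type := Fin n ⊕ Bool

/-- the value of a symbol at time `i` -/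
def ev (i : Fin n) : Sy n → Fin n
  | .inl c => c
  | .inr true => i
  | .inr false => i.rev

/-- the point of the directed line `h` at time `i` -/
def pt (h : Fin d → Sy n) (i : Fin n) : Pt n d := fun j => ev i (h j)

/-- the moving coordinates -/
def mv (h : Fin d → Sy n) : Finset (Fin d) := univ.filter fun j => (h j).isRight = true

/-- the number of the coordinates in `T` with value `i` or `rev i` -/
def cn (T : Finset (Fin d)) (P : Pt n d) (i : Fin n) : ℕ := (T.filter fun j => P j = i ∨ P j = i.rev).card

/-- the set `D` of the `i` with `i ≠ rev i` -/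
def DD (n : ℕ) : Finset (Fin n) := univ.filter fun i => i ≠ i.rev

/-- the values in empty double boxes -/
def EP (T : Finset (Fin d)) (P : Pt n d) : Finset (Fin n) := (DD n).filter fun i => cn T P i = 0

/-- the values in double boxes with exactly one element -/
def SP (T : Finset (Fin d)) (P : Pt n d) : Finset (Fin n) := (DD n).filter fun i => cn T P i = 1

/-- the values in double boxes with at least two elements -/
def BP (T : Finset (Fin d)) (P : Pt n d) : Finset (Fin n) := (DD n).filter fun i => 2 ≤ cn T P i

/-- the load of the lines with at least two moving coordinates -/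
def RR (P : Pt n d) : ℚ := ((BP univ P).card : ℚ) / ((EP univ P).card + 2)

theorem mem_DD (i : Fin n) : i ∈ DD n ↔ i ≠ i.rev := by simp [DD]

theorem DD_rev (i : Fin n) (h : i ∈ DD n) : i.rev ∈ DD n := by
  rw [mem_DD] at *
  rw [Fin.rev_rev]
  exact h.symm

theorem card_DD : n ≤ (DD n).card + 1 := by
  have h1 : (univ.filter fun i : Fin n => ¬ i ≠ i.rev).card ≤ 1 := by
    rw [Finset.card_le_one]
    intro a ha b hb
    simp only [mem_filter, mem_univ, true_and, not_not] at ha hb
    have ha' := congrArg Fin.val ha
    have hb' := congrArg Fin.val hb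
    rw [Fin.val_rev] at ha' hb'
    ext
    omega
  have h2 := Finset.card_filter_add_card_filter_not (s := (univ : Finset (Fin n)))
    (fun i : Fin n => i ≠ i.rev)
  rw [Finset.card_univ, Fintype.card_fin] at h2
  unfold DD
  omega

theorem cn_rev (T : Finset (Fin d)) (P : Pt n d) (i : Fin n) : cn T P i.rev = cn T P i := by
  unfold cn
  congr 1
  ext j
  simp only [mem_filter, Fin.rev_rev]
  tauto

theorem card_split (T : Finset (Fin d)) (P : Pt n d) :
    (EP T P).card + (SP T P).card + (BP T P).card = (DD n).card := by
  have h1 := Finset.card_filter_add_card_filter_not (s := DD n) (fun i => cn T P i = 0)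
  have h2 := Finset.card_filter_add_card_filter_not (s := (DD n).filter fun i => ¬ cn T P i = 0)
    (fun i => cn T P i = 1)
  have e1 : ((DD n).filter fun i => ¬ cn T P i = 0).filter (fun i => cn T P i = 1) = SP T P := by
    unfold SP
    ext i
    simp only [mem_filter]
    constructor
    · rintro ⟨⟨a, _⟩, b⟩; exact ⟨a, b⟩
    · rintro ⟨a, b⟩; exact ⟨⟨a, by omega⟩, b⟩
  have e2 : ((DD n).filter fun i => ¬ cn T P i = 0).filter (fun i => ¬ cn T P i = 1) = BP T P := by
    unfold BP
    ext i
    simp only [mem_filter]
    constructor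
    · rintro ⟨⟨a, b⟩, c⟩; exact ⟨a, by omega⟩
    · rintro ⟨a, b⟩; exact ⟨⟨a, by omega⟩, by omega⟩
  rw [e1, e2] at h2
  unfold EP
  omega

/-- each coordinate lies in at most one double box -/
theorem card_balls (T : Finset (Fin d)) (P : Pt n d) :
    (SP T P).card + 2 * (BP T P).card ≤ 2 * T.card := by
  have h1 : ∑ i ∈ DD n, cn T P i ≤ 2 * T.card := by
    unfold cn
    simp only [Finset.card_filter]
    rw [Finset.sum_comm, mul_comm, ← smul_eq_mul, ← Finset.sum_const]
    refine Finset.sum_le_sum fun j _ => ?_
    rw [← Finset.card_filter]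
    calc ((DD n).filter fun i => P j = i ∨ P j = i.rev).card ≤ ({P j, (P j).rev} : Finset (Fin n)).card := by
          refine Finset.card_le_card fun i hi => ?_
          rw [mem_filter] at hi
          rcases hi.2 with h | h
          · simp [h]
          · rw [h, Fin.rev_rev]; simp
      _ ≤ 2 := Finset.card_le_two
  have h2 : (SP T P).card ≤ ∑ i ∈ SP T P, cn T P i := by
    rw [Finset.card_eq_sum_ones]
    refine Finset.sum_le_sum fun i hi => ?_
    simp only [SP, mem_filter] at hi
    omega
  have h3 : 2 * (BP T P).card ≤ ∑ i ∈ BP T P, cn T P i := by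
    rw [mul_comm, ← smul_eq_mul, ← Finset.sum_const]
    refine Finset.sum_le_sum fun i hi => ?_
    simp only [BP, mem_filter] at hi
    omega
  have h4 : ∑ i ∈ SP T P, cn T P i + ∑ i ∈ BP T P, cn T P i ≤ ∑ i ∈ DD n, cn T P i := by
    rw [← Finset.sum_union]
    · refine Finset.sum_le_sum_of_subset ?_
      intro i hi
      rw [mem_union] at hi
      rcases hi with h | h
      · exact (mem_filter.1 h).1
      · exact (mem_filter.1 h).1
    · rw [Finset.disjoint_left]
      intro i hi hi'
      simp only [SP, BP, mem_filter] at hi hi'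
      omega
  omega

/-! ### The pointwise bound -/

theorem cn_update (x : Fin d) (P : Pt n d) (a i : Fin n) :
    cn univ (Function.update P x a) i = cn (univ.erase x) P i + if a = i ∨ a = i.rev then 1 else 0 := by
  unfold cn
  have h : (univ : Finset (Fin d)) = insert x (univ.erase x) := by
    rw [Finset.insert_erase (mem_univ x)]
  rw [h, Finset.filter_insert, Function.update_self]
  have h2 : (univ.erase x).filter (fun j => Function.update P x a j = i ∨ Function.update P x a j = i.rev)
      = (univ.erase x).filter (fun j => P j = i ∨ P j = i.rev) := by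
    refine Finset.filter_congr fun j hj => ?_
    rw [Function.update_of_ne (Finset.ne_of_mem_erase hj)]
  rw [h2, ← h]
  split_ifs with h3
  · rw [Finset.card_insert_of_notMem]
    simp
  · rfl

theorem RR_empty (x : Fin d) (P : Pt n d) (a : Fin n) (ha : a ∈ EP (univ.erase x) P) :
    RR (Function.update P x a) =
      ((BP (univ.erase x) P).card : ℚ) / ((EP (univ.erase x) P).card : ℚ) := by
  have ha1 : a ∈ DD n := (mem_filter.1 ha).1
  have ha2 : cn (univ.erase x) P a = 0 := (mem_filter.1 ha).2
  have hB : BP univ (Function.update P x a) = BP (univ.erase x) P := by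
    unfold BP
    refine Finset.filter_congr fun i hi => ?_
    rw [cn_update]
    split_ifs with h
    · have h0 : cn (univ.erase x) P i = 0 := by
        rcases h with rfl | rfl
        · exact ha2
        · rwa [cn_rev] at ha2
      omega
    · omega
  have hE : EP univ (Function.update P x a) = (EP (univ.erase x) P \ {a, a.rev}) := by
    unfold EP
    ext i
    simp only [mem_filter, mem_sdiff, mem_insert, mem_singleton, cn_update]
    constructor
    · rintro ⟨h1, h2⟩
      refine ⟨⟨h1, by omega⟩, ?_⟩
      rintro (rfl | rfl)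
      · simp at h2
      · simp [Fin.rev_rev] at h2
    · rintro ⟨⟨h1, h2⟩, h3⟩
      refine ⟨h1, ?_⟩
      rw [if_neg, h2]
      rintro (rfl | h)
      · exact h3 (Or.inl rfl)
      · exact h3 (Or.inr (by rw [h, Fin.rev_rev]))
  have hsub : ({a, a.rev} : Finset (Fin n)) ⊆ EP (univ.erase x) P := by
    intro i hi
    simp only [mem_insert, mem_singleton] at hi
    rcases hi with rfl | rfl
    · exact ha
    · exact mem_filter.2 ⟨DD_rev _ ha1, by rw [cn_rev]; exact ha2⟩
  have hc2 : ({a, a.rev} : Finset (Fin n)).card = 2 := Finset.card_pair ((mem_DD a).1 ha1)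
  have hc : (EP univ (Function.update P x a)).card + 2 = (EP (univ.erase x) P).card := by
    rw [hE, Finset.card_sdiff_of_subset hsub, hc2]
    have := Finset.card_le_card hsub
    omega
  unfold RR
  rw [hB]
  congr 1
  exact_mod_cast hc

theorem RR_single (x : Fin d) (P : Pt n d) (a : Fin n) (ha : a ∈ SP (univ.erase x) P) :
    RR (Function.update P x a) =
      ((BP (univ.erase x) P).card + 2 : ℚ) / ((EP (univ.erase x) P).card + 2 : ℚ) := by
  have ha1 : a ∈ DD n := (mem_filter.1 ha).1
  have ha2 : cn (univ.erase x) P a = 1 := (mem_filter.1 ha).2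
  have hE : EP univ (Function.update P x a) = EP (univ.erase x) P := by
    unfold EP
    refine Finset.filter_congr fun i hi => ?_
    rw [cn_update]
    split_ifs with h
    · have h0 : cn (univ.erase x) P i = 1 := by
        rcases h with rfl | rfl
        · exact ha2
        · rwa [cn_rev] at ha2
      simp [h0]
    · omega
  have hB : BP univ (Function.update P x a) = BP (univ.erase x) P ∪ {a, a.rev} := by
    unfold BP
    ext i
    simp only [mem_filter, mem_union, mem_insert, mem_singleton, cn_update]
    constructor
    · rintro ⟨h1, h2⟩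
      by_cases h : a = i ∨ a = i.rev
      · right
        rcases h with rfl | rfl
        · exact Or.inl rfl
        · right; rw [Fin.rev_rev]
      · rw [if_neg h] at h2
        exact Or.inl ⟨h1, by omega⟩
    · rintro (⟨h1, h2⟩ | h)
      · exact ⟨h1, by omega⟩
      · rcases h with rfl | rfl
        · exact ⟨ha1, by rw [ha2, if_pos (Or.inl rfl)]⟩
        · refine ⟨DD_rev _ ha1, ?_⟩
          rw [cn_rev, ha2, if_pos (Or.inr (Fin.rev_rev a).symm)]
  have hc2 : ({a, a.rev} : Finset (Fin n)).card = 2 := Finset.card_pair ((mem_DD a).1 ha1)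
  have hdis : Disjoint (BP (univ.erase x) P) {a, a.rev} := by
    rw [Finset.disjoint_left]
    intro i hi hi'
    have h1 : 2 ≤ cn (univ.erase x) P i := (mem_filter.1 hi).2
    simp only [mem_insert, mem_singleton] at hi'
    rcases hi' with rfl | rfl
    · omega
    · rw [cn_rev] at h1; omega
  unfold RR
  rw [hE, hB, Finset.card_union_of_disjoint hdis, hc2]
  push_cast
  rfl

theorem RR_other (x : Fin d) (P : Pt n d) (a : Fin n) (ha : a ∉ EP (univ.erase x) P)
    (ha' : a ∉ SP (univ.erase x) P) :
    RR (Function.update P x a) =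
      ((BP (univ.erase x) P).card : ℚ) / ((EP (univ.erase x) P).card + 2 : ℚ) := by
  have key : ∀ i ∈ DD n, (a = i ∨ a = i.rev) → 2 ≤ cn (univ.erase x) P i := by
    intro i hi h
    have hi' := DD_rev _ hi
    by_contra hlt
    have : cn (univ.erase x) P i = 0 ∨ cn (univ.erase x) P i = 1 := by omega
    rcases h with rfl | rfl
    · rcases this with h | h
      · exact ha (mem_filter.2 ⟨hi, h⟩)
      · exact ha' (mem_filter.2 ⟨hi, h⟩)
    · rcases this with h | h
      · exact ha (mem_filter.2 ⟨hi', by rw [cn_rev]; exact h⟩)
      · exact ha' (mem_filter.2 ⟨hi', by rw [cn_rev]; exact h⟩)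
  have hE : EP univ (Function.update P x a) = EP (univ.erase x) P := by
    unfold EP
    refine Finset.filter_congr fun i hi => ?_
    rw [cn_update]
    split_ifs with h
    · have := key i hi h
      simp; omega
    · omega
  have hB : BP univ (Function.update P x a) = BP (univ.erase x) P := by
    unfold BP
    refine Finset.filter_congr fun i hi => ?_
    rw [cn_update]
    split_ifs with h
    · have := key i hi h
      omega
    · omega
  unfold RR
  rw [hE, hB]

theorem sum_RR (x : Fin d) (P : Pt n d) : ∑ a, RR (Function.update P x a) =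
    ((EP (univ.erase x) P).card : ℚ) *
      (((BP (univ.erase x) P).card : ℚ) / ((EP (univ.erase x) P).card : ℚ)) +
    ((SP (univ.erase x) P).card : ℚ) *
      (((BP (univ.erase x) P).card + 2 : ℚ) / ((EP (univ.erase x) P).card + 2 : ℚ)) +
    ((n : ℚ) - (EP (univ.erase x) P).card - (SP (univ.erase x) P).card) *
      (((BP (univ.erase x) P).card : ℚ) / ((EP (univ.erase x) P).card + 2 : ℚ)) := by
  obtain ⟨U, hU⟩ : ∃ U, U = EP (univ.erase x) P := ⟨_, rfl⟩
  obtain ⟨W, hW⟩ : ∃ W, W = SP (univ.erase x) P := ⟨_, rfl⟩
  have hdis : Disjoint U W := by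
    rw [hU, hW, Finset.disjoint_left]
    intro i hi hi'
    simp only [EP, SP, mem_filter] at hi hi'
    omega
  have h1 : ∑ a, RR (Function.update P x a) = ∑ a ∈ U, RR (Function.update P x a) +
      ∑ a ∈ W, RR (Function.update P x a) + ∑ a ∈ (U ∪ W)ᶜ, RR (Function.update P x a) := by
    rw [← Finset.sum_union hdis, Finset.sum_add_sum_compl]
  rw [h1, Finset.sum_congr rfl (fun a ha => RR_empty x P a (by rw [← hU]; exact ha)),
    Finset.sum_congr rfl (fun a ha => RR_single x P a (by rw [← hW]; exact ha)),
    Finset.sum_congr (s₁ := (U ∪ W)ᶜ) rfl (fun a ha => RR_other x P a (by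
      rw [← hU]; intro h; exact (Finset.mem_compl.1 ha) (mem_union_left _ h)) (by
      rw [← hW]; intro h; exact (Finset.mem_compl.1 ha) (mem_union_right _ h))),
    Finset.sum_const, Finset.sum_const, Finset.sum_const, nsmul_eq_mul, nsmul_eq_mul,
    nsmul_eq_mul, hU, hW]
  have h2 : (((EP (univ.erase x) P) ∪ (SP (univ.erase x) P))ᶜ.card : ℚ) =
      (n : ℚ) - (EP (univ.erase x) P).card - (SP (univ.erase x) P).card := by
    rw [hU, hW] at hdis
    have h3 := Finset.card_add_card_compl ((EP (univ.erase x) P) ∪ (SP (univ.erase x) P))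
    rw [Finset.card_union_of_disjoint hdis, Fintype.card_fin] at h3
    have h4 : ((EP (univ.erase x) P).card : ℚ) + (SP (univ.erase x) P).card +
        (((EP (univ.erase x) P) ∪ (SP (univ.erase x) P))ᶜ.card : ℚ) = n := by exact_mod_cast h3
    linarith
  rw [h2]

/-- the pointwise bound -/
theorem RR_bound (hn : 2 * d ≤ n) (x : Fin d) (P : Pt n d) :
    (n : ℚ) * RR P - ∑ a, RR (Function.update P x a) ≤ 2 := by
  have hs := card_split (univ.erase x) P
  have hb := card_balls (univ.erase x) P
  have hD := card_DD (n := n)
  have hT : (univ.erase x : Finset (Fin d)).card = d - 1 := by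
    rw [Finset.card_erase_of_mem (mem_univ x), Finset.card_univ, Fintype.card_fin]
  have hd : 0 < d := x.pos
  rw [hT] at hb
  have hP : RR P = RR (Function.update P x (P x)) := by rw [Function.update_eq_self]
  rw [sum_RR]
  obtain ⟨e, he⟩ : ∃ e, e = (EP (univ.erase x) P).card := ⟨_, rfl⟩
  obtain ⟨s, hs'⟩ : ∃ s, s = (SP (univ.erase x) P).card := ⟨_, rfl⟩
  obtain ⟨b, hb'⟩ : ∃ b, b = (BP (univ.erase x) P).card := ⟨_, rfl⟩
  rw [← he, ← hs', ← hb'] at hs
  rw [← hs', ← hb'] at hb
  have k1 : b ≤ e := by omega
  have k2 : n ≤ e + s + b + 1 := by omega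
  have k1' : (b : ℚ) ≤ e := by exact_mod_cast k1
  have k2' : (n : ℚ) ≤ e + s + b + 1 := by exact_mod_cast k2
  have p1 : (0 : ℚ) ≤ e := by positivity
  have p2 : (0 : ℚ) ≤ s := by positivity
  have p3 : (0 : ℚ) ≤ b := by positivity
  have p4 : (0 : ℚ) ≤ n := by positivity
  have he2 : (0 : ℚ) < (e : ℚ) + 2 := by positivity
  by_cases h1 : P x ∈ EP (univ.erase x) P
  · rw [hP, RR_empty x P _ h1, ← he, ← hs', ← hb']
    have he0 : 0 < e := by rw [he]; exact Finset.card_pos.2 ⟨_, h1⟩
    have he0' : (0 : ℚ) < e := by exact_mod_cast he0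
    have key : (n : ℚ) * (b / e) - (e * (b / e) + s * ((b + 2) / (e + 2)) +
        (n - e - s) * (b / (e + 2))) - 2 =
        (2 * n * b - 2 * e * (b + s + e + 2)) / (e * (e + 2)) := by
      field_simp
      ring
    have key2 : (2 * n * b - 2 * e * (b + s + e + 2) : ℚ) ≤ 0 := by
      have : (n : ℚ) * b ≤ (b + s + e + 2) * e := by
        calc (n : ℚ) * b ≤ (e + s + b + 1) * e := by
              apply mul_le_mul k2' k1' p3 (by positivity)
          _ ≤ (b + s + e + 2) * e := by nlinarith
      nlinarith
    have : (2 * n * b - 2 * e * (b + s + e + 2) : ℚ) / (e * (e + 2)) ≤ 0 :=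
      div_nonpos_of_nonpos_of_nonneg key2 (by positivity)
    linarith
  · by_cases h2 : P x ∈ SP (univ.erase x) P
    · rw [hP, RR_single x P _ h2, ← he, ← hs', ← hb']
      by_cases he0 : e = 0
      · have hb0 : b = 0 := by omega
        subst he0 hb0
        norm_num at k2' ⊢
        linarith
      · have he0' : (0 : ℚ) < e := by
          have : 0 < e := Nat.pos_of_ne_zero he0
          exact_mod_cast this
        have key : (n : ℚ) * ((b + 2) / (e + 2)) - (e * (b / e) + s * ((b + 2) / (e + 2)) +
            (n - e - s) * (b / (e + 2))) - 2 =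
            (2 * n - 2 * (b + s + e + 2)) / (e + 2) := by
          field_simp
          ring
        have key2 : (2 * n - 2 * (b + s + e + 2) : ℚ) ≤ 0 := by linarith
        have : (2 * n - 2 * (b + s + e + 2) : ℚ) / (e + 2) ≤ 0 :=
          div_nonpos_of_nonpos_of_nonneg key2 (by positivity)
        linarith
    · rw [hP, RR_other x P _ h1 h2, ← he, ← hs', ← hb']
      by_cases he0 : e = 0
      · have hb0 : b = 0 := by omega
        subst he0 hb0
        norm_num at k2' ⊢
        linarith
      · have he0' : (0 : ℚ) < e := by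
          have : 0 < e := Nat.pos_of_ne_zero he0
          exact_mod_cast this
        have key : (n : ℚ) * (b / (e + 2)) - (e * (b / e) + s * ((b + 2) / (e + 2)) +
            (n - e - s) * (b / (e + 2))) - 2 =
            (- 2 * (b + s + e + 2)) / (e + 2) := by
          field_simp
          ring
        have : (- 2 * (b + s + e + 2) : ℚ) / (e + 2) ≤ 0 :=
          div_nonpos_of_nonpos_of_nonneg (by linarith) (by positivity)
        linarith

end Pool.Agent.H947R2.HJ
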