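import Pool.Agent.H947R2.HJ

/-!
# Pairing strategy draws of the `n^d` game: the weights
-/

namespace Pool.Agent.H947R2.HJ

open Finset

variable {n d : ℕ}

/-! ### The martingale -/

/-- the average of `RR` over the first `m` coordinates -/
def gg : ℕ → Pt n d → ℚ
  | 0, P => RR P
  | m + 1, P => if h : m < d then (∑ a, gg m (Function.update P ⟨m, h⟩ a)) / n else gg m P

theorem gg_succ (x : Fin d) (P : Pt n d) :
    gg ((x : ℕ) + 1) P = (∑ a, gg x (Function.update P x a)) / n := by
  rw [gg, dif_pos x.2]

theorem gg_congr (m : ℕ) : ∀ P Q : Pt n d, (∀ j : Fin d, m ≤ j → P j = Q j) → gg m P = gg m Q := by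
  induction m with
  | zero =>
    intro P Q h
    have : P = Q := funext fun j => h j (Nat.zero_le _)
    rw [this]
  | succ m ih =>
    intro P Q h
    unfold gg
    split_ifs with hm
    · congr 1
      refine Finset.sum_congr rfl fun a _ => ih _ _ fun j hj => ?_
      by_cases hjm : j = ⟨m, hm⟩
      · rw [hjm, Function.update_self, Function.update_self]
      · rw [Function.update_of_ne hjm, Function.update_of_ne hjm]
        refine h j ?_
        have : (j : ℕ) ≠ m := fun h => hjm (Fin.ext h)
        omega
    · exact ih _ _ fun j hj => absurd j.2 (by omega)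

/-- the increments -/
def dl (x : Fin d) (P : Pt n d) : ℚ := gg x P - gg ((x : ℕ) + 1) P

theorem sum_dl (P : Pt n d) : ∑ x : Fin d, dl x P = RR P - gg d P := by
  have h : ∀ m, ∑ x ∈ Finset.range m, (gg x P - gg (x + 1) P) = gg 0 P - gg m P := by
    intro m
    induction m with
    | zero => simp
    | succ m ih => rw [Finset.sum_range_succ, ih]; ring
  unfold dl
  rw [Fin.sum_univ_eq_sum_range (fun x => gg x P - gg (x + 1) P) d, h]
  rfl

theorem sum_dl_update (hn : 0 < n) (x : Fin d) (P : Pt n d) :
    ∑ a, dl x (Function.update P x a) = 0 := by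
  unfold dl
  rw [Finset.sum_sub_distrib]
  have h : ∀ a ∈ (univ : Finset (Fin n)), gg ((x : ℕ) + 1) (Function.update P x a) =
      (∑ b, gg x (Function.update P x b)) / n := by
    intro a _
    rw [gg_succ]
    simp only [Function.update_idem]
  rw [Finset.sum_congr rfl h, Finset.sum_const, Finset.card_univ, Fintype.card_fin, nsmul_eq_mul]
  have : (n : ℚ) ≠ 0 := by
    have : n ≠ 0 := hn.ne'
    exact_mod_cast this
  field_simp
  ring

theorem gg_bound (hn : 2 * d ≤ n) (m : ℕ) : ∀ (x : Fin d), m ≤ x → ∀ P : Pt n d,
    (n : ℚ) * gg m P - ∑ a, gg m (Function.update P x a) ≤ 2 := by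
  induction m with
  | zero => exact fun x _ P => RR_bound hn x P
  | succ m ih =>
    intro x hx P
    have hm : m < d := by have := x.2; omega
    have hne : (⟨m, hm⟩ : Fin d) ≠ x := by
      intro h
      have := congrArg Fin.val h
      simp only at this
      omega
    have hn0 : 0 < n := by have := x.pos; omega
    have hn0' : (0 : ℚ) < n := by exact_mod_cast hn0
    have h1 : gg (m + 1) P = (∑ b, gg m (Function.update P ⟨m, hm⟩ b)) / n := by
      rw [gg, dif_pos hm]
    have h2 : ∀ a, gg (m + 1) (Function.update P x a) =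
        (∑ b, gg m (Function.update (Function.update P ⟨m, hm⟩ b) x a)) / n := by
      intro a
      rw [gg, dif_pos hm]
      congr 1
      refine Finset.sum_congr rfl fun b _ => ?_
      rw [Function.update_comm hne.symm]
    rw [h1, Finset.sum_congr rfl (fun a _ => h2 a), ← Finset.sum_div, Finset.sum_comm]
    have h3 : ∑ b, ((n : ℚ) * gg m (Function.update P ⟨m, hm⟩ b) -
        ∑ a, gg m (Function.update (Function.update P ⟨m, hm⟩ b) x a)) ≤ ∑ _b : Fin n, (2 : ℚ) :=
      Finset.sum_le_sum fun b _ => ih x (by omega) _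
    rw [Finset.sum_sub_distrib, ← Finset.mul_sum, Finset.sum_const, Finset.card_univ,
      Fintype.card_fin, nsmul_eq_mul] at h3
    rw [mul_div_assoc', ← sub_div, div_le_iff₀ hn0']
    linarith

theorem dl_le (hn : 2 * d ≤ n) (x : Fin d) (P : Pt n d) : dl x P ≤ 2 / n := by
  have hn0 : 0 < n := by have := x.pos; omega
  have hn0' : (0 : ℚ) < n := by exact_mod_cast hn0
  have h := gg_bound hn x x le_rfl P
  unfold dl
  rw [gg_succ, le_div_iff₀ hn0', sub_mul, div_mul_cancel₀ _ hn0'.ne']
  linarith

/-! ### The weights -/

/-- the values in the double boxes without constants of `h` -/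
def EH (h : Fin d → Sy n) : Finset (Fin n) :=
  (DD n).filter fun i => ∀ j, h j ≠ .inl i ∧ h j ≠ .inl i.rev

/-- the weight of the point `pt h i` in the line `h` -/
def AA (h : Fin d → Sy n) (i : Fin n) : ℚ :=
  if 2 ≤ (mv h).card then (if i ∈ EH h then ((EH h).card : ℚ)⁻¹ else 0)
  else ∑ x ∈ mv h, (1 / n - dl x (pt h i) / 2)

theorem AA_nonneg (hn : 2 * d ≤ n) (h : Fin d → Sy n) (i : Fin n) : 0 ≤ AA h i := by
  unfold AA
  split_ifs
  · positivity
  · exact le_rfl
  · refine Finset.sum_nonneg fun x _ => ?_
    have h1 := dl_le hn x (pt h i)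
    have h2 : (2 : ℚ) / n = 2 * (1 / n) := by ring
    rw [h2] at h1
    linarith

theorem mem_mv (h : Fin d → Sy n) (j : Fin d) : j ∈ mv h ↔ (h j).isRight = true := by simp [mv]

theorem card_EH (hn : 2 * d ≤ n) (h : Fin d → Sy n) (hm : 2 ≤ (mv h).card) : 0 < (EH h).card := by
  have h1 := Finset.card_filter_add_card_filter_not (s := DD n)
    (fun i => ∀ j, h j ≠ .inl i ∧ h j ≠ .inl i.rev)
  have h2 : ((DD n).filter fun i => ¬ ∀ j, h j ≠ .inl i ∧ h j ≠ .inl i.rev).card ≤
      ∑ j ∈ (mv h)ᶜ, 2 := by
    have hsub : ((DD n).filter fun i => ¬ ∀ j, h j ≠ .inl i ∧ h j ≠ .inl i.rev) ⊆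
        (mv h)ᶜ.biUnion fun j => (univ.filter fun i : Fin n => h j = .inl i ∨ h j = .inl i.rev) := by
      intro i hi
      rw [mem_filter] at hi
      have h3 := hi.2
      push Not at h3
      obtain ⟨j, hj⟩ := h3
      rw [mem_biUnion]
      by_cases h4 : h j = .inl i
      · refine ⟨j, ?_, ?_⟩
        · rw [mem_compl, mem_mv, h4]; simp
        · rw [mem_filter]; exact ⟨mem_univ _, Or.inl h4⟩
      · have h5 := hj h4
        refine ⟨j, ?_, ?_⟩
        · rw [mem_compl, mem_mv, h5]; simp
        · rw [mem_filter]; exact ⟨mem_univ _, Or.inr h5⟩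
    refine (Finset.card_le_card hsub).trans (Finset.card_biUnion_le.trans ?_)
    refine Finset.sum_le_sum fun j hj => ?_
    rcases hjj : h j with c | b
    · calc (univ.filter fun i : Fin n => (Sum.inl c : Sy n) = .inl i ∨ (Sum.inl c : Sy n) = .inl i.rev).card
          ≤ ({c, c.rev} : Finset (Fin n)).card := by
            refine Finset.card_le_card fun i hi => ?_
            rw [mem_filter] at hi
            rcases hi.2 with h6 | h6
            · have := Sum.inl.inj h6
              simp [this]
            · have := Sum.inl.inj h6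
              simp [this]
        _ ≤ 2 := Finset.card_le_two
    · rw [mem_compl, mem_mv, hjj] at hj
      simp at hj
  rw [Finset.sum_const, smul_eq_mul, Finset.card_compl, Fintype.card_fin] at h2
  have h3 := card_DD (n := n)
  have h4 : (mv h).card ≤ d := by
    have := Finset.card_le_univ (mv h)
    rwa [Fintype.card_fin] at this
  have h5 : (EH h).card + _ = (DD n).card := h1
  omega

theorem ev_inl (i c : Fin n) : ev i (.inl c) = c := rfl

theorem pt_update (h : Fin d → Sy n) (x : Fin d) (hx : mv h = {x}) (i k : Fin n) :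
    pt h i = Function.update (pt h k) x (ev i (h x)) := by
  funext j
  by_cases hj : j = x
  · rw [hj, Function.update_self]
    rfl
  · rw [Function.update_of_ne hj]
    have h1 : j ∉ mv h := by rw [hx, mem_singleton]; exact hj
    rw [mem_mv] at h1
    unfold pt
    rcases hjj : h j with c | b
    · rfl
    · rw [hjj] at h1; simp at h1

theorem AA_sum (hn : 2 * d ≤ n) (h : Fin d → Sy n) (hm : (mv h).Nonempty) : ∑ i, AA h i = 1 := by
  obtain ⟨x, hx⟩ := hm
  have hn0 : 0 < n := by have := x.pos; omega
  by_cases h2 : 2 ≤ (mv h).card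
  · unfold AA
    simp only [if_pos h2]
    rw [Finset.sum_ite_mem, Finset.univ_inter, Finset.sum_const, nsmul_eq_mul]
    have := card_EH hn h h2
    have h3 : ((EH h).card : ℚ) ≠ 0 := by exact_mod_cast this.ne'
    exact mul_inv_cancel₀ h3
  · have h3 : mv h = {x} := by
      symm
      apply Finset.eq_of_subset_of_card_le
      · rw [Finset.singleton_subset_iff]; exact hx
      · rw [Finset.card_singleton]; omega
    unfold AA
    simp only [if_neg h2]
    rw [h3]
    simp only [Finset.sum_singleton]
    obtain ⟨k⟩ : Nonempty (Fin n) := ⟨⟨0, hn0⟩⟩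
    have h4 : ∑ i, dl x (pt h i) = 0 := by
      have h5 : ∀ i ∈ (univ : Finset (Fin n)),
          dl x (pt h i) = dl x (Function.update (pt h k) x (ev i (h x))) := by
        intro i _
        rw [← pt_update h x h3 i k]
      rw [Finset.sum_congr rfl h5, ← sum_dl_update hn0 x (pt h k)]
      rw [mem_mv] at hx
      rcases hhx : h x with c | b
      · rw [hhx] at hx; simp at hx
      · rcases b
        · exact Equiv.sum_comp Fin.revPerm (fun a => dl x (Function.update (pt h k) x a))
        · rfl
    rw [Finset.sum_sub_distrib, ← Finset.sum_div (f := fun i => dl x (pt h i)), h4,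
      Finset.sum_const, Finset.card_univ, Fintype.card_fin, nsmul_eq_mul]
    have : (n : ℚ) ≠ 0 := by exact_mod_cast hn0.ne'
    field_simp
    norm_num

/-! ### The loads -/

/-- the directed line through `P` that moves at time `i` the whole double box of `i` -/
def HH (P : Pt n d) (i : Fin n) : Fin d → Sy n :=
  fun j => if P j = i then .inr true else if P j = i.rev then .inr false else .inl (P j)

theorem pt_HH (P : Pt n d) (i : Fin n) : pt (HH P i) i = P := by
  funext j
  unfold pt HH
  split_ifs with h1 h2
  · exact h1.symm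
  · exact h2.symm
  · rfl

theorem mv_HH (P : Pt n d) (i : Fin n) : (mv (HH P i)).card = cn univ P i := by
  unfold mv cn
  congr 1
  ext j
  simp only [mem_filter, mem_univ, true_and, HH]
  by_cases h1 : P j = i
  · simp [h1]
  · by_cases h2 : P j = i.rev
    · rw [if_neg h1, if_pos h2]
      simp [h2]
    · simp [h1, h2]

theorem EH_HH (P : Pt n d) (i : Fin n) (hi : i ∈ DD n) : EH (HH P i) = EP univ P ∪ {i, i.rev} := by
  have hne := (mem_DD i).1 hi
  ext k
  simp only [EH, EP, mem_filter, mem_union, mem_insert, mem_singleton]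
  have hcn : cn univ P k = 0 ↔ ∀ j, P j ≠ k ∧ P j ≠ k.rev := by
    unfold cn
    rw [Finset.card_eq_zero, Finset.filter_eq_empty_iff]
    constructor
    · intro h j
      have := h (mem_univ j)
      exact ⟨fun h => this (Or.inl h), fun h => this (Or.inr h)⟩
    · intro h j _ h'
      rcases h' with h' | h'
      · exact (h j).1 h'
      · exact (h j).2 h'
  rw [hcn]
  have key : ∀ j c, HH P i j = .inl c ↔ P j = c ∧ c ≠ i ∧ c ≠ i.rev := by
    intro j c
    unfold HH
    split_ifs with h1 h2
    · constructor
      · intro h; cases h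
      · rintro ⟨h, h', _⟩; exact absurd (h.symm.trans h1) h'
    · constructor
      · intro h; cases h
      · rintro ⟨h, _, h'⟩; exact absurd (h.symm.trans h2) h'
    · constructor
      · intro h
        have := Sum.inl.inj h
        subst this
        exact ⟨rfl, h1, h2⟩
      · rintro ⟨h, _, _⟩; rw [h]
  constructor
  · rintro ⟨hk, h⟩
    by_cases h1 : k = i ∨ k = i.rev
    · exact Or.inr h1
    · left
      refine ⟨hk, fun j => ?_⟩
      obtain ⟨h2, h3⟩ := h j
      rw [Ne, key] at h2 h3
      constructor
      · intro h4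
        exact h2 ⟨h4, fun h => h1 (Or.inl h), fun h => h1 (Or.inr h)⟩
      · intro h4
        refine h3 ⟨h4, fun h => h1 (Or.inr ?_), fun h => h1 (Or.inl ?_)⟩
        · rw [← h, Fin.rev_rev]
        · exact Fin.rev_injective h
  · rintro (⟨hk, h⟩ | h)
    · refine ⟨hk, fun j => ?_⟩
      exact ⟨fun h' => (h j).1 ((key _ _).1 h').1, fun h' => (h j).2 ((key _ _).1 h').1⟩
    · rcases h with rfl | rfl
      · refine ⟨hi, fun j => ?_⟩
        exact ⟨fun h' => ((key _ _).1 h').2.1 rfl, fun h' => ((key _ _).1 h').2.2 rfl⟩
      · refine ⟨DD_rev _ hi, fun j => ?_⟩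
        rw [Fin.rev_rev]
        exact ⟨fun h' => ((key _ _).1 h').2.2 rfl, fun h' => ((key _ _).1 h').2.1 rfl⟩

theorem card_EH_HH (P : Pt n d) (i : Fin n) (hi : i ∈ BP univ P) :
    (EH (HH P i)).card = (EP univ P).card + 2 := by
  have hi1 : i ∈ DD n := (mem_filter.1 hi).1
  have hi2 : 2 ≤ cn univ P i := (mem_filter.1 hi).2
  rw [EH_HH P i hi1, Finset.card_union_of_disjoint, Finset.card_pair ((mem_DD i).1 hi1)]
  rw [Finset.disjoint_left]
  intro k hk hk'
  have hk2 : cn univ P k = 0 := (mem_filter.1 hk).2
  simp only [mem_insert, mem_singleton] at hk'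
  rcases hk' with rfl | rfl
  · omega
  · rw [cn_rev] at hk2; omega

/-- a directed line is determined by a point and by a time whose box contains no constant -/
theorem eq_HH (h : Fin d → Sy n) (i : Fin n) (hi : i ∈ EH h) : h = HH (pt h i) i := by
  have hi1 : i ∈ DD n := (mem_filter.1 hi).1
  have hi2 := (mem_filter.1 hi).2
  have hne := (mem_DD i).1 hi1
  funext j
  unfold HH pt
  rcases hj : h j with c | b
  · simp only [ev]
    rw [if_neg, if_neg]
    · rintro rfl; exact (hi2 j).2 hj
    · rintro rfl; exact (hi2 j).1 hj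
  · rcases b
    · show Sum.inr false = if i.rev = i then Sum.inr true else if i.rev = i.rev then Sum.inr false
        else Sum.inl i.rev
      rw [if_neg (fun h => hne h.symm), if_pos rfl]
    · show Sum.inr true = if i = i then Sum.inr true else if i = i.rev then Sum.inr false
        else Sum.inl i
      rw [if_pos rfl]

theorem load_two (P : Pt n d) : ∑ h : Fin d → Sy n, (if 2 ≤ (mv h).card then
    ∑ i, (if pt h i = P then (if i ∈ EH h then ((EH h).card : ℚ)⁻¹ else 0) else 0) else 0) =
      RR P := by
  have h1 : ∑ h : Fin d → Sy n, (if 2 ≤ (mv h).card then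
      ∑ i, (if pt h i = P then (if i ∈ EH h then ((EH h).card : ℚ)⁻¹ else 0) else 0) else 0) =
      ∑ p ∈ ((univ : Finset (Fin d → Sy n)) ×ˢ (univ : Finset (Fin n))).filter
        (fun p => 2 ≤ (mv p.1).card ∧ pt p.1 p.2 = P ∧ p.2 ∈ EH p.1), ((EH p.1).card : ℚ)⁻¹ := by
    rw [Finset.sum_filter, Finset.sum_product]
    refine Finset.sum_congr rfl fun h _ => ?_
    by_cases h2 : 2 ≤ (mv h).card
    · simp only [if_pos h2, h2, true_and]
      refine Finset.sum_congr rfl fun i _ => ?_
      by_cases h3 : pt h i = P
      · by_cases h4 : i ∈ EH h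
        · simp [h3, h4]
        · simp [h3, h4]
      · simp [h3]
    · simp only [if_neg h2, h2, false_and, if_false, Finset.sum_const_zero]
  rw [h1]
  have h2 : ∑ p ∈ ((univ : Finset (Fin d → Sy n)) ×ˢ (univ : Finset (Fin n))).filter
        (fun p => 2 ≤ (mv p.1).card ∧ pt p.1 p.2 = P ∧ p.2 ∈ EH p.1), ((EH p.1).card : ℚ)⁻¹ =
      ∑ i ∈ BP univ P, ((EP univ P).card + 2 : ℚ)⁻¹ := by
    refine Finset.sum_nbij' (fun p => p.2) (fun i => (HH P i, i)) ?_ ?_ ?_ ?_ ?_
    · rintro ⟨h, i⟩ hp
      rw [mem_filter] at hp
      obtain ⟨_, h2, h3, h4⟩ := hp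
      have h5 := eq_HH h i h4
      simp only at h2 h3 h4 h5
      rw [h3] at h5
      rw [h5, mv_HH] at h2
      exact mem_filter.2 ⟨(mem_filter.1 h4).1, h2⟩
    · intro i hi
      rw [mem_filter]
      refine ⟨mem_product.2 ⟨mem_univ _, mem_univ _⟩, ?_, pt_HH P i, ?_⟩
      · simp only
        rw [mv_HH]
        exact (mem_filter.1 hi).2
      · simp only
        rw [EH_HH P i (mem_filter.1 hi).1]
        simp
    · rintro ⟨h, i⟩ hp
      rw [mem_filter] at hp
      obtain ⟨_, h2, h3, h4⟩ := hp
      have h5 := eq_HH h i h4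
      simp only at h3 h5
      rw [h3] at h5
      simp only
      rw [← h5]
    · intro i _
      rfl
    · rintro ⟨h, i⟩ hp
      rw [mem_filter] at hp
      obtain ⟨_, h2, h3, h4⟩ := hp
      have h5 := eq_HH h i h4
      simp only at h2 h3 h4 h5
      rw [h3] at h5
      rw [h5, mv_HH] at h2
      have h6 : i ∈ BP univ P := mem_filter.2 ⟨(mem_filter.1 h4).1, h2⟩
      have h7 := card_EH_HH P i h6
      rw [← h5] at h7
      simp only
      rw [h7]
      push_cast
      rfl
  rw [h2, Finset.sum_const, nsmul_eq_mul]
  rfl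

/-- the directed line through `P` in the direction `x` -/
def LL (P : Pt n d) (x : Fin d) (b : Bool) : Fin d → Sy n :=
  Function.update (fun j => .inl (P j)) x (.inr b)

/-- the time at which it passes through `P` -/
def tt (P : Pt n d) (x : Fin d) (b : Bool) : Fin n := if b then P x else (P x).rev

theorem mv_LL (P : Pt n d) (x : Fin d) (b : Bool) : mv (LL P x b) = {x} := by
  ext j
  rw [mem_mv, mem_singleton]
  unfold LL
  by_cases hj : j = x
  · rw [hj, Function.update_self]; simp
  · rw [Function.update_of_ne hj]; simp [hj]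

theorem pt_LL (P : Pt n d) (x : Fin d) (b : Bool) : pt (LL P x b) (tt P x b) = P := by
  funext j
  unfold pt LL
  by_cases hj : j = x
  · rw [hj, Function.update_self]
    rcases b
    · simp [ev, tt]
    · simp [ev, tt]
  · rw [Function.update_of_ne hj]
    rfl

theorem load_one (P : Pt n d) (x : Fin d) : ∑ h : Fin d → Sy n, (if mv h = {x} then
    ∑ i, (if pt h i = P then (1 : ℚ) else 0) else 0) = 2 := by
  have h1 : ∑ h : Fin d → Sy n, (if mv h = {x} then
      ∑ i, (if pt h i = P then (1 : ℚ) else 0) else 0) =
      ∑ p ∈ ((univ : Finset (Fin d → Sy n)) ×ˢ (univ : Finset (Fin n))).filter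
        (fun p => mv p.1 = {x} ∧ pt p.1 p.2 = P), (1 : ℚ) := by
    rw [Finset.sum_filter, Finset.sum_product]
    refine Finset.sum_congr rfl fun h _ => ?_
    by_cases h2 : mv h = {x}
    · rw [if_pos h2]
      simp only [h2, true_and]
    · rw [if_neg h2]
      simp only [h2, false_and, if_false, Finset.sum_const_zero]
  rw [h1]
  have h2 : ∑ p ∈ ((univ : Finset (Fin d → Sy n)) ×ˢ (univ : Finset (Fin n))).filter
        (fun p => mv p.1 = {x} ∧ pt p.1 p.2 = P), (1 : ℚ) = ∑ _b : Bool, (1 : ℚ) := by
    symm
    refine Finset.sum_nbij (fun b => (LL P x b, tt P x b)) ?_ ?_ ?_ ?_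
    · intro b _
      rw [mem_filter]
      exact ⟨mem_product.2 ⟨mem_univ _, mem_univ _⟩, mv_LL P x b, pt_LL P x b⟩
    · intro b _ b' _ hbb
      have h3 := congrArg Prod.fst hbb
      have h4 := congrFun h3 x
      simp only [LL, Function.update_self] at h4
      exact Sum.inr.inj h4
    · rintro ⟨h, i⟩ hp
      rw [Finset.mem_coe, mem_filter] at hp
      obtain ⟨_, h2, h3⟩ := hp
      simp only at h2 h3
      have hx : x ∈ mv h := by rw [h2]; simp
      rw [mem_mv] at hx
      rcases hhx : h x with c | b
      · rw [hhx] at hx; simp at hx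
      · refine ⟨b, by simp, ?_⟩
        have h4 : h = LL P x b := by
          funext j
          unfold LL
          by_cases hj : j = x
          · rw [hj, Function.update_self, hhx]
          · rw [Function.update_of_ne hj]
            have hj' : j ∉ mv h := by rw [h2]; simpa using hj
            rw [mem_mv] at hj'
            rcases hjj : h j with c | b'
            · rw [← h3]
              unfold pt
              rw [hjj]
              rfl
            · rw [hjj] at hj'; simp at hj'
        have h5 : i = tt P x b := by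
          have h6 : ev i (h x) = P x := congrFun h3 x
          rw [hhx] at h6
          unfold tt
          rcases b
          · simp only [ev] at h6
            rw [← h6]
            simp
          · simp only [ev] at h6
            rw [← h6]
            simp
        show (LL P x b, tt P x b) = (h, i)
        rw [← h4, ← h5]
    · intro _ _; rfl
  rw [h2]
  simp

/-- the load of a point -/
theorem load (P : Pt n d) : ∑ h : Fin d → Sy n, ∑ i, (if pt h i = P then AA h i else 0) =
    d * (2 / n) + gg d P := by
  have h1 : ∀ h : Fin d → Sy n, ∑ i, (if pt h i = P then AA h i else 0) =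
      (if 2 ≤ (mv h).card then
        ∑ i, (if pt h i = P then (if i ∈ EH h then ((EH h).card : ℚ)⁻¹ else 0) else 0) else 0) +
      ∑ x : Fin d, (1 / n - dl x P / 2) *
        (if mv h = {x} then ∑ i, (if pt h i = P then (1 : ℚ) else 0) else 0) := by
    intro h
    by_cases h2 : 2 ≤ (mv h).card
    · rw [if_pos h2]
      have h3 : ∑ x : Fin d, (1 / n - dl x P / 2) *
          (if mv h = {x} then ∑ i, (if pt h i = P then (1 : ℚ) else 0) else 0) = 0 := by
        refine Finset.sum_eq_zero fun x _ => ?_
        rw [if_neg, mul_zero]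
        intro h4
        rw [h4] at h2
        simp at h2
      rw [h3, add_zero]
      unfold AA
      simp only [if_pos h2]
    · rw [if_neg h2, zero_add]
      by_cases h3 : (mv h).Nonempty
      · obtain ⟨x, hx⟩ := h3
        have h4 : mv h = {x} := by
          symm
          apply Finset.eq_of_subset_of_card_le
          · rw [Finset.singleton_subset_iff]; exact hx
          · rw [Finset.card_singleton]; omega
        rw [Finset.sum_eq_single x]
        · rw [if_pos h4, Finset.mul_sum]
          refine Finset.sum_congr rfl fun i _ => ?_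
          split_ifs with h5
          · unfold AA
            rw [if_neg h2, h4, Finset.sum_singleton, h5, mul_one]
          · rw [mul_zero]
        · intro z _ hz
          rw [if_neg, mul_zero]
          rw [h4]
          intro h5
          exact hz (Finset.singleton_injective h5).symm
        · intro h5; exact absurd (mem_univ x) h5
      · rw [Finset.not_nonempty_iff_eq_empty] at h3
        have h4 : ∀ i, AA h i = 0 := by
          intro i
          unfold AA
          rw [if_neg h2, h3, Finset.sum_empty]
        simp only [h4, ite_self, Finset.sum_const_zero]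
        symm
        refine Finset.sum_eq_zero fun x _ => ?_
        rw [if_neg, mul_zero]
        rw [h3]
        intro h5
        exact Finset.singleton_ne_empty x h5.symm
  rw [Finset.sum_congr rfl (fun h _ => h1 h), Finset.sum_add_distrib, load_two, Finset.sum_comm]
  have h2 : ∀ x ∈ (univ : Finset (Fin d)), ∑ h : Fin d → Sy n, (1 / n - dl x P / 2) *
        (if mv h = {x} then ∑ i, (if pt h i = P then (1 : ℚ) else 0) else 0) =
      2 / n - dl x P := by
    intro x _
    rw [← Finset.mul_sum, load_one]
    ring
  rw [Finset.sum_congr rfl h2, Finset.sum_sub_distrib, sum_dl, Finset.sum_const, Finset.card_univ,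
    Fintype.card_fin, nsmul_eq_mul]
  ring

end Pool.Agent.H947R2.HJ
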