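import Pool.Agent.H947R2.HJ2

/-!
# Pairing strategy draws of the `n^d` game: the pairing
-/

namespace Pool.Agent.H947R2.HJ

open Finset

variable {n d : ℕ}

theorem n_ge (hd : 0 < d) (h : (n + 2) ^ d ≤ 2 * n ^ d) : 2 * d ≤ n := by
  have hn : 0 < n := by
    rcases Nat.eq_zero_or_pos n with rfl | hn
    · rw [Nat.zero_pow hd] at h
      have : 0 < (0 + 2) ^ d := by positivity
      omega
    · exact hn
  have key : ∀ m : ℕ, n ^ m * (n + 2 * m) ≤ (n + 2) ^ m * n := by
    intro m
    induction m with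
    | zero => simp
    | succ m ih =>
      calc n ^ (m + 1) * (n + 2 * (m + 1)) = n ^ m * (n * (n + 2 * (m + 1))) := by ring
        _ ≤ n ^ m * ((n + 2) * (n + 2 * m)) := by
            apply Nat.mul_le_mul_left
            nlinarith
        _ = (n + 2) * (n ^ m * (n + 2 * m)) := by ring
        _ ≤ (n + 2) * ((n + 2) ^ m * n) := Nat.mul_le_mul_left _ ih
        _ = (n + 2) ^ (m + 1) * n := by ring
  have h1 := key d
  have h2 : n ^ d * (n + 2 * d) ≤ n ^ d * (2 * n) := by
    calc n ^ d * (n + 2 * d) ≤ (n + 2) ^ d * n := h1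
      _ ≤ (2 * n ^ d) * n := Nat.mul_le_mul_right _ h
      _ = n ^ d * (2 * n) := by ring
  have h3 := Nat.le_of_mul_le_mul_left h2 (by positivity)
  omega

/-- the directed lines -/
abbrev DL (n d : ℕ) : Type := {h : Fin d → Sy n // (mv h).Nonempty}

theorem card_DL (h : (n + 2) ^ d ≤ 2 * n ^ d) : Fintype.card (DL n d) ≤ n ^ d := by
  have h1 : Fintype.card (Fin d → Sy n) = (n + 2) ^ d := by
    rw [Fintype.card_fun, Fintype.card_fin, Fintype.card_sum, Fintype.card_fin, Fintype.card_bool]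
  have h2 : Fintype.card (DL n d) + Fintype.card (Pt n d) ≤ Fintype.card (Fin d → Sy n) := by
    rw [← Fintype.card_sum]
    refine Fintype.card_le_of_injective
      (Sum.elim (fun l : DL n d => l.1) (fun P : Pt n d => fun j => (Sum.inl (P j) : Sy n))) ?_
    rintro (⟨l, hl⟩ | P) (⟨l', hl'⟩ | P') h
    · simp only [Sum.elim_inl] at h
      subst h
      rfl
    · simp only [Sum.elim_inl, Sum.elim_inr] at h
      obtain ⟨x, hx⟩ := hl
      rw [mem_mv, h] at hx
      simp at hx
    · simp only [Sum.elim_inl, Sum.elim_inr] at h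
      obtain ⟨x, hx⟩ := hl'
      rw [mem_mv, ← h] at hx
      simp at hx
    · simp only [Sum.elim_inr] at h
      congr 1
      funext j
      exact Sum.inl.inj (congrFun h j)
  have h3 : Fintype.card (Pt n d) = n ^ d := by
    rw [Fintype.card_fun, Fintype.card_fin, Fintype.card_fin]
  omega

theorem AA_zero (h : Fin d → Sy n) (hm : ¬ (mv h).Nonempty) (i : Fin n) : AA h i = 0 := by
  rw [Finset.not_nonempty_iff_eq_empty] at hm
  unfold AA
  rw [hm]
  simp

theorem gg_const (P Q : Pt n d) : gg d P = gg d Q :=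
  gg_congr d P Q fun j hj => absurd j.2 (by omega)

theorem total (hn : 2 * d ≤ n) : ∑ h : Fin d → Sy n, ∑ i, AA h i = Fintype.card (DL n d) := by
  have h1 : ∀ h : Fin d → Sy n, ∑ i, AA h i = if (mv h).Nonempty then 1 else 0 := by
    intro h
    split_ifs with hm
    · exact AA_sum hn h hm
    · exact Finset.sum_eq_zero fun i _ => AA_zero h hm i
  rw [Finset.sum_congr rfl fun h _ => h1 h, Finset.sum_boole, Fintype.card_subtype]

theorem load_le (hn : 2 * d ≤ n) (hc : Fintype.card (DL n d) ≤ n ^ d) (P : Pt n d) :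
    ∑ h : Fin d → Sy n, ∑ i, (if pt h i = P then AA h i else 0) ≤ 1 := by
  obtain ⟨c, hcdef⟩ : ∃ c : ℚ, c = d * (2 / n) + gg d P := ⟨_, rfl⟩
  have h1 : ∀ Q : Pt n d, ∑ h : Fin d → Sy n, ∑ i, (if pt h i = Q then AA h i else 0) = c := by
    intro Q
    rw [load, hcdef, gg_const Q P]
  have h2 : ∑ Q : Pt n d, ∑ h : Fin d → Sy n, ∑ i, (if pt h i = Q then AA h i else 0) =
      ∑ h : Fin d → Sy n, ∑ i, AA h i := by
    rw [Finset.sum_comm]
    refine Finset.sum_congr rfl fun h _ => ?_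
    rw [Finset.sum_comm]
    refine Finset.sum_congr rfl fun i _ => ?_
    rw [Finset.sum_ite_eq]
    simp
  rw [Finset.sum_congr rfl fun Q _ => h1 Q, Finset.sum_const, Finset.card_univ, nsmul_eq_mul,
    total hn, Fintype.card_fun, Fintype.card_fin, Fintype.card_fin] at h2
  rw [h1 P]
  have h3 : (Fintype.card (DL n d) : ℚ) ≤ ((n ^ d : ℕ) : ℚ) := by exact_mod_cast hc
  have h4 : (0 : ℚ) < ((n ^ d : ℕ) : ℚ) := by
    have : 0 < Fintype.card (Pt n d) := Fintype.card_pos_iff.2 ⟨P⟩
    rw [Fintype.card_fun, Fintype.card_fin, Fintype.card_fin] at this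
    exact_mod_cast this
  rw [← h2] at h3
  by_contra hlt
  rw [not_le] at hlt
  nlinarith

theorem hall (h : (n + 2) ^ d ≤ 2 * n ^ d) :
    ∃ φ : DL n d → Pt n d, Function.Injective φ ∧ ∀ l, ∃ i, φ l = pt l.1 i := by
  rcases Nat.eq_zero_or_pos d with rfl | hd
  · refine ⟨fun l => fun j => j.elim0, ?_, ?_⟩
    · rintro ⟨l, x, hx⟩
      exact x.elim0
    · rintro ⟨l, x, hx⟩
      exact x.elim0
  have hn := n_ge hd h
  have hc := card_DL h
  obtain ⟨φ, h1, h2⟩ := (Finset.all_card_le_biUnion_card_iff_exists_injective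
    (fun l : DL n d => (univ : Finset (Fin n)).image (pt l.1))).1 (by
    intro s
    have e1 : (s.card : ℚ) = ∑ l ∈ s, ∑ i, AA l.1 i := by
      rw [Finset.sum_congr rfl fun l _ => AA_sum hn l.1 l.2, Finset.sum_const, nsmul_eq_mul,
        mul_one]
    have e2 : ∑ l ∈ s, ∑ i, AA l.1 i = ∑ P ∈ s.biUnion (fun l : DL n d =>
        (univ : Finset (Fin n)).image (pt l.1)), ∑ l ∈ s, ∑ i,
          (if pt l.1 i = P then AA l.1 i else 0) := by
      symm
      rw [Finset.sum_comm]
      refine Finset.sum_congr rfl fun l hl => ?_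
      rw [Finset.sum_comm]
      refine Finset.sum_congr rfl fun i _ => ?_
      rw [Finset.sum_ite_eq, if_pos]
      rw [mem_biUnion]
      exact ⟨l, hl, mem_image_of_mem _ (mem_univ i)⟩
    have e3 : ∀ P : Pt n d, ∑ l ∈ s, ∑ i, (if pt l.1 i = P then AA l.1 i else 0) ≤ 1 := by
      intro P
      refine le_trans ?_ (load_le hn hc P)
      have e4 : ∑ l ∈ s, ∑ i, (if pt l.1 i = P then AA l.1 i else 0) =
          ∑ h ∈ s.map (Function.Embedding.subtype fun h : Fin d → Sy n => (mv h).Nonempty),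
            ∑ i, (if pt h i = P then AA h i else 0) := by
        rw [Finset.sum_map]
        rfl
      rw [e4]
      refine Finset.sum_le_sum_of_subset_of_nonneg (Finset.subset_univ _) fun h _ _ => ?_
      refine Finset.sum_nonneg fun i _ => ?_
      split_ifs
      · exact AA_nonneg hn h i
      · exact le_rfl
    have e5 : (s.card : ℚ) ≤ ((s.biUnion (fun l : DL n d =>
        (univ : Finset (Fin n)).image (pt l.1))).card : ℚ) := by
      rw [e1, e2]
      refine (Finset.sum_le_sum fun P _ => e3 P).trans ?_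
      rw [Finset.sum_const, nsmul_eq_mul, mul_one]
    exact_mod_cast e5)
  refine ⟨φ, h1, fun l => ?_⟩
  obtain ⟨i, _, hi⟩ := mem_image.1 (h2 l)
  exact ⟨i, hi.symm⟩

/-- reversal of a symbol -/
def rs : Sy n → Sy n
  | .inl c => .inl c
  | .inr b => .inr (!b)

theorem ev_rs (i : Fin n) (s : Sy n) : ev i (rs s) = ev i.rev s := by
  rcases s with c | b
  · rfl
  · rcases b
    · simp [rs, ev, Fin.rev_rev]
    · simp [rs, ev]

theorem rs_rs (s : Sy n) : rs (rs s) = s := by
  rcases s with c | b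
  · rfl
  · simp [rs]

theorem rs_isRight (s : Sy n) : (rs s).isRight = s.isRight := by
  rcases s with c | b <;> rfl

/-- the reversed line -/
def rv (l : DL n d) : DL n d := ⟨fun j => rs (l.1 j), by
  obtain ⟨x, hx⟩ := l.2
  refine ⟨x, ?_⟩
  rw [mem_mv] at *
  rw [rs_isRight]
  exact hx⟩

theorem rv_rv (l : DL n d) : rv (rv l) = l := by
  apply Subtype.ext
  funext j
  exact rs_rs _

theorem rv_ne (l : DL n d) : rv l ≠ l := by
  intro h
  obtain ⟨x, hx⟩ := l.2
  rw [mem_mv] at hx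
  have h1 := congrFun (congrArg Subtype.val h) x
  have h2 : rs (l.1 x) = l.1 x := h1
  rcases hl : l.1 x with c | b
  · rw [hl] at hx; simp at hx
  · rw [hl] at h2
    have := Sum.inr.inj h2
    simp at this

theorem pt_rv (l : DL n d) (i : Fin n) : pt (rv l).1 i = pt l.1 i.rev := by
  funext j
  exact ev_rs i _

theorem main (n d : ℕ) (h : (n + 2) ^ d ≤ 2 * n ^ d) :
      ∃ G : SimpleGraph (Fin d → Fin n),
        (∀ x y z : Fin d → Fin n, G.Adj x y → G.Adj x z → y = z) ∧
        ∀ f : Fin n → Fin d → Fin n,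
          (∀ j : Fin d, (∃ c : Fin n, ∀ i : Fin n, f i j = c) ∨
              (∀ i : Fin n, f i j = i) ∨
              (∀ i : Fin n, ((f i j : ℕ)) = n - 1 - (i : ℕ))) →
          (∃ j : Fin d, ∃ i₁ i₂ : Fin n, f i₁ j ≠ f i₂ j) →
          ∃ a b : Fin n, G.Adj (f a) (f b) := by
  classical
  obtain ⟨φ, hφ, hpt⟩ := hall h
  refine ⟨⟨fun P Q => ∃ l, φ l = P ∧ φ (rv l) = Q, ?_, ?_⟩, ?_, ?_⟩
  · constructor
    rintro P Q ⟨l, h1, h2⟩
    exact ⟨rv l, h2, by rw [rv_rv]; exact h1⟩
  · constructor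
    rintro P ⟨l, h1, h2⟩
    exact rv_ne l (hφ (h2.trans h1.symm))
  · rintro x y z ⟨l, h1, h2⟩ ⟨l', h1', h2'⟩
    have := hφ (h1.trans h1'.symm)
    subst this
    exact h2.symm.trans h2'
  · intro f hf hne
    -- the symbol vector of the line
    obtain ⟨l, hl⟩ : ∃ l : Fin d → Sy n, ∀ i, pt l i = f i := by
      have h1 : ∀ j, ∃ s : Sy n, ∀ i, ev i s = f i j := by
        intro j
        rcases hf j with ⟨c, hc⟩ | hc | hc
        · exact ⟨.inl c, fun i => (hc i).symm⟩
        · exact ⟨.inr true, fun i => (hc i).symm⟩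
        · refine ⟨.inr false, fun i => ?_⟩
          ext
          rw [hc i]
          show ((i.rev : Fin n) : ℕ) = _
          rw [Fin.val_rev]
          omega
      choose l hl using h1
      exact ⟨l, fun i => funext fun j => hl j i⟩
    have hm : (mv l).Nonempty := by
      obtain ⟨j, i₁, i₂, h12⟩ := hne
      refine ⟨j, ?_⟩
      rw [mem_mv]
      rcases hlj : l j with c | b
      · exfalso
        apply h12
        rw [← hl i₁, ← hl i₂]
        unfold pt
        rw [hlj]
        rfl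
      · rfl
    obtain ⟨a, ha⟩ := hpt ⟨l, hm⟩
    obtain ⟨b, hb⟩ := hpt (rv ⟨l, hm⟩)
    refine ⟨a, b.rev, ⟨l, hm⟩, ?_, ?_⟩
    · rw [ha, hl]
    · rw [hb, pt_rv, hl]

end Pool.Agent.H947R2.HJ
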