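import Mathlib

set_option autoImplicit false
set_option linter.unusedSectionVars false

open Finset

namespace Pool.Agent.H947R2.OPhi

universe u

/-- `T G π` is the number of elements of `G` whose order is divisible by every prime in `π`. -/
noncomputable def T (G : Type u) [Group G] (π : Finset ℕ) : ℕ :=
  Nat.card {g : G // ∀ p ∈ π, p ∣ orderOf g}

/-- `B n π = n * ∏_{p ∈ π} (1 - 1 / n_p)`, with `n_p` the `p`-part of `n`. -/
noncomputable def B (n : ℕ) (π : Finset ℕ) : ℚ :=
  (n : ℚ) * ∏ p ∈ π, (1 - 1 / ((p ^ n.factorization p : ℕ) : ℚ))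

def SC (G : Type u) [Group G] : Prop :=
  ∀ π : Finset ℕ, (∀ p ∈ π, p.Prime) → (T G π : ℚ) ≤ B (Nat.card G) π

def Tight (G : Type u) [Group G] : Prop :=
  ∀ π : Finset ℕ, (∀ p ∈ π, p.Prime) → (T G π : ℚ) = B (Nat.card G) π

section coset

variable {G : Type u} [Group G] [Finite G] (N : Subgroup G) [N.Normal] {p : ℕ}

lemma exists_pk (hN : IsPGroup p N) (g : G) :
    ∃ k, (g ^ orderOf (g : G ⧸ N)) ^ (p ^ k) = 1 := by
  have hmem : g ^ orderOf (g : G ⧸ N) ∈ N := by
    rw [← QuotientGroup.eq_one_iff, QuotientGroup.mk_pow, pow_orderOf_eq_one]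
  obtain ⟨k, hk⟩ := hN ⟨_, hmem⟩
  refine ⟨k, ?_⟩
  have := congrArg Subtype.val hk
  simpa using this

lemma orderOf_mk_dvd (g : G) : orderOf (g : G ⧸ N) ∣ orderOf g :=
  orderOf_map_dvd (QuotientGroup.mk' N) g

lemma exists_preg (hp : p.Prime) (hN : IsPGroup p N) (g : G)
    (h : ¬ p ∣ orderOf (g : G ⧸ N)) :
    ∃ g' : G, (g' : G ⧸ N) = (g : G ⧸ N) ∧ ¬ p ∣ orderOf g' := by
  obtain ⟨k, hk⟩ := exists_pk N hN g
  have hco : Nat.Coprime (orderOf (g : G ⧸ N)) (p ^ k) :=
    ((Nat.Prime.coprime_iff_not_dvd hp).2 h).symm.pow_right k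
  obtain ⟨j, hj1, hj2⟩ := Nat.chineseRemainder hco 1 0
  refine ⟨g ^ j, ?_, ?_⟩
  · rw [QuotientGroup.mk_pow]
    conv_rhs => rw [← pow_one (g : G ⧸ N)]
    exact pow_eq_pow_iff_modEq.2 hj1
  · intro hd
    apply h
    refine hd.trans ?_
    rw [orderOf_dvd_iff_pow_eq_one, ← pow_mul, mul_comm, pow_mul]
    obtain ⟨t, rfl⟩ := (Nat.modEq_zero_iff_dvd).1 hj2
    rw [pow_mul, hk, one_pow]

lemma dvd_orderOf_mk (hp : p.Prime) (hN : IsPGroup p N) (g : G) {r : ℕ} (hr : r.Prime)
    (hrp : r ≠ p) (h : r ∣ orderOf g) : r ∣ orderOf (g : G ⧸ N) := by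
  obtain ⟨k, hk⟩ := exists_pk N hN g
  have h1 : orderOf g ∣ orderOf (g : G ⧸ N) * p ^ k := by
    rw [orderOf_dvd_iff_pow_eq_one, pow_mul, hk]
  rcases (Nat.Prime.dvd_mul hr).1 (h.trans h1) with h2 | h2
  · exact h2
  · exact absurd ((Nat.prime_dvd_prime_iff_eq hr hp).1 (hr.dvd_of_dvd_pow h2)) hrp

lemma card_fiber [Fintype G] [DecidableEq (G ⧸ N)] (q : G ⧸ N) :
    (univ.filter (fun g : G => (g : G ⧸ N) = q)).card = Nat.card N := by
  classical
  induction q using QuotientGroup.induction_on with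
  | H g0 =>
    have : Fintype N := Fintype.ofFinite N
    rw [Nat.card_eq_fintype_card, ← Finset.card_univ]
    symm
    refine Finset.card_bij (fun (ν : N) _ => g0 * ν) ?_ ?_ ?_
    · intro ν _
      simp only [mem_filter, mem_univ, true_and]
      rw [eq_comm, QuotientGroup.eq]
      simp
    · intro a _ b _ hab
      exact Subtype.ext (mul_left_cancel hab)
    · intro b hb
      simp only [mem_filter, mem_univ, true_and] at hb
      rw [eq_comm, QuotientGroup.eq] at hb
      exact ⟨⟨g0⁻¹ * b, hb⟩, mem_univ _, by simp⟩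

/-- first case : `p ∉ π`. -/
lemma T_le_of_notMem (hp : p.Prime) (hN : IsPGroup p N) (π : Finset ℕ)
    (hπ : ∀ r ∈ π, r.Prime) (hpπ : p ∉ π) : T G π ≤ Nat.card N * T (G ⧸ N) π := by
  classical
  have : Fintype G := Fintype.ofFinite G
  have : Fintype (G ⧸ N) := Fintype.ofFinite _
  have h1 : T G π = (univ.filter (fun g : G => ∀ r ∈ π, r ∣ orderOf g)).card := by
    rw [T, Nat.card_eq_fintype_card, Fintype.card_subtype]
  have h2 : T (G ⧸ N) π = (univ.filter (fun g : G ⧸ N => ∀ r ∈ π, r ∣ orderOf g)).card := by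
    rw [T, Nat.card_eq_fintype_card, Fintype.card_subtype]
  rw [h1, h2]
  refine Finset.card_le_mul_card_image_of_maps_to (f := fun g : G => (g : G ⧸ N)) ?_ _ ?_
  · intro g hg
    simp only [mem_filter, mem_univ, true_and] at hg ⊢
    intro r hr
    exact dvd_orderOf_mk N hp hN g (hπ r hr) (fun h => hpπ (h ▸ hr)) (hg r hr)
  · intro q _
    rw [← card_fiber N q]
    apply Finset.card_le_card
    intro g hg
    simp only [mem_filter, mem_univ, true_and] at hg ⊢
    exact hg.2

/-- second case : `p ∈ π`; here `σ = π \ {p}`. -/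
lemma T_le_of_mem (hp : p.Prime) (hN : IsPGroup p N) (σ : Finset ℕ)
    (hσ : ∀ r ∈ σ, r.Prime) (hpσ : p ∉ σ) :
    T G (insert p σ) ≤ (Nat.card N - 1) * T (G ⧸ N) σ + T (G ⧸ N) (insert p σ) := by
  classical
  have : Fintype G := Fintype.ofFinite G
  have : Fintype (G ⧸ N) := Fintype.ofFinite _
  have h1 : T G (insert p σ) = (univ.filter (fun g : G => ∀ r ∈ insert p σ, r ∣ orderOf g)).card := by
    rw [T, Nat.card_eq_fintype_card, Fintype.card_subtype]
  have h2 : T (G ⧸ N) σ = ∑ q : G ⧸ N, (if (∀ r ∈ σ, r ∣ orderOf q) then 1 else 0) := by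
    rw [T, Nat.card_eq_fintype_card, Fintype.card_subtype, Finset.card_filter]
  have h3 : T (G ⧸ N) (insert p σ) =
      ∑ q : G ⧸ N, (if (∀ r ∈ insert p σ, r ∣ orderOf q) then 1 else 0) := by
    rw [T, Nat.card_eq_fintype_card, Fintype.card_subtype, Finset.card_filter]
  rw [h1, h2, h3, Finset.mul_sum, ← Finset.sum_add_distrib]
  rw [Finset.card_eq_sum_card_fiberwise (f := fun g : G => (g : G ⧸ N)) (t := univ)
    (fun _ _ => by simp)]
  apply Finset.sum_le_sum
  intro q _
  have hNpos : 0 < Nat.card N := Nat.card_pos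
  by_cases hA : ∀ r ∈ σ, r ∣ orderOf q
  · by_cases hB : p ∣ orderOf q
    · have hC : ∀ r ∈ insert p σ, r ∣ orderOf q := by
        intro r hr
        rcases Finset.mem_insert.1 hr with rfl | hr
        · exact hB
        · exact hA r hr
      rw [if_pos hA, if_pos hC]
      have : ((univ.filter (fun g : G => ∀ r ∈ insert p σ, r ∣ orderOf g)).filter
          (fun g : G => (g : G ⧸ N) = q)).card ≤ Nat.card N := by
        rw [← card_fiber N q]
        apply Finset.card_le_card
        intro g hg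
        simp only [mem_filter, mem_univ, true_and] at hg ⊢
        exact hg.2
      omega
    · have hC : ¬ ∀ r ∈ insert p σ, r ∣ orderOf q := fun h => hB (h p (Finset.mem_insert_self _ _))
      rw [if_pos hA, if_neg hC]
      have : ((univ.filter (fun g : G => ∀ r ∈ insert p σ, r ∣ orderOf g)).filter
          (fun g : G => (g : G ⧸ N) = q)).card < Nat.card N := by
        rw [← card_fiber N q]
        apply Finset.card_lt_card
        rw [Finset.ssubset_iff_subset_ne]
        constructor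
        · intro g hg
          simp only [mem_filter, mem_univ, true_and] at hg ⊢
          exact hg.2
        · intro heq
          obtain ⟨g0, rfl⟩ := QuotientGroup.mk_surjective q
          obtain ⟨g', hg1, hg2⟩ := exists_preg N hp hN g0 hB
          have : g' ∈ (univ.filter (fun g : G => (g : G ⧸ N) = (g0 : G ⧸ N))) := by simp [hg1]
          rw [← heq] at this
          simp only [mem_filter, mem_univ, true_and] at this
          exact hg2 (this.1 p (Finset.mem_insert_self _ _))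
      omega
  · have hC : ¬ ∀ r ∈ insert p σ, r ∣ orderOf q :=
      fun h => hA (fun r hr => h r (Finset.mem_insert_of_mem hr))
    rw [if_neg hA, if_neg hC]
    simp only [mul_zero, add_zero, nonpos_iff_eq_zero, Finset.card_eq_zero]
    rw [Finset.filter_eq_empty_iff]
    intro g hg hgq
    simp only [mem_filter, mem_univ, true_and] at hg
    apply hA
    intro r hr
    rw [← hgq]
    exact dvd_orderOf_mk N hp hN g (hσ r hr) (fun h => hpσ (h ▸ hr))
      (hg r (Finset.mem_insert_of_mem hr))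

lemma B_arith {m a : ℕ} (hm : m ≠ 0) (hp : p.Prime) (σ : Finset ℕ)
    (hσ : ∀ r ∈ σ, r.Prime) (hpσ : p ∉ σ) :
    B (m * p ^ a) σ = (p ^ a : ℕ) * B m σ ∧
    B (m * p ^ a) (insert p σ) = ((p ^ a : ℕ) - 1 : ℚ) * B m σ + B m (insert p σ) := by
  have hpa : p ^ a ≠ 0 := pow_ne_zero _ hp.ne_zero
  have h1 : ∏ r ∈ σ, (1 - 1 / ((r ^ (m * p ^ a).factorization r : ℕ) : ℚ)) =
      ∏ r ∈ σ, (1 - 1 / ((r ^ m.factorization r : ℕ) : ℚ)) := by
    refine Finset.prod_congr rfl (fun r hr => ?_)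
    have hrp : r ≠ p := fun h => hpσ (h ▸ hr)
    have : (m * p ^ a).factorization r = m.factorization r := by
      rw [Nat.factorization_mul hm hpa, Finsupp.add_apply, Nat.Prime.factorization_pow hp,
        Finsupp.single_apply, if_neg hrp.symm, add_zero]
    rw [this]
  have h2 : (m * p ^ a).factorization p = m.factorization p + a := by
    rw [Nat.factorization_mul hm hpa, Finsupp.add_apply, Nat.Prime.factorization_pow hp,
        Finsupp.single_apply, if_pos rfl]
  have hp0 : (p : ℚ) ≠ 0 := by exact_mod_cast hp.ne_zero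
  constructor
  · unfold B
    rw [h1]
    push_cast
    ring
  · unfold B
    rw [Finset.prod_insert hpσ, Finset.prod_insert hpσ, h1, h2]
    push_cast
    rw [pow_add]
    field_simp
    ring

lemma card_facts (hp : p.Prime) (hN : IsPGroup p N) :
    ∃ a, Nat.card N = p ^ a ∧ Nat.card G = Nat.card (G ⧸ N) * p ^ a := by
  have : Fact p.Prime := ⟨hp⟩
  obtain ⟨a, ha⟩ := IsPGroup.iff_card.1 hN
  exact ⟨a, ha, by rw [← ha]; exact Subgroup.card_eq_card_quotient_mul_card_subgroup N⟩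

theorem SC_of_quotient (hp : p.Prime) (hN : IsPGroup p N) (h : SC (G ⧸ N)) : SC G := by
  classical
  intro π hπ
  obtain ⟨a, ha, hcard⟩ := card_facts N hp hN
  have hm : Nat.card (G ⧸ N) ≠ 0 := Nat.card_pos.ne'
  by_cases hpπ : p ∈ π
  · obtain ⟨σ, hpσ, rfl⟩ : ∃ σ, p ∉ σ ∧ π = insert p σ :=
      ⟨π.erase p, Finset.notMem_erase p π, (Finset.insert_erase hpπ).symm⟩
    have hσ : ∀ r ∈ σ, r.Prime := fun r hr => hπ r (Finset.mem_insert_of_mem hr)
    rw [hcard, (B_arith (a := a) hm hp σ hσ hpσ).2]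
    have h1 := T_le_of_mem N hp hN σ hσ hpσ
    have h2 := h σ hσ
    have h3 := h (insert p σ) hπ
    rw [ha] at h1
    have hpa : 1 ≤ p ^ a := Nat.one_le_iff_ne_zero.2 (pow_ne_zero _ hp.ne_zero)
    have h4 : (T G (insert p σ) : ℚ) ≤
        ((p ^ a : ℕ) - 1 : ℚ) * T (G ⧸ N) σ + T (G ⧸ N) (insert p σ) := by
      have : ((T G (insert p σ) : ℕ) : ℚ) ≤
          (((p ^ a - 1) * T (G ⧸ N) σ + T (G ⧸ N) (insert p σ) : ℕ) : ℚ) := by exact_mod_cast h1
      rw [Nat.cast_add, Nat.cast_mul, Nat.cast_sub hpa, Nat.cast_one] at this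
      exact this
    have h5 : (0 : ℚ) ≤ ((p ^ a : ℕ) - 1 : ℚ) := by
      rw [sub_nonneg]; exact_mod_cast hpa
    nlinarith [mul_le_mul_of_nonneg_left h2 h5]
  · rw [hcard, (B_arith (a := a) hm hp π hπ hpπ).1]
    have h1 := T_le_of_notMem N hp hN π hπ hpπ
    have h2 := h π hπ
    rw [ha] at h1
    have h4 : (T G π : ℚ) ≤ ((p ^ a : ℕ) : ℚ) * T (G ⧸ N) π := by exact_mod_cast h1
    have h5 : (0 : ℚ) ≤ ((p ^ a : ℕ) : ℚ) := by positivity
    nlinarith [mul_le_mul_of_nonneg_left h2 h5]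

theorem Tight_quotient (hp : p.Prime) (hN : IsPGroup p N) (hN1 : N ≠ ⊥) (h : SC (G ⧸ N))
    (ht : Tight G) : Tight (G ⧸ N) := by
  classical
  obtain ⟨a, ha, hcard⟩ := card_facts N hp hN
  have hm : Nat.card (G ⧸ N) ≠ 0 := Nat.card_pos.ne'
  have hpa : 1 < p ^ a := by
    rw [← ha]
    exact (Subgroup.one_lt_card_iff_ne_bot N).2 hN1
  have key : ∀ σ : Finset ℕ, (∀ r ∈ σ, r.Prime) → p ∉ σ →
      (T (G ⧸ N) σ : ℚ) = B (Nat.card (G ⧸ N)) σ ∧
      (T (G ⧸ N) (insert p σ) : ℚ) = B (Nat.card (G ⧸ N)) (insert p σ) := by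
    intro σ hσ hpσ
    have hπ : ∀ r ∈ insert p σ, r.Prime := by
      intro r hr
      rcases Finset.mem_insert.1 hr with rfl | hr
      · exact hp
      · exact hσ r hr
    have h1 := T_le_of_mem N hp hN σ hσ hpσ
    have h2 := h σ hσ
    have h3 := h (insert p σ) hπ
    rw [ha] at h1
    have h4 : (T G (insert p σ) : ℚ) ≤
        ((p ^ a : ℕ) - 1 : ℚ) * T (G ⧸ N) σ + T (G ⧸ N) (insert p σ) := by
      have : ((T G (insert p σ) : ℕ) : ℚ) ≤
          (((p ^ a - 1) * T (G ⧸ N) σ + T (G ⧸ N) (insert p σ) : ℕ) : ℚ) := by exact_mod_cast h1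
      rw [Nat.cast_add, Nat.cast_mul, Nat.cast_sub hpa.le, Nat.cast_one] at this
      exact this
    have h5 : (0 : ℚ) < ((p ^ a : ℕ) - 1 : ℚ) := by
      rw [sub_pos]; exact_mod_cast hpa
    have h6 := ht (insert p σ) hπ
    rw [hcard, (B_arith (a := a) hm hp σ hσ hpσ).2] at h6
    rw [h6] at h4
    have h7 := mul_le_mul_of_nonneg_left h2 h5.le
    constructor
    · apply le_antisymm h2
      by_contra hlt
      push Not at hlt
      have := mul_lt_mul_of_pos_left hlt h5
      linarith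
    · apply le_antisymm h3
      linarith
  intro π hπ
  by_cases hpπ : p ∈ π
  · have := (key (π.erase p) (fun r hr => hπ r (Finset.mem_of_mem_erase hr))
      (Finset.notMem_erase p π)).2
    rwa [Finset.insert_erase hpπ] at this
  · exact (key π hπ hpπ).1

end coset

end Pool.Agent.H947R2.OPhi
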