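import Pool.Agent.H947R2.OPhi1

set_option autoImplicit false
set_option linter.unusedSectionVars false

open Finset

namespace Pool.Agent.H947R2.OPhi

universe u v

lemma T_congr {G : Type u} {H : Type v} [Group G] [Group H] (e : G ≃* H) (π : Finset ℕ) :
    T G π = T H π := by
  unfold T
  refine Nat.card_congr (Equiv.subtypeEquiv e.toEquiv ?_)
  intro a
  simp [MulEquiv.orderOf_eq]

lemma SC_congr {G : Type u} {H : Type v} [Group G] [Group H] (e : G ≃* H) (h : SC G) : SC H := by
  intro π hπ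
  rw [← T_congr e π, ← Nat.card_congr e.toEquiv]
  exact h π hπ

lemma Tight_congr {G : Type u} {H : Type v} [Group G] [Group H] (e : G ≃* H) (h : Tight G) :
    Tight H := by
  intro π hπ
  rw [← T_congr e π, ← Nat.card_congr e.toEquiv]
  exact h π hπ

lemma exists_normal_p {G : Type u} [Group G] [Finite G] (R : Subgroup G) [R.Normal]
    [Group.IsSolvable R] (hR : R ≠ ⊥) :
    ∃ p : ℕ, p.Prime ∧ ∃ N : Subgroup G, N ≤ R ∧ N.Normal ∧ N ≠ ⊥ ∧ IsPGroup p N := by
  classical
  have hex : ∃ n, derivedSeries R n = ⊥ := (Group.isSolvable_def R).1 inferInstance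
  have h0 : Nat.find hex ≠ 0 := by
    intro h
    have := Nat.find_spec hex
    rw [h, derivedSeries_zero] at this
    apply hR
    rw [eq_bot_iff]
    intro x hx
    have hx' : (⟨x, hx⟩ : R) ∈ (⊤ : Subgroup R) := Subgroup.mem_top _
    rw [this, Subgroup.mem_bot] at hx'
    rw [Subgroup.mem_bot]
    exact congrArg Subtype.val hx'
  obtain ⟨n, hn⟩ := Nat.exists_eq_succ_of_ne_zero h0
  have hA1 : derivedSeries R n ≠ ⊥ := Nat.find_min hex (by omega)
  have hA2 : derivedSeries R (n + 1) = ⊥ := by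
    have := Nat.find_spec hex
    rwa [hn] at this
  set A : Subgroup G := (derivedSeries R n).map R.subtype with hA
  have hAn : A.Normal := inferInstance
  have hAcomm : ∀ x ∈ A, ∀ y ∈ A, x * y = y * x := by
    intro x hx y hy
    obtain ⟨x', hx', rfl⟩ := Subgroup.mem_map.1 hx
    obtain ⟨y', hy', rfl⟩ := Subgroup.mem_map.1 hy
    rw [derivedSeries_succ, Subgroup.commutator_eq_bot_iff_le_centralizer] at hA2
    have := Subgroup.mem_centralizer_iff.1 (hA2 hx') y' hy'
    have h2 := congrArg R.subtype this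
    simpa using h2.symm
  have hAne : A ≠ ⊥ := by
    rw [hA, Ne, Subgroup.map_eq_bot_iff_of_injective _ R.subtype_injective]
    exact hA1
  have hAcard : 1 < Nat.card A := (Subgroup.one_lt_card_iff_ne_bot A).2 hAne
  obtain ⟨p, hp, hpd⟩ := Nat.exists_prime_and_dvd hAcard.ne'
  have : Fact p.Prime := ⟨hp⟩
  obtain ⟨a, ha⟩ := exists_prime_orderOf_dvd_card' (G := A) p hpd
  let N : Subgroup G :=
    { carrier := {x | x ∈ A ∧ x ^ p = 1}
      mul_mem' := by
        rintro x y ⟨hx, hx'⟩ ⟨hy, hy'⟩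
        refine ⟨A.mul_mem hx hy, ?_⟩
        have hc : Commute x y := hAcomm x hx y hy
        rw [hc.mul_pow, hx', hy', one_mul]
      one_mem' := ⟨A.one_mem, one_pow _⟩
      inv_mem' := by
        rintro x ⟨hx, hx'⟩
        exact ⟨A.inv_mem hx, by rw [inv_pow, hx', inv_one]⟩ }
  have hNmem : ∀ x, x ∈ N ↔ x ∈ A ∧ x ^ p = 1 := fun x => Iff.rfl
  refine ⟨p, hp, N, ?_, ?_, ?_, ?_⟩
  · intro x hx
    obtain ⟨x', _, rfl⟩ := Subgroup.mem_map.1 ((hNmem x).1 hx).1
    exact x'.2
  · refine ⟨fun x hx g => ?_⟩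
    rw [hNmem] at hx ⊢
    refine ⟨hAn.conj_mem x hx.1 g, ?_⟩
    rw [conj_pow, hx.2, mul_one, mul_inv_cancel]
  · intro hbot
    have h1 : (a : G) ∈ N := by
      rw [hNmem]
      refine ⟨a.2, ?_⟩
      rw [← Subgroup.coe_pow, ← ha, pow_orderOf_eq_one, Subgroup.coe_one]
    rw [hbot, Subgroup.mem_bot] at h1
    have h2 : a = 1 := Subtype.ext h1
    rw [h2, orderOf_one] at ha
    exact hp.one_lt.ne ha
  · intro x
    refine ⟨1, ?_⟩
    apply Subtype.ext
    simpa using ((hNmem x).1 x.2).2

lemma card_quot_lt {G : Type u} [Group G] [Finite G] (N : Subgroup G) (hN : N ≠ ⊥) :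
    Nat.card (G ⧸ N) < Nat.card G := by
  rw [Subgroup.card_eq_card_quotient_mul_card_subgroup N]
  have h1 : 1 < Nat.card N := (Subgroup.one_lt_card_iff_ne_bot N).2 hN
  have h2 : 0 < Nat.card (G ⧸ N) := Nat.card_pos
  nlinarith

theorem SC_of_solvable_normal_aux : ∀ (n : ℕ) (G : Type u) [Group G] [Finite G]
    (R : Subgroup G) [R.Normal] [Group.IsSolvable R], Nat.card G = n → SC (G ⧸ R) → SC G := by
  intro n
  induction n using Nat.strong_induction_on with
  | _ n ih =>
    intro G _ _ R _ _ hn hSC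
    by_cases hR : R = ⊥
    · subst hR
      exact SC_congr QuotientGroup.quotientBot hSC
    · obtain ⟨p, hp, N, hNR, hNn, hN1, hNp⟩ := exists_normal_p R hR
      have hmapn : (R.map (QuotientGroup.mk' N)).Normal :=
        Subgroup.Normal.map inferInstance _ (QuotientGroup.mk'_surjective N)
      have hmaps : Group.IsSolvable (R.map (QuotientGroup.mk' N)) :=
        Group.isSolvable_of_surjective ((QuotientGroup.mk' N).subgroupMap_surjective R)
      have h1 : SC ((G ⧸ N) ⧸ (R.map (QuotientGroup.mk' N))) :=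
        SC_congr (QuotientGroup.quotientQuotientEquivQuotient N R hNR).symm hSC
      have h2 : SC (G ⧸ N) :=
        ih (Nat.card (G ⧸ N)) (hn ▸ card_quot_lt N hN1) (G ⧸ N) (R.map (QuotientGroup.mk' N)) rfl h1
      exact SC_of_quotient N hp hNp h2

/-- If `R` is a solvable normal subgroup and `G ⧸ R` satisfies (SC), so does `G`. -/
theorem SC_of_solvable_normal (G : Type u) [Group G] [Finite G]
    (R : Subgroup G) [R.Normal] [Group.IsSolvable R] (h : SC (G ⧸ R)) : SC G :=
  SC_of_solvable_normal_aux _ G R rfl h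

lemma T_empty (G : Type u) [Group G] [Finite G] : (T G ∅ : ℚ) = B (Nat.card G) ∅ := by
  unfold T B
  simp

/-- The number of elements of order prime to `p` is `|G| - T G {p}`. -/
lemma card_preg (G : Type u) [Group G] [Finite G] (p : ℕ) :
    Nat.card {g : G // ¬ p ∣ orderOf g} + T G {p} = Nat.card G := by
  classical
  have : Fintype G := Fintype.ofFinite G
  unfold T
  rw [Nat.card_eq_fintype_card, Nat.card_eq_fintype_card, Nat.card_eq_fintype_card]
  simp only [Finset.mem_singleton, forall_eq]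
  rw [Fintype.card_subtype, Fintype.card_subtype, add_comm,
    Finset.card_filter_add_card_filter_not, Finset.card_univ]

end Pool.Agent.H947R2.OPhi
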