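import Pool.Agent.H947R2.OPhi2

set_option autoImplicit false
set_option linter.unusedSectionVars false

open Finset

namespace Pool.Agent.H947R2.OPhi

universe u v

section

variable {G : Type u} [Group G] [Finite G] (N : Subgroup G) [N.Normal] {p : ℕ}

lemma B_single (n : ℕ) (p : ℕ) :
    B n {p} = (n : ℚ) * (1 - 1 / ((p ^ n.factorization p : ℕ) : ℚ)) := by
  simp [B]

lemma preg_bij (hp : p.Prime) (hN : IsPGroup p N) (h : SC (G ⧸ N)) (ht : Tight G) :
    Nat.card {g : G // ¬ p ∣ orderOf g} ≤ Nat.card {g : G ⧸ N // ¬ p ∣ orderOf g} := by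
  obtain ⟨a, ha, hcard⟩ := card_facts N hp hN
  have hm : Nat.card (G ⧸ N) ≠ 0 := Nat.card_pos.ne'
  have h1 := card_preg G p
  have h2 := card_preg (G ⧸ N) p
  have h3 := ht {p} (by simpa using hp)
  have h4 := h {p} (by simpa using hp)
  rw [B_single] at h3 h4
  have hpa : p ^ a ≠ 0 := pow_ne_zero _ hp.ne_zero
  have hf : (Nat.card (G ⧸ N) * p ^ a).factorization p = (Nat.card (G ⧸ N)).factorization p + a := by
    rw [Nat.factorization_mul hm hpa, Finsupp.add_apply, Nat.Prime.factorization_pow hp,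
        Finsupp.single_apply, if_pos rfl]
  have h1' : (Nat.card {g : G // ¬ p ∣ orderOf g} : ℚ) + T G {p} = Nat.card G := by
    exact_mod_cast h1
  have h2' : (Nat.card {g : G ⧸ N // ¬ p ∣ orderOf g} : ℚ) + T (G ⧸ N) {p} =
      Nat.card (G ⧸ N) := by
    exact_mod_cast h2
  have hp0 : (p : ℚ) ≠ 0 := by exact_mod_cast hp.ne_zero
  have h5 : (Nat.card G : ℚ) * (1 / ((p ^ (Nat.card G).factorization p : ℕ) : ℚ)) =
      (Nat.card (G ⧸ N) : ℚ) * (1 / ((p ^ (Nat.card (G ⧸ N)).factorization p : ℕ) : ℚ)) := by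
    rw [hcard, hf]
    push_cast
    rw [pow_add]
    field_simp
  have h6 : (Nat.card {g : G // ¬ p ∣ orderOf g} : ℚ) ≤
      Nat.card {g : G ⧸ N // ¬ p ∣ orderOf g} := by
    rw [mul_sub, mul_one] at h3 h4
    linarith
  exact_mod_cast h6

lemma preg_comm (hp : p.Prime) (hN : IsPGroup p N) (h : SC (G ⧸ N)) (ht : Tight G)
    (g : G) (hg : ¬ p ∣ orderOf g) (ν : G) (hν : ν ∈ N) : g * ν = ν * g := by
  have hle := preg_bij N hp hN h ht
  let f : {g : G // ¬ p ∣ orderOf g} → {g : G ⧸ N // ¬ p ∣ orderOf g} :=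
    fun x => ⟨(x.1 : G ⧸ N), fun hd => x.2 (hd.trans (orderOf_mk_dvd N x.1))⟩
  have hsurj : Function.Surjective f := by
    rintro ⟨q, hq⟩
    obtain ⟨g0, rfl⟩ := QuotientGroup.mk_surjective q
    obtain ⟨g', hg1, hg2⟩ := exists_preg N hp hN g0 hq
    exact ⟨⟨g', hg2⟩, Subtype.ext hg1⟩
  have hbij : Function.Bijective f := hsurj.bijective_of_nat_card_le hle
  have hord : orderOf (ν⁻¹ * g * ν) = orderOf g := by
    have := orderOf_injective (MulAut.conj ν⁻¹).toMonoidHom (MulAut.conj ν⁻¹).injective g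
    simpa using this
  have hg' : ¬ p ∣ orderOf (ν⁻¹ * g * ν) := by rwa [hord]
  have : f ⟨ν⁻¹ * g * ν, hg'⟩ = f ⟨g, hg⟩ := by
    apply Subtype.ext
    change ((ν⁻¹ * g * ν : G) : G ⧸ N) = (g : G ⧸ N)
    have hν1 : (ν : G ⧸ N) = 1 := (QuotientGroup.eq_one_iff ν).2 hν
    simp [hν1]
  have h2 := congrArg Subtype.val (hbij.1 this)
  simp only at h2
  calc g * ν = ν * (ν⁻¹ * g * ν) := by group
    _ = ν * g := by rw [h2]

lemma exists_center (hp : p.Prime) (hN : IsPGroup p N) (hN1 : N ≠ ⊥)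
    (hcomm : ∀ g : G, ¬ p ∣ orderOf g → ∀ ν ∈ N, g * ν = ν * g) :
    N ⊓ Subgroup.center G ≠ ⊥ := by
  have : Fact p.Prime := ⟨hp⟩
  let φ : G →* MulAut N := MulAut.conjNormal
  have hφ : ∀ (g : G) (ν : N), ((φ g ν : N) : G) = g * ν * g⁻¹ := fun g ν =>
    MulAut.conjNormal_apply g ν
  have hrange : IsPGroup p φ.range := by
    rintro ⟨x, g, rfl⟩
    obtain ⟨k, m, hm, hkm⟩ := Nat.exists_eq_pow_mul_and_not_dvd (orderOf_pos g).ne' p hp.ne_one
    refine ⟨k, ?_⟩
    apply Subtype.ext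
    change φ g ^ p ^ k = 1
    rw [← map_pow]
    have hord : orderOf (g ^ p ^ k) = m := by
      rw [orderOf_pow, hkm]
      rw [Nat.gcd_eq_right (Dvd.intro _ rfl), Nat.mul_div_cancel_left _ (pow_pos hp.pos k)]
    have h1 : ¬ p ∣ orderOf (g ^ p ^ k) := by rwa [hord]
    ext ν
    rw [hφ, MulAut.one_apply, hcomm _ h1 _ ν.2]
    group
  obtain ⟨a, ha⟩ := IsPGroup.iff_card.1 hN
  have hcard : 1 < Nat.card N := (Subgroup.one_lt_card_iff_ne_bot N).2 hN1
  have hpd : p ∣ Nat.card N := by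
    rw [ha]
    apply dvd_pow_self
    rintro rfl
    rw [ha] at hcard
    simp at hcard
  have h1fix : (1 : N) ∈ MulAction.fixedPoints φ.range N := by
    rintro ⟨x, g, rfl⟩
    change φ g 1 = 1
    exact map_one _
  obtain ⟨b, hb, hb1⟩ := hrange.exists_fixed_point_of_prime_dvd_card_of_fixed_point N hpd h1fix
  intro hbot
  have hbc : (b : G) ∈ N ⊓ Subgroup.center G := by
    refine Subgroup.mem_inf.2 ⟨b.2, Subgroup.mem_center_iff.2 ?_⟩
    intro g
    have h2 := hb ⟨φ g, g, rfl⟩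
    have h3 : φ g b = b := h2
    have h4 := congrArg Subtype.val h3
    rw [hφ] at h4
    calc g * b = (g * b * g⁻¹) * g := by group
      _ = b * g := by rw [h4]
  rw [hbot, Subgroup.mem_bot] at hbc
  exact hb1 (Subtype.ext hbc.symm)

end

theorem nilp_aux : ∀ (n : ℕ) (G : Type u) [Group G] [Finite G]
    (R : Subgroup G) [R.Normal] [Group.IsSolvable R], Nat.card G = n → SC (G ⧸ R) →
    (Tight (G ⧸ R) → Group.IsNilpotent (G ⧸ R)) → Tight G → Group.IsNilpotent G := by
  intro n
  induction n using Nat.strong_induction_on with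
  | _ n ih =>
    intro G _ _ R _ _ hn hSC hnil ht
    by_cases hR : R = ⊥
    · subst hR
      have h1 := hnil (Tight_congr QuotientGroup.quotientBot.symm ht)
      exact (Group.isNilpotent_congr (QuotientGroup.quotientBot (G := G))).1 h1
    · obtain ⟨p, hp, N, hNR, hNn, hN1, hNp⟩ := exists_normal_p R hR
      have key : ∀ (M : Subgroup G) [M.Normal], M ≤ R →
          (R.map (QuotientGroup.mk' M)).Normal ∧ Group.IsSolvable (R.map (QuotientGroup.mk' M)) := by
        intro M _ _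
        exact ⟨Subgroup.Normal.map inferInstance _ (QuotientGroup.mk'_surjective M),
          Group.isSolvable_of_surjective ((QuotientGroup.mk' M).subgroupMap_surjective R)⟩
      have hSCN : SC (G ⧸ N) := by
        obtain ⟨k1, k2⟩ := key N hNR
        exact SC_of_solvable_normal (G ⧸ N) (R.map (QuotientGroup.mk' N))
          (SC_congr (QuotientGroup.quotientQuotientEquivQuotient N R hNR).symm hSC)
      have hZ1 : N ⊓ Subgroup.center G ≠ ⊥ :=
        exists_center N hp hNp hN1 (fun g hg ν hν => preg_comm N hp hNp hSCN ht g hg ν hν)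
      set Z : Subgroup G := N ⊓ Subgroup.center G with hZ
      have hZR : Z ≤ R := inf_le_left.trans hNR
      have hZn : Z.Normal := inferInstance
      have hZp : IsPGroup p Z := hNp.to_le inf_le_left
      obtain ⟨k1, k2⟩ := key Z hZR
      have hSCZ : SC (G ⧸ Z) :=
        SC_of_solvable_normal (G ⧸ Z) (R.map (QuotientGroup.mk' Z))
          (SC_congr (QuotientGroup.quotientQuotientEquivQuotient Z R hZR).symm hSC)
      have htZ : Tight (G ⧸ Z) := Tight_quotient Z hp hZp hZ1 hSCZ ht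
      have hnilZ : Group.IsNilpotent (G ⧸ Z) := by
        refine ih (Nat.card (G ⧸ Z)) (hn ▸ card_quot_lt Z hZ1) (G ⧸ Z)
          (R.map (QuotientGroup.mk' Z)) rfl
          (SC_congr (QuotientGroup.quotientQuotientEquivQuotient Z R hZR).symm hSC) ?_ htZ
        intro ht'
        have h1 := hnil (Tight_congr (QuotientGroup.quotientQuotientEquivQuotient Z R hZR) ht')
        exact (Group.isNilpotent_congr (QuotientGroup.quotientQuotientEquivQuotient Z R hZR)).2 h1
      refine Subgroup.isNilpotent_of_ker_le_center (QuotientGroup.mk' Z) ?_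
      rw [QuotientGroup.ker_mk']
      exact inf_le_right

end Pool.Agent.H947R2.OPhi
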