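import Pool.Agent.H947R2.OPhi3

set_option autoImplicit false
set_option linter.unusedSectionVars false

open Finset

namespace Pool.Agent.H947R2.OPhi

universe u v

/-- weight of a set of primes -/
noncomputable def w (π : Finset ℕ) : ℚ := ∏ p ∈ π, (1 / ((p : ℚ) - 1))

lemma w_pos {n : ℕ} {π : Finset ℕ} (hπ : π ⊆ n.primeFactors) : 0 < w π := by
  unfold w
  refine Finset.prod_pos (fun p hp => ?_)
  have : 1 < p := (Nat.prime_of_mem_primeFactors (hπ hp)).one_lt
  have h2 : (1 : ℚ) < p := by exact_mod_cast this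
  have h3 : (0 : ℚ) < p - 1 := by linarith
  positivity

lemma ratio_eq (m : ℕ) (hm : m ≠ 0) :
    (m : ℚ) / (Nat.totient m : ℚ) = ∑ π ∈ m.primeFactors.powerset, w π := by
  unfold w
  rw [← Finset.prod_one_add, Nat.totient_eq_mul_prod_factors]
  have hm0 : (m : ℚ) ≠ 0 := by exact_mod_cast hm
  rw [← div_div, div_self hm0, one_div, ← Finset.prod_inv_distrib]
  refine Finset.prod_congr rfl (fun p hp => ?_)
  have : 1 < p := (Nat.prime_of_mem_primeFactors hp).one_lt
  have h2 : (1 : ℚ) < p := by exact_mod_cast this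
  have h3 : (p : ℚ) - 1 ≠ 0 := by linarith
  have h4 : (p : ℚ) ≠ 0 := by linarith
  field_simp
  ring

lemma sum_ratio (G : Type u) [Group G] [Fintype G] :
    ∑ x : G, ((orderOf x : ℚ) / (Nat.totient (orderOf x) : ℚ)) =
      ∑ π ∈ (Nat.card G).primeFactors.powerset, w π * (T G π : ℚ) := by
  classical
  have hn : Nat.card G ≠ 0 := Nat.card_pos.ne'
  have h1 : ∀ x : G, ((orderOf x : ℚ) / (Nat.totient (orderOf x) : ℚ)) =
      ∑ π ∈ (Nat.card G).primeFactors.powerset,
        (if ∀ p ∈ π, p ∣ orderOf x then w π else 0) := by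
    intro x
    rw [ratio_eq _ (orderOf_pos x).ne', ← Finset.sum_filter]
    refine Finset.sum_congr ?_ (fun _ _ => rfl)
    ext π
    simp only [Finset.mem_powerset, Finset.mem_filter]
    constructor
    · intro h
      refine ⟨h.trans (Nat.primeFactors_mono (orderOf_dvd_natCard x) hn), ?_⟩
      intro p hp
      exact Nat.dvd_of_mem_primeFactors (h hp)
    · rintro ⟨h1, h2⟩ p hp
      exact Nat.mem_primeFactors.2 ⟨Nat.prime_of_mem_primeFactors (h1 hp), h2 p hp,
        (orderOf_pos x).ne'⟩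
  simp_rw [h1]
  rw [Finset.sum_comm]
  refine Finset.sum_congr rfl (fun π _ => ?_)
  rw [← Finset.sum_filter, Finset.sum_const, nsmul_eq_mul, mul_comm, T,
    Nat.card_eq_fintype_card, Fintype.card_subtype]

lemma sum_cyclic (C : Type v) [Group C] [Fintype C] [IsCyclic C] :
    ∑ x : C, ((orderOf x : ℚ) / (Nat.totient (orderOf x) : ℚ)) =
      ∑ π ∈ (Nat.card C).primeFactors.powerset, w π * B (Nat.card C) π := by
  classical
  have hn : Nat.card C ≠ 0 := Nat.card_pos.ne'
  set n := Nat.card C with hndef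
  have h1 : ∑ x : C, ((orderOf x : ℚ) / (Nat.totient (orderOf x) : ℚ)) =
      ((ArithmeticFunction.sigma 1 n : ℕ) : ℚ) := by
    rw [ArithmeticFunction.sigma_one_apply]
    rw [← Finset.sum_fiberwise_of_maps_to (s := (univ : Finset C)) (t := n.divisors)
      (g := fun x => orderOf x)
      (fun x _ => Nat.mem_divisors.2 ⟨orderOf_dvd_natCard x, hn⟩)]
    rw [Nat.cast_sum]
    refine Finset.sum_congr rfl (fun d hd => ?_)
    have hd' := Nat.mem_divisors.1 hd
    have hd0 : d ≠ 0 := fun h => by simp [h] at hd'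
    have h2 : ∑ x ∈ univ.filter (fun x : C => orderOf x = d),
        ((orderOf x : ℚ) / (Nat.totient (orderOf x) : ℚ)) =
        ∑ x ∈ univ.filter (fun x : C => orderOf x = d), ((d : ℚ) / (Nat.totient d : ℚ)) := by
      refine Finset.sum_congr rfl (fun x hx => ?_)
      rw [(Finset.mem_filter.1 hx).2]
    rw [h2, Finset.sum_const, nsmul_eq_mul, IsCyclic.card_orderOf_eq_totient
      (by rw [← Nat.card_eq_fintype_card]; exact hd'.1)]
    have : (Nat.totient d : ℚ) ≠ 0 := by
      have := Nat.totient_pos.2 (Nat.pos_of_ne_zero hd0)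
      exact_mod_cast this.ne'
    field_simp
  rw [h1]
  have h3 : ∑ π ∈ n.primeFactors.powerset, w π * B n π =
      (n : ℚ) * ∏ p ∈ n.primeFactors,
        (1 + (1 / ((p : ℚ) - 1)) * (1 - 1 / ((p ^ n.factorization p : ℕ) : ℚ))) := by
    rw [Finset.prod_one_add, Finset.mul_sum]
    refine Finset.sum_congr rfl (fun π _ => ?_)
    unfold w B
    rw [Finset.prod_mul_distrib]
    ring
  rw [h3]
  have h4 : ((n : ℕ) : ℚ) = ∏ p ∈ n.primeFactors, ((p ^ n.factorization p : ℕ) : ℚ) := by
    rw [← Nat.cast_prod]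
    congr 1
    conv_lhs => rw [← Nat.prod_factorization_pow_eq_self hn]
    rfl
  conv_rhs => rw [h4]
  rw [← Finset.prod_mul_distrib]
  rw [ArithmeticFunction.IsMultiplicative.multiplicative_factorization _
    ArithmeticFunction.isMultiplicative_sigma hn, Finsupp.prod, Nat.cast_prod]
  refine Finset.prod_congr rfl (fun p hp => ?_)
  have hp' : p.Prime := Nat.prime_of_mem_primeFactors hp
  rw [ArithmeticFunction.sigma_one_apply_prime_pow hp']
  have h2 : (1 : ℚ) < p := by exact_mod_cast hp'.one_lt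
  have h5 : (p : ℚ) - 1 ≠ 0 := by linarith
  have h6 : (p : ℚ) ≠ 0 := by linarith
  have h7 : (p : ℚ) ^ n.factorization p ≠ 0 := pow_ne_zero _ h6
  push_cast
  rw [geom_sum_eq h2.ne']
  field_simp
  ring

/-- (SC) implies the inequality. -/
theorem ineq_of_SC {G : Type u} [Group G] [Fintype G] (h : SC G)
    (C : Type v) [Group C] [Fintype C] [IsCyclic C] (hc : Nat.card C = Nat.card G) :
    ∑ x : G, ((orderOf x : ℚ) / (Nat.totient (orderOf x) : ℚ)) ≤
      ∑ x : C, ((orderOf x : ℚ) / (Nat.totient (orderOf x) : ℚ)) := by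
  rw [sum_ratio, sum_cyclic, hc]
  refine Finset.sum_le_sum (fun π hπ => ?_)
  have hπ' := Finset.mem_powerset.1 hπ
  exact mul_le_mul_of_nonneg_left
    (h π (fun p hp => Nat.prime_of_mem_primeFactors (hπ' hp))) (w_pos hπ').le

/-- (SC) and equality of the sums imply tightness. -/
theorem tight_of_eq {G : Type u} [Group G] [Fintype G] (h : SC G)
    (C : Type v) [Group C] [Fintype C] [IsCyclic C] (hc : Nat.card C = Nat.card G)
    (heq : ∑ x : G, ((orderOf x : ℚ) / (Nat.totient (orderOf x) : ℚ)) =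
      ∑ x : C, ((orderOf x : ℚ) / (Nat.totient (orderOf x) : ℚ))) : Tight G := by
  classical
  rw [sum_ratio, sum_cyclic, hc] at heq
  have h1 := (Finset.sum_eq_sum_iff_of_le (fun π hπ => ?_)).1 heq
  · intro π hπ
    by_cases hsub : π ⊆ (Nat.card G).primeFactors
    · have := h1 π (Finset.mem_powerset.2 hsub)
      exact mul_left_cancel₀ (w_pos hsub).ne' this
    · have hex : ∃ p ∈ π, ¬ p ∣ Nat.card G := by
        by_contra hcon
        push Not at hcon
        exact hsub (fun p hp => Nat.mem_primeFactors.2 ⟨hπ p hp, hcon p hp, Nat.card_pos.ne'⟩)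
      obtain ⟨p, hp, hpn⟩ := hex
      have hT : T G π = 0 := by
        unfold T
        rw [Nat.card_eq_zero]
        left
        refine ⟨fun ⟨g, hg⟩ => hpn ((hg p hp).trans (orderOf_dvd_natCard g))⟩
      have hB : B (Nat.card G) π = 0 := by
        unfold B
        rw [Finset.prod_eq_zero hp, mul_zero]
        rw [Nat.factorization_eq_zero_of_not_dvd hpn]
        simp
      rw [hT, hB, Nat.cast_zero]
  · have hπ' := Finset.mem_powerset.1 hπ
    exact mul_le_mul_of_nonneg_left
      (h π (fun p hp => Nat.prime_of_mem_primeFactors (hπ' hp))) (w_pos hπ').le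

end Pool.Agent.H947R2.OPhi
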