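import Pool.Agent.H947R2.OPhi4

set_option autoImplicit false
set_option linter.unusedSectionVars false

open Finset

namespace Pool.Agent.H947R2.OPhi

universe u v

lemma card_class_mul (G : Type u) [Group G] [Finite G] (g : G) :
    Nat.card {x : G // IsConj g x} * Nat.card (Subgroup.centralizer {g}) = Nat.card G := by
  classical
  have : Fintype G := Fintype.ofFinite G
  have h1 : Nat.card {x : G // IsConj g x} = Nat.card (MulAction.orbit (ConjAct G) g) := by
    apply Nat.card_congr
    refine Equiv.subtypeEquivRight (fun x => ?_)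
    rw [ConjAct.mem_orbit_conjAct, isConj_comm]
  rw [h1, Subgroup.nat_card_centralizer_nat_card_stabilizer]
  have : Fintype (ConjAct G) := inferInstance
  rw [Nat.card_eq_fintype_card, Nat.card_eq_fintype_card,
    MulAction.card_orbit_mul_card_stabilizer_eq_card_group (ConjAct G) g,
    Nat.card_eq_fintype_card]
  exact (Fintype.card_congr (ConjAct.toConjAct (G := G)).toEquiv).symm

lemma class_sum {G : Type u} [Group G] [Fintype G] {q : ℕ} (F : G → ℕ)
    (W : G → Prop) [DecidablePred W]
    (hF : ∀ g h, IsConj g h → F g = F h) (hW : ∀ g h, IsConj g h → W g → W h)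
    (hd : ∀ v, W v → q ^ (Nat.card (Subgroup.centralizer {v})).factorization q ∣ F v) :
    q ^ (Nat.card G).factorization q ∣ ∑ v ∈ univ.filter W, F v := by
  classical
  have : Fintype (ConjClasses G) := Fintype.ofFinite _
  rw [← Finset.sum_fiberwise_of_maps_to (s := univ.filter W) (t := (univ : Finset (ConjClasses G)))
    (g := fun x => ConjClasses.mk x) (fun _ _ => mem_univ _)]
  refine Finset.dvd_sum (fun c _ => ?_)
  by_cases hc : ∃ v, W v ∧ ConjClasses.mk v = c
  · obtain ⟨v, hv, rfl⟩ := hc
    have h1 : ∑ x ∈ (univ.filter W).filter (fun x => ConjClasses.mk x = ConjClasses.mk v), F x =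
        Nat.card {x : G // IsConj v x} * F v := by
      have h2 : (univ.filter W).filter (fun x => ConjClasses.mk x = ConjClasses.mk v) =
          univ.filter (fun x => IsConj v x) := by
        ext x
        simp only [mem_filter, mem_univ, true_and]
        rw [ConjClasses.mk_eq_mk_iff_isConj, isConj_comm]
        exact ⟨fun h => h.2, fun h => ⟨hW v x h hv, h⟩⟩
      rw [h2, Nat.card_eq_fintype_card, Fintype.card_subtype, ← smul_eq_mul, ← Finset.sum_const]
      refine Finset.sum_congr rfl (fun x hx => ?_)
      exact (hF v x (Finset.mem_filter.1 hx).2).symm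
    rw [h1]
    have h3 := card_class_mul G v
    have hc0 : Nat.card (Subgroup.centralizer {v}) ≠ 0 := Nat.card_pos.ne'
    have hk0 : Nat.card {x : G // IsConj v x} ≠ 0 := by
      intro h0
      rw [h0, zero_mul] at h3
      exact Nat.card_pos.ne' h3.symm
    rw [← h3, Nat.factorization_mul hk0 hc0, Finsupp.add_apply, pow_add]
    exact mul_dvd_mul (Nat.ordProj_dvd _ _) (hd v hv)
  · have h2 : (univ.filter W).filter (fun x => ConjClasses.mk x = c) = ∅ := by
      rw [Finset.filter_eq_empty_iff]
      intro x hx hxc
      exact hc ⟨x, (Finset.mem_filter.1 hx).2, hxc⟩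
    rw [h2, Finset.sum_empty]
    exact dvd_zero _

/-- number of `q`-elements -/
noncomputable def Nq (q : ℕ) (G : Type u) [Group G] : ℕ :=
  Nat.card {g : G // ∃ k : ℕ, g ^ q ^ k = 1}

lemma Nq_congr {q : ℕ} {G : Type u} {H : Type v} [Group G] [Group H] (e : G ≃* H) :
    Nq q G = Nq q H := by
  unfold Nq
  refine Nat.card_congr (Equiv.subtypeEquiv e.toEquiv ?_)
  intro a
  constructor
  · rintro ⟨k, hk⟩
    refine ⟨k, ?_⟩
    change e a ^ q ^ k = 1
    rw [← map_pow, hk, map_one]
  · rintro ⟨k, hk⟩
    refine ⟨k, ?_⟩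
    apply e.injective
    rw [map_pow, map_one]
    exact hk

/-- the exponent projecting on the `q'`-part -/
lemma exists_e (n : ℕ) (hn : n ≠ 0) {q : ℕ} (hq : q.Prime) :
    ∃ e : ℕ, e ≡ 1 [MOD n / q ^ n.factorization q] ∧ q ^ n.factorization q ∣ e := by
  have hco : Nat.Coprime (n / q ^ n.factorization q) (q ^ n.factorization q) :=
    (Nat.coprime_ordCompl hq hn).symm.pow_right _
  obtain ⟨e, h1, h2⟩ := Nat.chineseRemainder hco 1 0
  exact ⟨e, h1, (Nat.modEq_zero_iff_dvd).1 h2⟩

section

variable {G : Type u} [Group G] [Fintype G] {q : ℕ} (hq : q.Prime) {e : ℕ}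
  (he1 : e ≡ 1 [MOD Nat.card G / q ^ (Nat.card G).factorization q])
  (he2 : q ^ (Nat.card G).factorization q ∣ e)

include hq he1 he2

lemma pow_e_of_q (u : G) (hu : ∃ k : ℕ, u ^ q ^ k = 1) : u ^ e = 1 := by
  obtain ⟨k, hk⟩ := hu
  obtain ⟨j, _, hj⟩ := (Nat.dvd_prime_pow hq).1 (orderOf_dvd_of_pow_eq_one hk)
  rw [← orderOf_dvd_iff_pow_eq_one]
  refine dvd_trans ?_ he2
  rw [hj]
  apply pow_dvd_pow
  have h1 : q ^ j ∣ Nat.card G := hj ▸ orderOf_dvd_natCard u
  exact (Nat.Prime.pow_dvd_iff_le_factorization hq Nat.card_pos.ne').1 h1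

lemma pow_ee (g : G) : (g ^ e) ^ e = g ^ e := by
  rw [← pow_mul, pow_eq_pow_iff_modEq]
  refine Nat.ModEq.of_dvd (orderOf_dvd_natCard g) ?_
  have hn : Nat.card G ≠ 0 := Nat.card_pos.ne'
  have hco : Nat.Coprime (q ^ (Nat.card G).factorization q)
      (Nat.card G / q ^ (Nat.card G).factorization q) :=
    (Nat.coprime_ordCompl hq hn).pow_left _
  have h1 : e * e ≡ e [MOD q ^ (Nat.card G).factorization q *
      (Nat.card G / q ^ (Nat.card G).factorization q)] := by
    rw [← Nat.modEq_and_modEq_iff_modEq_mul hco]
    constructor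
    · exact ((Nat.modEq_zero_iff_dvd).2 (he2.mul_left e)).trans
        ((Nat.modEq_zero_iff_dvd).2 he2).symm
    · calc e * e ≡ 1 * e [MOD _] := Nat.ModEq.mul_right e he1
        _ = e := one_mul e
  rwa [Nat.ordProj_mul_ordCompl_eq_self] at h1

/-- `g * (g ^ e)⁻¹` is a `q`-element. -/
lemma q_of_div (g : G) : (g * (g ^ e)⁻¹) ^ q ^ (Nat.card G).factorization q = 1 := by
  have hc : Commute g ((g ^ e)⁻¹) := ((Commute.refl g).pow_right e).inv_right
  rw [hc.mul_pow, inv_pow, mul_inv_eq_one, ← pow_mul, pow_eq_pow_iff_modEq]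
  refine Nat.ModEq.of_dvd (orderOf_dvd_natCard g) ?_
  have h1 : Nat.card G = (Nat.card G / q ^ (Nat.card G).factorization q) *
      q ^ (Nat.card G).factorization q := by
    rw [mul_comm]; exact (Nat.ordProj_mul_ordCompl_eq_self _ _).symm
  have h2 := (Nat.ModEq.mul_right' (q ^ (Nat.card G).factorization q) he1).symm
  rw [← h1, one_mul] at h2
  exact h2

/-- fibre of `g ↦ g ^ e` over `v` with `v ^ e = v`. -/
lemma card_fibre (v : G) (hv : v ^ e = v) :
    Nat.card {g : G // g ^ e = v} = Nq q (Subgroup.centralizer {v}) := by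
  unfold Nq
  have hmem : ∀ g : G, g ^ e = v → g * v⁻¹ ∈ Subgroup.centralizer {v} := by
    intro g hg
    rw [Subgroup.mem_centralizer_singleton_iff]
    have hc : g * v = v * g := by
      rw [← hg]
      exact ((Commute.refl g).pow_right e)
    calc g * v⁻¹ * v = g := by group
      _ = v * g * v⁻¹ := by rw [← hc]; group
      _ = v * (g * v⁻¹) := by group
  refine Nat.card_congr
    { toFun := fun g => ⟨⟨g.1 * v⁻¹, hmem g.1 g.2⟩, (Nat.card G).factorization q, ?_⟩
      invFun := fun u => ⟨(u.1 : G) * v, ?_⟩
      left_inv := ?_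
      right_inv := ?_ }
  · apply Subtype.ext
    have := q_of_div hq he1 he2 g.1
    rw [g.2] at this
    simpa using this
  · obtain ⟨⟨u, hu⟩, k, hk⟩ := u
    have hk' : u ^ q ^ k = 1 := by simpa using congrArg Subtype.val hk
    have hc : Commute u v := (Subgroup.mem_centralizer_singleton_iff.1 hu)
    change (u * v) ^ e = v
    rw [hc.mul_pow, pow_e_of_q hq he1 he2 u ⟨k, hk'⟩, one_mul, hv]
  · intro g
    apply Subtype.ext
    simp
  · intro u
    apply Subtype.ext
    apply Subtype.ext
    simp

/-- Counting a `q`-saturated set. -/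
lemma saturated_sum (S : G → Prop) [DecidablePred S] [DecidableEq G] (hS : ∀ g, S g ↔ S (g ^ e)) :
    (univ.filter S).card =
      ∑ v ∈ univ.filter (fun v => S v ∧ v ^ e = v), Nq q (Subgroup.centralizer {v}) := by
  classical
  rw [Finset.card_eq_sum_card_fiberwise (f := fun g : G => g ^ e)
    (t := univ.filter (fun v => S v ∧ v ^ e = v))]
  · refine Finset.sum_congr rfl (fun v hv => ?_)
    simp only [mem_filter, mem_univ, true_and] at hv
    rw [← card_fibre hq he1 he2 v hv.2, Nat.card_eq_fintype_card, Fintype.card_subtype]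
    congr 1
    ext g
    simp only [mem_filter, mem_univ, true_and, and_iff_right_iff_imp]
    intro hg
    rw [hS, hg]
    exact hv.1
  · intro g hg
    simp only [coe_filter, mem_univ, true_and, Set.mem_ofPred_eq] at hg ⊢
    exact ⟨(hS g).1 hg, pow_ee hq he1 he2 g⟩

end

lemma conj_pow_iff {G : Type u} [Group G] {g h : G} (hc : IsConj g h) (n : ℕ) :
    IsConj (g ^ n) (h ^ n) := hc.pow n

lemma Nq_centralizer_conj {G : Type u} [Group G] {q : ℕ} {g h : G} (hc : IsConj g h) :
    Nq q (Subgroup.centralizer {g}) = Nq q (Subgroup.centralizer {h}) := by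
  obtain ⟨c, rfl⟩ := isConj_iff.1 hc
  have e : Subgroup.centralizer {g} ≃* Subgroup.centralizer {c * g * c⁻¹} :=
    { toFun := fun x => ⟨c * x * c⁻¹, by
        rw [Subgroup.mem_centralizer_singleton_iff]
        have := Subgroup.mem_centralizer_singleton_iff.1 x.2
        calc c * x * c⁻¹ * (c * g * c⁻¹) = c * (x * g) * c⁻¹ := by group
          _ = c * (g * x) * c⁻¹ := by rw [this]
          _ = c * g * c⁻¹ * (c * x * c⁻¹) := by group⟩
      invFun := fun x => ⟨c⁻¹ * x * c, by
        rw [Subgroup.mem_centralizer_singleton_iff]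
        have := Subgroup.mem_centralizer_singleton_iff.1 x.2
        calc c⁻¹ * x * c * g = c⁻¹ * (x * (c * g * c⁻¹)) * c := by group
          _ = c⁻¹ * (c * g * c⁻¹ * x) * c := by rw [this]
          _ = g * (c⁻¹ * x * c) := by group⟩
      left_inv := fun x => by apply Subtype.ext; simp; group
      right_inv := fun x => by apply Subtype.ext; simp; group
      map_mul' := fun x y => by apply Subtype.ext; simp }
  exact Nq_congr e

/-- **Frobenius' theorem** for prime powers : the `q`-part of `|G|` divides the number of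
`q`-elements. -/
theorem frob_q {q : ℕ} (hq : q.Prime) : ∀ (n : ℕ) (G : Type u) [Group G] [Finite G],
    Nat.card G = n → q ^ (Nat.card G).factorization q ∣ Nq q G := by
  classical
  intro n
  induction n using Nat.strong_induction_on with
  | _ n ih =>
    intro G _ _ hn
    have : Fintype G := Fintype.ofFinite G
    obtain ⟨e, he1, he2⟩ := exists_e (Nat.card G) Nat.card_pos.ne' hq
    -- the non-central part
    let S : G → Prop := fun g => g ^ e ∉ Subgroup.center G
    have hS : ∀ g, S g ↔ S (g ^ e) := by
      intro g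
      simp only [S]
      rw [pow_ee hq he1 he2]
    have h1 := saturated_sum hq he1 he2 S hS
    have h2 : q ^ (Nat.card G).factorization q ∣ (univ.filter S).card := by
      rw [h1]
      apply class_sum
      · intro g h hc
        exact Nq_centralizer_conj hc
      · rintro g h hc ⟨hg1, hg2⟩
        obtain ⟨c, rfl⟩ := isConj_iff.1 hc
        have hpow : (c * g * c⁻¹) ^ e = c * g ^ e * c⁻¹ := conj_pow
        refine ⟨?_, by rw [hpow, hg2]⟩
        simp only [S] at hg1 ⊢
        rw [hpow]
        intro hcon
        apply hg1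
        have := (inferInstance : (Subgroup.center G).Normal).conj_mem _ hcon c⁻¹
        simpa [mul_assoc] using this
      · rintro v ⟨hv1, hv2⟩
        apply ih (Nat.card (Subgroup.centralizer {v})) _ _ rfl
        rw [← hn]
        have hle : Nat.card (Subgroup.centralizer {v}) ≤ Nat.card G :=
          Nat.card_le_card_of_injective _ (Subgroup.centralizer {v}).subtype_injective
        refine lt_of_le_of_ne hle (fun heq => ?_)
        have htop : Subgroup.centralizer {v} = ⊤ := Subgroup.eq_top_of_card_eq _ heq
        apply hv1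
        simp only [hv2]
        rw [Subgroup.mem_center_iff]
        intro g
        have : g ∈ Subgroup.centralizer {v} := htop ▸ Subgroup.mem_top g
        exact (Subgroup.mem_centralizer_singleton_iff.1 this)
    -- the central part
    let S' : G → Prop := fun g => g ^ e ∈ Subgroup.center G
    have hS' : ∀ g, S' g ↔ S' (g ^ e) := by
      intro g
      simp only [S']
      rw [pow_ee hq he1 he2]
    have h3 := saturated_sum hq he1 he2 S' hS'
    have h4 : (univ.filter S').card =
        (univ.filter (fun v : G => S' v ∧ v ^ e = v)).card * Nq q G := by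
      rw [h3, ← smul_eq_mul, ← Finset.sum_const]
      refine Finset.sum_congr rfl (fun v hv => ?_)
      simp only [mem_filter, mem_univ, true_and] at hv
      have htop : Subgroup.centralizer {v} = ⊤ := by
        rw [eq_top_iff]
        intro g _
        rw [Subgroup.mem_centralizer_singleton_iff]
        have := hv.1
        simp only [S', hv.2] at this
        exact (Subgroup.mem_center_iff.1 this g)
      rw [htop]
      exact Nq_congr Subgroup.topEquiv
    have h5 : (univ.filter S').card + (univ.filter S).card = Nat.card G := by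
      rw [Nat.card_eq_fintype_card, ← Finset.card_univ]
      exact Finset.card_filter_add_card_filter_not (s := univ) S'
    have h6 : q ^ (Nat.card G).factorization q ∣ (univ.filter S').card := by
      have h7 : q ^ (Nat.card G).factorization q ∣ (univ.filter S').card + (univ.filter S).card := by
        rw [h5]; exact Nat.ordProj_dvd _ _
      exact (Nat.dvd_add_left h2).1 h7
    rw [h4] at h6
    refine Nat.Coprime.dvd_of_dvd_mul_left ?_ h6
    apply Nat.Coprime.pow_left
    -- central `q`-regular elements form a group of order prime to `q`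
    let Z : Subgroup G :=
      { carrier := {v | S' v ∧ v ^ e = v}
        mul_mem' := by
          rintro x y ⟨hx, hx'⟩ ⟨hy, hy'⟩
          have hxc : x ∈ Subgroup.center G := by simpa only [S', hx'] using hx
          have hyc : y ∈ Subgroup.center G := by simpa only [S', hy'] using hy
          have hc : Commute x y := (Subgroup.mem_center_iff.1 hyc x)
          have hpow : (x * y) ^ e = x * y := by rw [hc.mul_pow, hx', hy']
          refine ⟨?_, hpow⟩
          simp only [S', hpow]
          exact mul_mem hxc hyc
        one_mem' := by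
          refine ⟨?_, one_pow e⟩
          simp only [S', one_pow]
          exact one_mem _
        inv_mem' := by
          rintro x ⟨hx, hx'⟩
          have hxc : x ∈ Subgroup.center G := by simpa only [S', hx'] using hx
          have hpow : (x⁻¹) ^ e = x⁻¹ := by rw [inv_pow, hx']
          refine ⟨?_, hpow⟩
          simp only [S', hpow]
          exact inv_mem hxc }
    have hZcard : (univ.filter (fun v : G => S' v ∧ v ^ e = v)).card = Nat.card Z := by
      rw [← Fintype.card_subtype, ← Nat.card_eq_fintype_card]
      rfl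
    rw [hZcard, Nat.Prime.coprime_iff_not_dvd hq]
    intro hdvd
    have : Fact q.Prime := ⟨hq⟩
    obtain ⟨z, hz⟩ := exists_prime_orderOf_dvd_card' (G := Z) q hdvd
    have hz1 : (z : G) ^ q ^ 1 = 1 := by
      rw [pow_one, ← hz, ← Subgroup.coe_pow, pow_orderOf_eq_one, Subgroup.coe_one]
    have hz2 : (z : G) ^ e = 1 := pow_e_of_q hq he1 he2 _ ⟨1, hz1⟩
    have hz3 : (z : G) ^ e = z := z.2.2
    have hz4 : z = 1 := Subtype.ext (by rw [← hz3, hz2]; rfl)
    rw [hz4, orderOf_one] at hz
    exact hq.one_lt.ne hz

end Pool.Agent.H947R2.OPhi
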