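import Pool.Agent.H947R2.OPhi5

set_option autoImplicit false
set_option linter.unusedSectionVars false

open Finset

namespace Pool.Agent.H947R2.OPhi

universe u v

lemma preg_pow {G : Type u} [Group G] [Fintype G] {p q : ℕ} (hp : p.Prime) (hq : q.Prime)
    (hpq : p ≠ q) {e : ℕ}
    (he1 : e ≡ 1 [MOD Nat.card G / q ^ (Nat.card G).factorization q])
    (he2 : q ^ (Nat.card G).factorization q ∣ e) (g : G) :
    (¬ p ∣ orderOf g) ↔ ¬ p ∣ orderOf (g ^ e) := by
  rw [not_iff_not]
  constructor
  · intro h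
    have h1 := q_of_div hq he1 he2 g
    have hc : Commute g ((g ^ e)⁻¹) := ((Commute.refl g).pow_right e).inv_right
    rw [hc.mul_pow, inv_pow, mul_inv_eq_one] at h1
    have h2 : orderOf g ∣ q ^ (Nat.card G).factorization q * orderOf (g ^ e) := by
      rw [orderOf_dvd_iff_pow_eq_one, pow_mul, h1, ← pow_mul, mul_comm, pow_mul,
        pow_orderOf_eq_one, one_pow]
    rcases (Nat.Prime.dvd_mul hp).1 (h.trans h2) with h3 | h3
    · exact absurd ((Nat.prime_dvd_prime_iff_eq hp hq).1 (hp.dvd_of_dvd_pow h3)) hpq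
    · exact h3
  · intro h
    exact h.trans (orderOf_pow_dvd e)

theorem frob_preg (G : Type u) [Group G] [Finite G] {p : ℕ} (hp : p.Prime) :
    Nat.card G / p ^ (Nat.card G).factorization p ∣ Nat.card {g : G // ¬ p ∣ orderOf g} := by
  classical
  have : Fintype G := Fintype.ofFinite G
  have hn : Nat.card G ≠ 0 := Nat.card_pos.ne'
  rw [Nat.dvd_iff_prime_pow_dvd_dvd]
  intro q k hq hk
  by_cases hpq : p = q
  · subst hpq
    have hk0 : k = 0 := by
      by_contra hk0
      exact Nat.not_dvd_ordCompl hp hn ((dvd_pow_self p hk0).trans hk)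
    subst hk0
    simp
  · obtain ⟨e, he1, he2⟩ := exists_e (Nat.card G) hn hq
    have h1 := saturated_sum hq he1 he2 (fun g : G => ¬ p ∣ orderOf g)
      (fun g => preg_pow hp hq hpq he1 he2 g)
    have h2 : q ^ (Nat.card G).factorization q ∣ (univ.filter (fun g : G => ¬ p ∣ orderOf g)).card := by
      rw [h1]
      apply class_sum
      · intro g h hc
        exact Nq_centralizer_conj hc
      · rintro g h hc ⟨hg1, hg2⟩
        obtain ⟨c, rfl⟩ := isConj_iff.1 hc
        have hpow : (c * g * c⁻¹) ^ e = c * g ^ e * c⁻¹ := conj_pow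
        refine ⟨?_, by rw [hpow, hg2]⟩
        have hord : orderOf (c * g * c⁻¹) = orderOf g := by
          have := orderOf_injective (MulAut.conj c).toMonoidHom (MulAut.conj c).injective g
          simpa using this
        rwa [hord]
      · rintro v -
        exact frob_q hq _ _ rfl
    rw [Nat.card_eq_fintype_card, Fintype.card_subtype]
    refine dvd_trans (pow_dvd_pow q ?_) h2
    have h3 : q ^ k ∣ Nat.card G := hk.trans (Nat.ordCompl_dvd _ _)
    exact (Nat.Prime.pow_dvd_iff_le_factorization hq hn).1 h3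

lemma T_single_le (G : Type u) [Group G] [Finite G] {p : ℕ} (hp : p.Prime) :
    (T G {p} : ℚ) ≤ B (Nat.card G) {p} := by
  have hn : Nat.card G ≠ 0 := Nat.card_pos.ne'
  have h1 := card_preg G p
  have hpos : 0 < Nat.card {g : G // ¬ p ∣ orderOf g} := by
    have : Nonempty {g : G // ¬ p ∣ orderOf g} := ⟨⟨1, by
      rw [orderOf_one, Nat.dvd_one]; exact hp.ne_one⟩⟩
    exact Nat.card_pos
  have h2 := Nat.le_of_dvd hpos (frob_preg G hp)
  have h1' : (Nat.card {g : G // ¬ p ∣ orderOf g} : ℚ) + T G {p} = Nat.card G := by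
    exact_mod_cast h1
  have h3 : (Nat.card G : ℚ) * (1 / ((p ^ (Nat.card G).factorization p : ℕ) : ℚ)) =
      ((Nat.card G / p ^ (Nat.card G).factorization p : ℕ) : ℚ) := by
    rw [Nat.cast_div (Nat.ordProj_dvd _ _)]
    · ring
    · have := pow_ne_zero ((Nat.card G).factorization p) hp.ne_zero
      exact_mod_cast this
  rw [B_single, mul_sub, mul_one, h3]
  have h4 : ((Nat.card G / p ^ (Nat.card G).factorization p : ℕ) : ℚ) ≤
      Nat.card {g : G // ¬ p ∣ orderOf g} := by exact_mod_cast h2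
  linarith

lemma factor_nonneg {p : ℕ} (hp : p.Prime) (k : ℕ) : (0 : ℚ) ≤ 1 - 1 / ((p ^ k : ℕ) : ℚ) := by
  have h1 : 1 ≤ p ^ k := Nat.one_le_pow _ _ hp.pos
  have h2 : (1 : ℚ) ≤ ((p ^ k : ℕ) : ℚ) := by exact_mod_cast h1
  rw [sub_nonneg, div_le_one (by linarith)]
  exact h2

lemma B_nonneg (n : ℕ) (π : Finset ℕ) (hπ : ∀ p ∈ π, p.Prime) : 0 ≤ B n π := by
  unfold B
  refine mul_nonneg (Nat.cast_nonneg _) (Finset.prod_nonneg (fun p hp => factor_nonneg (hπ p hp) _))

/-- every element has prime power order -/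
def CP (G : Type u) [Group G] : Prop := ∀ g : G, IsPrimePow (orderOf g) ∨ g = 1

lemma T_CP {G : Type u} [Group G] (h : CP G) {π : Finset ℕ} (hπ : ∀ p ∈ π, p.Prime)
    (h2 : 1 < π.card) : T G π = 0 := by
  obtain ⟨p, hp, q, hq, hpq⟩ := Finset.one_lt_card.1 h2
  unfold T
  rw [Nat.card_eq_zero]
  left
  refine ⟨fun ⟨g, hg⟩ => ?_⟩
  rcases h g with h3 | h3
  · obtain ⟨r, k, hr, _, hrk⟩ := (isPrimePow_nat_iff _).1 h3
    have h4 := hg p hp
    have h5 := hg q hq
    rw [← hrk] at h4 h5
    have h6 := (Nat.prime_dvd_prime_iff_eq (hπ p hp) hr).1 ((hπ p hp).dvd_of_dvd_pow h4)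
    have h7 := (Nat.prime_dvd_prime_iff_eq (hπ q hq) hr).1 ((hπ q hq).dvd_of_dvd_pow h5)
    exact hpq (h6.trans h7.symm)
  · have h4 := hg p hp
    rw [h3, orderOf_one, Nat.dvd_one] at h4
    exact (hπ p hp).ne_one h4

lemma SC_of_CP {G : Type u} [Group G] [Finite G] (h : CP G) : SC G := by
  intro π hπ
  rcases Nat.lt_or_ge 1 π.card with h1 | h1
  · rw [T_CP h hπ h1, Nat.cast_zero]
    exact B_nonneg _ _ hπ
  · rcases Nat.le_one_iff_eq_zero_or_eq_one.1 h1 with h2 | h2
    · rw [Finset.card_eq_zero.1 h2]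
      exact (T_empty G).le
    · obtain ⟨p, rfl⟩ := Finset.card_eq_one.1 h2
      exact T_single_le G (hπ p (Finset.mem_singleton_self p))

lemma nilp_of_CP {G : Type u} [Group G] [Finite G] (h : CP G) (ht : Tight G) :
    Group.IsNilpotent G := by
  have hn : Nat.card G ≠ 0 := Nat.card_pos.ne'
  by_cases h1 : Nat.card G = 1
  · have : Subsingleton G := (Nat.card_eq_one_iff_unique.1 h1).1
    infer_instance
  · obtain ⟨p, hp, hpd⟩ := Nat.exists_prime_and_dvd h1
    have : Fact p.Prime := ⟨hp⟩
    have hall : ∀ q, q.Prime → q ∣ Nat.card G → q = p := by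
      intro q hq hqd
      by_contra hqp
      have hπ : ∀ r ∈ ({p, q} : Finset ℕ), r.Prime := by
        intro r hr
        rcases Finset.mem_insert.1 hr with rfl | hr
        · exact hp
        · rw [Finset.mem_singleton.1 hr]; exact hq
      have hcard : 1 < ({p, q} : Finset ℕ).card := by
        rw [Finset.card_pair (Ne.symm hqp)]; norm_num
      have h2 := ht {p, q} hπ
      rw [T_CP h hπ hcard] at h2
      have h3 : 0 < B (Nat.card G) {p, q} := by
        unfold B
        refine mul_pos (by exact_mod_cast Nat.pos_of_ne_zero hn) (Finset.prod_pos ?_)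
        intro r hr
        have hrd : r ∣ Nat.card G := by
          rcases Finset.mem_insert.1 hr with rfl | hr
          · exact hpd
          · rw [Finset.mem_singleton.1 hr]; exact hqd
        have hf : (Nat.card G).factorization r ≠ 0 :=
          ((hπ r hr).factorization_pos_of_dvd hn hrd).ne'
        have h4 : 1 < r ^ (Nat.card G).factorization r :=
          Nat.one_lt_pow hf (hπ r hr).one_lt
        have h5 : (1 : ℚ) < ((r ^ (Nat.card G).factorization r : ℕ) : ℚ) := by exact_mod_cast h4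
        rw [sub_pos, div_lt_one (by linarith)]
        exact h5
      rw [← h2, Nat.cast_zero] at h3
      exact lt_irrefl _ h3
    have hpp : IsPGroup p G := by
      rw [IsPGroup.iff_card]
      exact ⟨_, Nat.eq_prime_pow_of_unique_prime_dvd hn (fun {q} hq hqd => hall q hq hqd)⟩
    exact hpp.isNilpotent

end Pool.Agent.H947R2.OPhi
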