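import Pool.Agent.H947R2.OPhi6

set_option autoImplicit false
set_option linter.unusedSectionVars false

open Finset

namespace Pool.Agent.H947R2.OPhi

universe u v

/-- `x n p = 1 / n_p` -/
noncomputable def xp (n p : ℕ) : ℚ := 1 / ((p ^ n.factorization p : ℕ) : ℚ)

lemma B_eq_xp (n : ℕ) (π : Finset ℕ) : B n π = (n : ℚ) * ∏ p ∈ π, (1 - xp n p) := rfl

lemma xp_nonneg (n p : ℕ) : 0 ≤ xp n p := by unfold xp; positivity

lemma xp_le_one (n : ℕ) {p : ℕ} (hp : p.Prime) : 0 ≤ 1 - xp n p := factor_nonneg hp _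

lemma xp_mul {n m : ℕ} (hn : n ≠ 0) (hm : m ≠ 0) (p : ℕ) : xp (n * m) p = xp n p * xp m p := by
  unfold xp
  rw [Nat.factorization_mul hn hm, Finsupp.add_apply, pow_add]
  push_cast
  rw [one_div_mul_one_div]

section

variable (G : Type u) (H : Type v) [Group G] [Group H] [Finite G] [Finite H]

lemma T_prod [Fintype H] (π : Finset ℕ) (hπ : ∀ p ∈ π, p.Prime) :
    T (G × H) π = ∑ h : H, T G (π.filter (fun p => ¬ p ∣ orderOf h)) := by
  classical
  have : Fintype G := Fintype.ofFinite G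
  unfold T
  have h1 : Nat.card {g : G × H // ∀ p ∈ π, p ∣ orderOf g} =
      Nat.card (Σ h : H, {g : G // ∀ p ∈ π.filter (fun p => ¬ p ∣ orderOf h), p ∣ orderOf g}) := by
    refine Nat.card_congr
      { toFun := fun x => ⟨x.1.2, x.1.1, ?_⟩
        invFun := fun y => ⟨(y.2.1, y.1), ?_⟩
        left_inv := fun _ => rfl
        right_inv := fun _ => rfl }
    · intro p hp
      rw [Finset.mem_filter] at hp
      have h2 := x.2 p hp.1
      rw [Prod.orderOf, (hπ p hp.1).dvd_lcm] at h2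
      exact h2.resolve_right hp.2
    · intro p hp
      rw [Prod.orderOf, (hπ p hp).dvd_lcm]
      by_cases hd : p ∣ orderOf y.1
      · exact Or.inr hd
      · exact Or.inl (y.2.2 p (Finset.mem_filter.2 ⟨hp, hd⟩))
  rw [h1, Nat.card_sigma]

lemma sum_prod_eq [Fintype H] (π : Finset ℕ) (x : ℕ → ℚ) :
    ∑ h : H, ∏ p ∈ π.filter (fun p => ¬ p ∣ orderOf h), (1 - x p) =
      ∑ τ ∈ π.powerset, ((∏ p ∈ τ, x p) * ∏ p ∈ π \ τ, (1 - x p)) * (T H τ : ℚ) := by
  classical
  have h1 : ∀ h : H, ∏ p ∈ π.filter (fun p => ¬ p ∣ orderOf h), (1 - x p) =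
      ∑ τ ∈ π.powerset, (if ∀ p ∈ τ, p ∣ orderOf h then
        ((∏ p ∈ τ, x p) * ∏ p ∈ π \ τ, (1 - x p)) else 0) := by
    intro h
    have h2 : ∏ p ∈ π.filter (fun p => ¬ p ∣ orderOf h), (1 - x p) =
        ∏ p ∈ π, ((if p ∣ orderOf h then x p else 0) + (1 - x p)) := by
      rw [Finset.prod_filter]
      refine Finset.prod_congr rfl (fun p _ => ?_)
      by_cases hd : p ∣ orderOf h
      · simp [hd]
      · simp [hd]
    rw [h2, Finset.prod_add]
    refine Finset.sum_congr rfl (fun τ _ => ?_)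
    by_cases hall : ∀ p ∈ τ, p ∣ orderOf h
    · rw [if_pos hall]
      congr 1
      exact Finset.prod_congr rfl (fun p hp => if_pos (hall p hp))
    · rw [if_neg hall]
      push Not at hall
      obtain ⟨p, hp, hpd⟩ := hall
      rw [Finset.prod_eq_zero hp (if_neg hpd), zero_mul]
  simp_rw [h1]
  rw [Finset.sum_comm]
  refine Finset.sum_congr rfl (fun τ _ => ?_)
  rw [← Finset.sum_filter, Finset.sum_const, nsmul_eq_mul, mul_comm, T,
    Nat.card_eq_fintype_card, Fintype.card_subtype]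

lemma sum_B_le [Fintype H] (hH : SC H) (π : Finset ℕ) (hπ : ∀ p ∈ π, p.Prime) :
    ∑ h : H, B (Nat.card G) (π.filter (fun p => ¬ p ∣ orderOf h)) ≤ B (Nat.card (G × H)) π := by
  classical
  have hG0 : Nat.card G ≠ 0 := Nat.card_pos.ne'
  have hH0 : Nat.card H ≠ 0 := Nat.card_pos.ne'
  simp_rw [B_eq_xp]
  rw [← Finset.mul_sum, sum_prod_eq, Nat.card_prod, Nat.cast_mul, mul_assoc]
  refine mul_le_mul_of_nonneg_left ?_ (Nat.cast_nonneg _)
  have h1 : ∀ τ ∈ π.powerset,
      ((∏ p ∈ τ, xp (Nat.card G) p) * ∏ p ∈ π \ τ, (1 - xp (Nat.card G) p)) * (T H τ : ℚ) ≤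
      ((∏ p ∈ τ, xp (Nat.card G) p) * ∏ p ∈ π \ τ, (1 - xp (Nat.card G) p)) *
        B (Nat.card H) τ := by
    intro τ hτ
    have hτ' := Finset.mem_powerset.1 hτ
    refine mul_le_mul_of_nonneg_left (hH τ (fun p hp => hπ p (hτ' hp))) ?_
    refine mul_nonneg (Finset.prod_nonneg (fun p _ => xp_nonneg _ _))
      (Finset.prod_nonneg (fun p hp => xp_le_one _ (hπ p (Finset.mem_sdiff.1 hp).1)))
  refine (Finset.sum_le_sum h1).trans (le_of_eq ?_)
  simp_rw [B_eq_xp]
  have h2 : ∀ τ ∈ π.powerset,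
      ((∏ p ∈ τ, xp (Nat.card G) p) * ∏ p ∈ π \ τ, (1 - xp (Nat.card G) p)) *
        ((Nat.card H : ℚ) * ∏ p ∈ τ, (1 - xp (Nat.card H) p)) =
      (Nat.card H : ℚ) * ((∏ p ∈ τ, (xp (Nat.card G) p * (1 - xp (Nat.card H) p))) *
        ∏ p ∈ π \ τ, (1 - xp (Nat.card G) p)) := by
    intro τ _
    rw [Finset.prod_mul_distrib]
    ring
  rw [Finset.sum_congr rfl h2, ← Finset.mul_sum, ← Finset.prod_add]
  congr 1
  refine Finset.prod_congr rfl (fun p _ => ?_)
  rw [xp_mul hG0 hH0]
  ring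

theorem SC_prod (hG : SC G) (hH : SC H) : SC (G × H) := by
  classical
  intro π hπ
  have : Fintype H := Fintype.ofFinite H
  rw [T_prod G H π hπ, Nat.cast_sum]
  refine le_trans (Finset.sum_le_sum (fun h _ => ?_)) (sum_B_le G H hH π hπ)
  exact hG _ (fun p hp => hπ p (Finset.mem_filter.1 hp).1)

theorem Tight_left (hG : SC G) (hH : SC H) (ht : Tight (G × H)) : Tight G := by
  classical
  intro π hπ
  have : Fintype H := Fintype.ofFinite H
  have h1 := ht π hπ
  have h2 := sum_B_le G H hH π hπ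
  rw [← h1, T_prod G H π hπ, Nat.cast_sum] at h2
  have h3 : ∀ h ∈ (univ : Finset H), (T G (π.filter (fun p => ¬ p ∣ orderOf h)) : ℚ) ≤
      B (Nat.card G) (π.filter (fun p => ¬ p ∣ orderOf h)) := by
    intro h _
    exact hG _ (fun p hp => hπ p (Finset.mem_filter.1 hp).1)
  have h4 := (Finset.sum_eq_sum_iff_of_le h3).1 (le_antisymm (Finset.sum_le_sum h3) h2) 1
    (mem_univ _)
  have h5 : π.filter (fun p => ¬ p ∣ orderOf (1 : H)) = π := by
    rw [Finset.filter_eq_self]
    intro p hp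
    rw [orderOf_one, Nat.dvd_one]
    exact (hπ p hp).ne_one
  rwa [h5] at h4

theorem Tight_right (hG : SC G) (hH : SC H) (ht : Tight (G × H)) : Tight H :=
  Tight_left H G hH hG (Tight_congr MulEquiv.prodComm ht)

end

lemma SC_trivial (G : Type u) [Group G] [Finite G] [Subsingleton G] : SC G := by
  apply SC_of_CP
  intro g
  exact Or.inr (Subsingleton.elim _ _)

theorem pi_aux : ∀ (n : ℕ) (H : Fin n → Type u) [∀ i, Group (H i)] [∀ i, Finite (H i)],
    (∀ i, SC (H i)) → SC (∀ i, H i) ∧ (Tight (∀ i, H i) → ∀ i, Tight (H i)) := by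
  intro n
  induction n with
  | zero =>
    intro H _ _ _
    exact ⟨SC_trivial _, fun _ i => i.elim0⟩
  | succ n ih =>
    intro H _ _ hH
    obtain ⟨h1, h2⟩ := ih (fun i => H i.succ) (fun i => hH i.succ)
    let e : (∀ i, H i) ≃* H 0 × (∀ i : Fin n, H i.succ) :=
      { toFun := fun f => (f 0, fun i => f i.succ)
        invFun := fun x => Fin.cons x.1 x.2
        left_inv := fun f => by
          funext i
          refine Fin.cases ?_ (fun j => ?_) i
          · rfl
          · rfl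
        right_inv := fun x => rfl
        map_mul' := fun _ _ => rfl }
    refine ⟨SC_congr e.symm (SC_prod _ _ (hH 0) h1), fun ht => ?_⟩
    have ht' := Tight_congr e ht
    intro i
    refine Fin.cases ?_ (fun j => ?_) i
    · exact Tight_left _ _ (hH 0) h1 ht'
    · exact h2 (Tight_right _ _ (hH 0) h1 ht') j

/-- The class of groups treated : a solvable normal subgroup whose quotient is a direct product of
finitely many groups all of whose elements have prime power order. -/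
def Good (G : Type u) [Group G] : Prop :=
  ∃ (R : Subgroup G) (_ : R.Normal), Group.IsSolvable R ∧
    ∃ (n : ℕ) (H : Fin n → Type u) (_ : ∀ i, Group (H i)), (∀ i, CP (H i)) ∧
      Nonempty ((G ⧸ R) ≃* (∀ i, H i))

theorem good_SC {G : Type u} [Group G] [Finite G] (h : Good G) :
    SC G ∧ (Tight G → Group.IsNilpotent G) := by
  classical
  obtain ⟨R, hRn, hRs, n, H, hHg, hCP, ⟨e⟩⟩ := h
  have hfin : Finite (∀ i, H i) := Finite.of_equiv _ e.toEquiv
  have hfi : ∀ i, Finite (H i) := by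
    intro i
    have hs : Function.Surjective (fun f : (∀ i, H i) => f i) :=
      fun x => ⟨Function.update 1 i x, by simp⟩
    exact Finite.of_surjective _ hs
  obtain ⟨h1, h2⟩ := pi_aux n H (fun i => SC_of_CP (hCP i))
  have hSC : SC (G ⧸ R) := SC_congr e.symm h1
  refine ⟨SC_of_solvable_normal G R hSC, fun ht => ?_⟩
  refine nilp_aux _ G R rfl hSC ?_ ht
  intro ht'
  have h3 := h2 (Tight_congr e ht')
  have h4 : ∀ i, Group.IsNilpotent (H i) := fun i => nilp_of_CP (hCP i) (h3 i)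
  have h5 : Group.IsNilpotent (∀ i, H i) := Group.isNilpotent_pi
  exact (Group.isNilpotent_congr e).2 h5

end Pool.Agent.H947R2.OPhi
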