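import Pool.Agent.H947R2.WRTors

/-! # The algebra of an Artin-Schreier torsor -/

namespace Pool.Agent.H947R2.WR

open MvPolynomial

section Field

variable {E : Type} [Field E] [CharP E 2] (f : Fin 2 → E)

/-- `c₀ + c₁ u₀ + c₂ u₁ + c₃ u₀ u₁` -/
noncomputable def comb (c : Fin 4 → E) : AS f :=
  algebraMap E (AS f) (c 0) + algebraMap E (AS f) (c 1) * gen f 0 +
    algebraMap E (AS f) (c 2) * gen f 1 + algebraMap E (AS f) (c 3) * (gen f 0 * gen f 1)

omit [CharP E 2] in
theorem algebraMap_inj : Function.Injective (algebraMap E (AS f)) := by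
  have hr : ∀ l, ∃ α : AlgebraicClosure E, α ^ 2 - α = algebraMap E (AlgebraicClosure E) (f l) := by
    intro l
    obtain ⟨α, h⟩ := IsAlgClosed.exists_root (Polynomial.X ^ 2 - Polynomial.X -
      Polynomial.C (algebraMap E (AlgebraicClosure E) (f l)) : Polynomial (AlgebraicClosure E)) (by
        have : (Polynomial.X ^ 2 - Polynomial.X -
            Polynomial.C (algebraMap E (AlgebraicClosure E) (f l)) :
            Polynomial (AlgebraicClosure E)).degree = 2 := by
          compute_degree!
        rw [this]; decide)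
    refine ⟨α, ?_⟩
    simp only [Polynomial.IsRoot, Polynomial.eval_sub, Polynomial.eval_pow, Polynomial.eval_X,
      Polynomial.eval_C] at h
    linear_combination h
  choose α hα using hr
  let φ : AS f →+* AlgebraicClosure E :=
    Ideal.Quotient.lift (asIdeal f) (eval₂Hom (algebraMap E (AlgebraicClosure E)) α) (by
      have hle : asIdeal f ≤ RingHom.ker (eval₂Hom (algebraMap E (AlgebraicClosure E)) α) := by
        refine Ideal.span_le.2 ?_
        rintro _ ⟨l, rfl⟩
        simp only [SetLike.mem_coe, RingHom.mem_ker, map_sub, map_pow, coe_eval₂Hom, eval₂_X,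
          eval₂_C]
        rw [hα l, sub_self]
      exact fun P hP => hle hP)
  have hφ : ∀ x, φ (algebraMap E (AS f) x) = algebraMap E (AlgebraicClosure E) x := by
    intro x
    show φ (Ideal.Quotient.mk (asIdeal f) (C x)) = _
    rw [Ideal.Quotient.lift_mk, coe_eval₂Hom, eval₂_C]
  intro x y hxy
  have h := congrArg φ hxy
  rw [hφ, hφ] at h
  exact (algebraMap E (AlgebraicClosure E)).injective h

instance : Nontrivial (AS f) := (algebraMap_inj f).nontrivial

omit [CharP E 2] in
theorem comb_surj (x : AS f) : ∃ c, x = comb f c := by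
  obtain ⟨P, rfl⟩ := Ideal.Quotient.mk_surjective x
  induction P using MvPolynomial.induction_on with
  | C a =>
    refine ⟨![a, 0, 0, 0], ?_⟩
    show algebraMap E (AS f) a = _
    simp [comb]
  | add p q hp hq =>
    obtain ⟨c, hc⟩ := hp
    obtain ⟨d, hd⟩ := hq
    refine ⟨c + d, ?_⟩
    rw [map_add, hc, hd]
    simp only [comb, Pi.add_apply, map_add]
    ring
  | mul_X p i hp =>
    obtain ⟨c, hc⟩ := hp
    have h0 := gen_pow f 0
    have h1 := gen_pow f 1
    rw [map_mul, hc]
    fin_cases i
    · refine ⟨![c 1 * f 0, c 0 + c 1, c 3 * f 0, c 2 + c 3], ?_⟩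
      show comb f c * gen f 0 = _
      simp only [comb, Matrix.cons_val_zero, Matrix.cons_val_one, Matrix.cons_val, map_mul,
        map_add, ← h0]
      ring
    · refine ⟨![c 2 * f 1, c 3 * f 1, c 0 + c 2, c 1 + c 3], ?_⟩
      show comb f c * gen f 1 = _
      simp only [comb, Matrix.cons_val_zero, Matrix.cons_val_one, Matrix.cons_val, map_mul,
        map_add, ← h1]
      ring

theorem sigma_algebraMap (g : Fin 2 → ZMod 2) (x : E) :
    sigma f g (algebraMap E (AS f) x) = algebraMap E (AS f) x := by
  show sigma f g (Ideal.Quotient.mk (asIdeal f) (C x)) = _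
  rw [sigma, Ideal.Quotient.lift_mk, sigmaPoly, coe_eval₂Hom, eval₂_C]

theorem sigma_gen (g : Fin 2 → ZMod 2) (l : Fin 2) :
    sigma f g (gen f l) = gen f l + ((g l).val : AS f) := by
  show sigma f g (Ideal.Quotient.mk (asIdeal f) (X l)) = _
  rw [sigma, Ideal.Quotient.lift_mk, sigmaPoly, coe_eval₂Hom, eval₂_X]

/-- `(σ₀ - 1)` -/
theorem sigma_comb_zero (c : Fin 4 → E) :
    sigma f (Pi.single 0 1) (comb f c) - comb f c =
      algebraMap E (AS f) (c 1) + algebraMap E (AS f) (c 3) * gen f 1 := by
  simp only [comb, map_add, map_mul, sigma_algebraMap, sigma_gen]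
  have h0 : (((Pi.single 0 1 : Fin 2 → ZMod 2) 0).val : AS f) = 1 := by
    simp [ZMod.val_one]
  have h1 : (((Pi.single 0 1 : Fin 2 → ZMod 2) 1).val : AS f) = 0 := by
    simp
  rw [h0, h1]
  ring

/-- `(σ₁ - 1)` -/
theorem sigma_comb_one (c : Fin 4 → E) :
    sigma f (Pi.single 1 1) (comb f c) - comb f c =
      algebraMap E (AS f) (c 2) + algebraMap E (AS f) (c 3) * gen f 0 := by
  simp only [comb, map_add, map_mul, sigma_algebraMap, sigma_gen]
  have h0 : (((Pi.single 1 1 : Fin 2 → ZMod 2) 0).val : AS f) = 0 := by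
    simp
  have h1 : (((Pi.single 1 1 : Fin 2 → ZMod 2) 1).val : AS f) = 1 := by
    simp [ZMod.val_one]
  rw [h0, h1]
  ring

theorem comb_zero (c : Fin 4 → E) (h : comb f c = 0) : c = 0 := by
  have e0 := sigma_comb_zero f c
  rw [h, map_zero, sub_zero] at e0
  have e1 := sigma_comb_one f c
  rw [h, map_zero, sub_zero] at e1
  have hc3 : algebraMap E (AS f) (c 3) = 0 := by
    have e2 : sigma f (Pi.single 1 1) (algebraMap E (AS f) (c 1) +
        algebraMap E (AS f) (c 3) * gen f 1) = 0 := by
      rw [← e0, map_zero]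
    rw [map_add, map_mul, sigma_algebraMap, sigma_algebraMap, sigma_gen] at e2
    have h1 : (((Pi.single 1 1 : Fin 2 → ZMod 2) 1).val : AS f) = 1 := by
      simp [ZMod.val_one]
    rw [h1] at e2
    linear_combination e2 + e0
  have c3 : c 3 = 0 := algebraMap_inj f (by rw [hc3, map_zero])
  rw [hc3] at e0 e1
  have c1 : c 1 = 0 := algebraMap_inj f (by rw [map_zero]; linear_combination -e0)
  have c2 : c 2 = 0 := algebraMap_inj f (by rw [map_zero]; linear_combination -e1)
  have c0 : c 0 = 0 := by
    refine algebraMap_inj f ?_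
    rw [map_zero, ← h, comb, c1, c2, c3]
    simp
  funext i
  fin_cases i
  · exact c0
  · exact c1
  · exact c2
  · exact c3

theorem comb_sub (c d : Fin 4 → E) : comb f c - comb f d = comb f (c - d) := by
  simp only [comb, Pi.sub_apply, map_sub]
  ring

theorem comb_inj (c d : Fin 4 → E) (h : comb f c = comb f d) : c = d := by
  have := comb_zero f (c - d) (by rw [← comb_sub, h, sub_self])
  exact sub_eq_zero.1 this

/-- The basis `1, u₀, u₁, u₀ u₁`. -/
noncomputable def combEquiv : (Fin 4 → E) ≃ₗ[E] AS f :=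
  LinearEquiv.ofBijective
    { toFun := comb f
      map_add' := fun c d => by simp only [comb, Pi.add_apply, map_add]; ring
      map_smul' := fun a c => by
        have h : a • comb f c = algebraMap E (AS f) a * comb f c := by
          rw [Algebra.smul_def (R := E) (A := AS f) a (comb f c)]
        rw [RingHom.id_apply, h]
        simp only [comb, Pi.smul_apply, smul_eq_mul, map_mul]
        ring }
    ⟨fun c d h => comb_inj f c d h, fun x => by
      obtain ⟨c, hc⟩ := comb_surj f x
      exact ⟨c, hc.symm⟩⟩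

theorem combEquiv_apply (c : Fin 4 → E) : combEquiv f c = comb f c := rfl

end Field

end Pool.Agent.H947R2.WR
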