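import Mathlib

/-!
# Stringy motives of the wild quotient singularity `Sym²(A³) × Sym²(A³)` in characteristic two

`K` is an algebraic closure of `𝔽₂` and `G = (ℤ/2)²` acts on `K^{12}`.

* `Gen`, `Rel`, `relSub`, `Fil`: the additive group of the Grothendieck ring of `K`-varieties
  with `L` inverted and `L^{1/4}` adjoined, by generators `{S} L^{b/4}` and relations, with its
  dimension filtration.
* `shift`: multiplication by the powers of `L^{1/4}`.
* `rep`: the linear action of `G` on `K^{12}`.
* `v4`: `|G| = 4` times the function `v` of Yasuda on the space of `G`-torsors over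
  `Spec K((t))`.
-/

namespace Pool.Agent.H947R2.WR

open MvPolynomial

/-- The ground field: an algebraic closure of the field with two elements. -/
abbrev K : Type := AlgebraicClosure (ZMod 2)

/-- The Zariski-constructible subsets of affine space `K^n`: the Boolean algebra generated by the
zero sets of polynomials. -/
inductive Constr {n : ℕ} : Set (Fin n → K) → Prop
  | zero (P : MvPolynomial (Fin n) K) : Constr {x | eval x P = 0}
  | compl {S : Set (Fin n → K)} : Constr S → Constr Sᶜ
  | inter {S T : Set (Fin n → K)} : Constr S → Constr T → Constr (S ∩ T)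

/-- `f` is regular on `S`: its coordinates are quotients of polynomials whose denominators have no
zero on `S`. -/
def RegularOn {n m : ℕ} (S : Set (Fin n → K)) (f : (Fin n → K) → (Fin m → K)) : Prop :=
  ∀ i, ∃ P Q : MvPolynomial (Fin n) K, ∀ x ∈ S, eval x Q ≠ 0 ∧ f x i = eval x P / eval x Q

/-- `S` and `T` are isomorphic: there are mutually inverse regular maps between them. -/
def Isom {n m : ℕ} (S : Set (Fin n → K)) (T : Set (Fin m → K)) : Prop :=
  ∃ (f : (Fin n → K) → (Fin m → K)) (g : (Fin m → K) → (Fin n → K)),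
    RegularOn S f ∧ RegularOn T g ∧ Set.MapsTo f S T ∧ Set.MapsTo g T S ∧
      (∀ x ∈ S, g (f x) = x) ∧ ∀ y ∈ T, f (g y) = y

/-- The product `S × K` in `K^{n+1}`. -/
def cyl {n : ℕ} (S : Set (Fin n → K)) : Set (Fin (n + 1) → K) :=
  {x | (fun i : Fin n => x i.castSucc) ∈ S}

/-- A generator: the symbol `{S} L^{b/4}` for a constructible set `S` in some `K^n` and an
integer `b`. -/
structure Gen where
  n : ℕ
  S : Set (Fin n → K)
  constr : Constr S
  b : ℤ

/-- The relations: additivity for disjoint unions, invariance under isomorphism, and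
`{S × K} L^{b/4} = {S} L^{b/4 + 1}`. -/
inductive Rel : FreeAbelianGroup Gen → Prop
  | scissors {n : ℕ} {S T : Set (Fin n → K)} (hS : Constr S) (hT : Constr T)
      (hU : Constr (S ∪ T)) (h : Disjoint S T) (b : ℤ) :
      Rel (FreeAbelianGroup.of ⟨n, S ∪ T, hU, b⟩ -
        (FreeAbelianGroup.of ⟨n, S, hS, b⟩ + FreeAbelianGroup.of ⟨n, T, hT, b⟩))
  | iso {n m : ℕ} {S : Set (Fin n → K)} {T : Set (Fin m → K)} (hS : Constr S) (hT : Constr T)
      (h : Isom S T) (b : ℤ) :
      Rel (FreeAbelianGroup.of ⟨n, S, hS, b⟩ - FreeAbelianGroup.of ⟨m, T, hT, b⟩)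
  | line {n : ℕ} {S : Set (Fin n → K)} (hS : Constr S) (hC : Constr (cyl S)) (b : ℤ) :
      Rel (FreeAbelianGroup.of ⟨n + 1, cyl S, hC, b⟩ - FreeAbelianGroup.of ⟨n, S, hS, b + 4⟩)

/-- The subgroup generated by the relations. The quotient of `FreeAbelianGroup Gen` by it is the
additive group of `K₀(Var_K)[L⁻¹]` with `L^{1/4}` adjoined. -/
def relSub : AddSubgroup (FreeAbelianGroup Gen) := AddSubgroup.closure {x | Rel x}

/-- The relations `Rel` together with invariance under bijective regular maps (for instance under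
universal homeomorphisms). The quotient by these relations is a quotient of the Grothendieck ring,
so that an expression of a given form exists there if it exists in the Grothendieck ring. -/
inductive RelUH : FreeAbelianGroup Gen → Prop
  | base {x : FreeAbelianGroup Gen} (h : Rel x) : RelUH x
  | bij {n m : ℕ} {S : Set (Fin n → K)} {T : Set (Fin m → K)} (hS : Constr S) (hT : Constr T)
      (f : (Fin n → K) → (Fin m → K)) (hf : RegularOn S f) (h : Set.BijOn f S T) (b : ℤ) :
      RelUH (FreeAbelianGroup.of ⟨n, S, hS, b⟩ - FreeAbelianGroup.of ⟨m, T, hT, b⟩)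

/-- The subgroup generated by the relations `RelUH`. -/
def relSubUH : AddSubgroup (FreeAbelianGroup Gen) := AddSubgroup.closure {x | RelUH x}

/-- The step `m` of the dimension filtration: the subgroup generated by the symbols
`{S} L^{b/4}` with `dim S + b/4 ≤ -m`, where `dim S` is the Krull dimension of the coordinate
ring of the Zariski closure of `S`. -/
def Fil (m : ℤ) : AddSubgroup (FreeAbelianGroup Gen) :=
  AddSubgroup.closure {x | ∃ (g : Gen) (D : ℕ),
    ringKrullDim (MvPolynomial (Fin g.n) K ⧸ vanishingIdeal K g.S) ≤ (D : WithBot ℕ∞) ∧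
      4 * (D : ℤ) + g.b ≤ -(4 * m) ∧ x = FreeAbelianGroup.of g}

/-- Multiplication by `L^{j/4}`. -/
noncomputable def shift (j : ℤ) : FreeAbelianGroup Gen →+ FreeAbelianGroup Gen :=
  FreeAbelianGroup.lift fun g => FreeAbelianGroup.of ⟨g.n, g.S, g.constr, g.b + j⟩

/-- The sequence `s` converges in the completion, for the dimension filtration `Fil`, of the
quotient by `R` (it is a Cauchy sequence). For `R = relSub` this is the completed Grothendieck ring
of `K`-varieties with `L^{1/4}` adjoined. -/
def ConvergesMod (R : AddSubgroup (FreeAbelianGroup Gen)) (s : ℕ → FreeAbelianGroup Gen) : Prop :=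
  ∀ m : ℤ, ∃ n₀, ∀ n ≥ n₀, ∀ n' ≥ n₀, s n - s n' ∈ R ⊔ Fil m

/-- The limit of `s` in the completion of the quotient by `R` is a finite sum
`∑_{i < N} z_i / (L^{a_i / 4} - 1)`, with positive integers `a_i` and with arbitrary elements
`z_i` of the (uncompleted) ring; here `1 / (L^{a/4} - 1) = ∑_{r ≥ 1} L^{-ra/4}`. -/
def FiniteSumMod (R : AddSubgroup (FreeAbelianGroup Gen)) (s : ℕ → FreeAbelianGroup Gen) : Prop :=
  ∃ (N : ℕ) (z : Fin N → FreeAbelianGroup Gen) (a : Fin N → ℕ), (∀ i, 0 < a i) ∧
    ∀ m : ℤ, ∃ n₀, ∀ n ≥ n₀,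
      s n - ∑ i, ∑ r ∈ Finset.range n, shift (-(((r + 1) * a i : ℕ) : ℤ)) (z i) ∈ R ⊔ Fil m

/-! ### The representation -/

/-- The coordinates of `K^{12}`: `(l, e, r)` is the coordinate `r` of the factor `e` of the pair
`l` of copies of `K³`, `l = 0, 1`, `e ∈ ℤ/2`, `r = 0, 1, 2`. -/
abbrev Idx : Type := Fin 2 × ZMod 2 × Fin 3

/-- The permutation of the coordinates defined by `g ∈ G = (ℤ/2)²`: the two copies of `K³` of the
pair `l` are exchanged if `g_l ≠ 0`. -/
def swp (g : Fin 2 → ZMod 2) (i : Idx) : Idx := (i.1, i.2.1 + g i.1, i.2.2)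

/-- The matrix of `g ∈ G = (ℤ/2)²` on `K^{12} = (K³ × K³) × (K³ × K³)`: the first factor `ℤ/2`
exchanges the first two copies of `K³`, the second factor `ℤ/2` exchanges the last two. The
quotient `K^{12} / G` is `Sym²(A³) × Sym²(A³)`. -/
noncomputable def rep (g : Fin 2 → ZMod 2) : Matrix Idx Idx K :=
  fun i k => if k = swp g i then 1 else 0

/-! ### Tuning modules -/

section General

variable {G ι A L : Type} [Fintype ι] [CommRing A] [CommRing L] [Algebra A L]

/-- Let `A = K[[t]]`, let `L` be the algebra of a `G`-torsor over `Spec K((t))`, with the action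
`σ` of `G`, and let `𝓞 L` be the integral closure of `A` in `L`. For a representation `R` of `G`
this is the set of the `G`-equivariant maps from `Spec 𝓞 L` to the representation space, that is of
the `w ∈ (𝓞 L)^ι` with `σ_g (w) = R(g) w` for all `g` (the tuning module). -/
def tuning (σ : G → L → L) (R : G → Matrix ι ι A) : Set (ι → integralClosure A L) :=
  {w | ∀ g i, σ g (w i) = ∑ k, algebraMap A L (R g i k) * w k}

omit [Fintype ι] in
/-- The length over `A` of `O^ι` modulo the `O`-submodule generated by `T`. -/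
noncomputable def spanColength (A : Type) {O : Type} [CommRing A] [CommRing O] [Algebra A O]
    (T : Set (ι → O)) : ℕ∞ :=
  Module.length A ((ι → O) ⧸ Submodule.span O T)

/-- The length over `A` of `(𝓞 L)^ι` modulo the `𝓞 L`-submodule generated by the tuning
module. -/
noncomputable def colength (σ : G → L → L) (R : G → Matrix ι ι A) : ℕ∞ :=
  spanColength A (tuning σ R)

end General

/-! ### Artin-Schreier torsors -/

section ArtinSchreier

variable {E : Type} [CommRing E]

/-- The ideal of the relations `A_l² - A_l = f_l`, `l = 0, 1`. -/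
noncomputable def asIdeal (f : Fin 2 → E) : Ideal (MvPolynomial (Fin 2) E) :=
  Ideal.span (Set.range fun l : Fin 2 => X l ^ 2 - X l - C (f l))

/-- The algebra of the `(ℤ/2)²`-torsor over `Spec E` with the class of `f` (Artin-Schreier theory):
generated by `A₀, A₁` with the relations `A_l² - A_l = f_l`. -/
abbrev AS (f : Fin 2 → E) : Type := MvPolynomial (Fin 2) E ⧸ asIdeal f

/-- The generators `A_l`. -/
noncomputable def gen (f : Fin 2 → E) (l : Fin 2) : AS f := Ideal.Quotient.mk (asIdeal f) (X l)

theorem gen_pow (f : Fin 2 → E) (l : Fin 2) :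
    gen f l ^ 2 - gen f l = algebraMap E (AS f) (f l) := by
  have h : Ideal.Quotient.mk (asIdeal f) (X l ^ 2 - X l - C (f l)) = 0 :=
    Ideal.Quotient.eq_zero_iff_mem.2 (Ideal.subset_span ⟨l, rfl⟩)
  rw [map_sub, map_sub, map_pow, sub_eq_zero] at h
  exact h

/-- The homomorphism from the polynomial ring with `A_l ↦ A_l + g_l`. -/
noncomputable def sigmaPoly (f : Fin 2 → E) (g : Fin 2 → ZMod 2) :
    MvPolynomial (Fin 2) E →+* AS f :=
  eval₂Hom (algebraMap E (AS f)) fun l => gen f l + ((g l).val : AS f)

theorem sigmaPoly_eq_zero [CharP E 2] (f : Fin 2 → E) (g : Fin 2 → ZMod 2) :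
    ∀ P ∈ asIdeal f, sigmaPoly f g P = 0 := by
  intro P hP
  have h2 : (2 : AS f) = 0 := by
    have h1 : (2 : E) = 0 := by
      have := CharP.cast_eq_zero E 2
      exact_mod_cast this
    calc (2 : AS f) = algebraMap E (AS f) 2 := (map_ofNat _ 2).symm
      _ = 0 := by rw [h1, map_zero]
  have hle : asIdeal f ≤ RingHom.ker (sigmaPoly f g) := by
    refine Ideal.span_le.2 ?_
    rintro _ ⟨l, rfl⟩
    have hv : ((g l).val : AS f) ^ 2 = ((g l).val : AS f) := by
      have hlt : (g l).val < 2 := ZMod.val_lt (g l)
      interval_cases h : (g l).val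
      · simp
      · simp
    have hg := gen_pow f l
    simp only [SetLike.mem_coe, RingHom.mem_ker, sigmaPoly, map_sub, map_pow, coe_eval₂Hom,
      eval₂_X, eval₂_C]
    rw [← hg]
    linear_combination hv + (gen f l * ((g l).val : AS f)) * h2
  exact hle hP

/-- The action of `g ∈ G = (ℤ/2)²` on the torsor: `A_l ↦ A_l + g_l`. -/
noncomputable def sigma [CharP E 2] (f : Fin 2 → E) (g : Fin 2 → ZMod 2) : AS f →+* AS f :=
  Ideal.Quotient.lift (asIdeal f) (sigmaPoly f g) (sigmaPoly_eq_zero f g)

end ArtinSchreier

/-! ### The function `v` -/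

instance charLS : CharP (LaurentSeries K) 2 :=
  charP_of_injective_algebraMap (algebraMap K (LaurentSeries K)).injective 2

/-- The Laurent polynomials `f_l = ∑_i F(2i + l) t^{-(2i+1)}`, `l = 0, 1`, of the torsor `F`.
`G`-torsors over `Spec K((t))` are classified by `H¹ = (K((t)) / ℘ K((t)))²`, `℘ f = f² - f`; each
class has exactly one representative of this form. -/
noncomputable def fser (F : ℕ →₀ K) (l : Fin 2) : LaurentSeries K :=
  ∑ i ∈ Finset.range (F.support.sup id + 1),
    HahnSeries.single (-(2 * (i : ℤ) + 1)) (F (2 * i + l))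

/-- `|G| = 4` times the value at the torsor `F` of Yasuda's function `v` of the representation of
`G = (ℤ/2)²` on `K^{12}`: the length of `(𝓞 L)^{12}` modulo the submodule generated by the tuning
module, where `L` is the algebra of the torsor. -/
noncomputable def v4 (F : ℕ →₀ K) : ℕ∞ :=
  colength (A := PowerSeries K) (L := AS (fser F)) (fun g => sigma (fser F) g)
    fun g => (rep g).map PowerSeries.C

/-- The torsor with the given first `n` coordinates, all others being zero. -/
noncomputable def ofFin {n : ℕ} (x : Fin n → K) : ℕ →₀ K :=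
  Finsupp.onFinset (Finset.range n) (fun i => if h : i < n then x ⟨i, h⟩ else 0) (by
    intro i hi
    by_contra h
    exact hi (by simp only [Finset.mem_range] at h; rw [dif_neg h]))

/-- The level set `v = b / 4`, as a subset of the space `K^{⌊b / 6⌋}` of the torsors with only the
first `⌊b / 6⌋` coordinates nonzero. -/
def levelY (b : ℕ) : Set (Fin (b / 6) → K) := {x | v4 (ofFin x) = b}

end Pool.Agent.H947R2.WR
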