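import Pool.Agent.H947R2.WRKey

/-! # Integral elements of the algebra of a torsor -/

namespace Pool.Agent.H947R2.WR

open MvPolynomial

local instance : IsScalarTower (PowerSeries K) (LaurentSeries K) (LaurentSeries K) :=
  IsScalarTower.right

variable (F : ℕ →₀ K)

/-- the algebra of the torsor `F` -/
abbrev LL : Type := AS (fser F)

/-- the embedding of `K((t))` -/
noncomputable abbrev em (z : LaurentSeries K) : LL F := algebraMap (LaurentSeries K) (LL F) z

/-- the generators -/
noncomputable abbrev uu (l : Fin 2) : LL F := gen (fser F) l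

theorem tower (a : PowerSeries K) :
    algebraMap (PowerSeries K) (LL F) a = em F (algebraMap (PowerSeries K) (LaurentSeries K) a) :=
  rfl

instance : IsScalarTower (PowerSeries K) (LaurentSeries K) (LL F) :=
  IsScalarTower.of_algebraMap_eq (fun a => tower F a)

theorem em_inj : Function.Injective (em F) := algebraMap_inj (fser F)

theorem two_zero : (2 : LL F) = 0 := by
  have h1 : (2 : LaurentSeries K) = 0 := by
    have := CharP.cast_eq_zero (LaurentSeries K) 2
    exact_mod_cast this
  calc (2 : LL F) = algebraMap (LaurentSeries K) (LL F) 2 := (map_ofNat _ 2).symm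
    _ = 0 := by rw [h1, map_zero]

theorem uu_sq (l : Fin 2) : uu F l ^ 2 = uu F l + em F (fser F l) := by
  have := gen_pow (fser F) l
  linear_combination this

theorem int_E (z : LaurentSeries K) :
    IsIntegral (PowerSeries K) (em F z) ↔ (0 : WithTop ℤ) ≤ z.orderTop := by
  rw [isIntegral_algebraMap_iff (em_inj F), IsIntegrallyClosed.isIntegral_iff, mem_A_iff]

theorem int_sigma (g : Fin 2 → ZMod 2) (w : LL F) (hw : IsIntegral (PowerSeries K) w) :
    IsIntegral (PowerSeries K) (sigma (fser F) g w) := by
  refine hw.map_of_comp_eq (RingHom.id (PowerSeries K)) (sigma (fser F) g) ?_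
  ext a
  simp only [RingHom.comp_apply, RingHom.id_apply]
  rw [tower, sigma_algebraMap]

theorem int_root (v : LL F) (x r : LaurentSeries K) (hx : (0 : WithTop ℤ) ≤ x.orderTop)
    (hr : (0 : WithTop ℤ) ≤ r.orderTop) (h : v ^ 2 = em F x * v + em F r) :
    IsIntegral (PowerSeries K) v := by
  obtain ⟨x', rfl⟩ := (mem_A_iff x).2 hx
  obtain ⟨r', rfl⟩ := (mem_A_iff r).2 hr
  refine ⟨Polynomial.X ^ 2 - Polynomial.C x' * Polynomial.X - Polynomial.C r', ?_, ?_⟩
  · monicity!
  · simp only [Polynomial.eval₂_sub, Polynomial.eval₂_pow, Polynomial.eval₂_X,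
      Polynomial.eval₂_mul, Polynomial.eval₂_C]
    rw [tower, tower, h]
    ring

theorem int_mul_uu (l : Fin 2) (x : LaurentSeries K)
    (h : (((lev F l : ℕ) : ℤ) : WithTop ℤ) ≤ x.orderTop) :
    IsIntegral (PowerSeries K) (em F x * uu F l) := by
  have hx : (0 : WithTop ℤ) ≤ x.orderTop :=
    le_trans (by exact_mod_cast Nat.zero_le _) h
  refine int_root F _ x (x ^ 2 * fser F l) hx (key_conv F l x h) ?_
  rw [mul_pow, uu_sq]
  simp only [em, map_mul, map_pow]
  ring

theorem int_lin (l : Fin 2) (x c : LaurentSeries K) (hx : (0 : WithTop ℤ) ≤ x.orderTop) :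
    IsIntegral (PowerSeries K) (em F c + em F x * uu F l) ↔
      (0 : WithTop ℤ) ≤ c.orderTop ∧ (((lev F l : ℕ) : ℤ) : WithTop ℤ) ≤ x.orderTop := by
  constructor
  · intro h
    have h1 := h.mul (int_sigma F (Pi.single l 1) _ h)
    have hv : ((((Pi.single l 1 : Fin 2 → ZMod 2) l).val : ℕ) : LL F) = 1 := by
      rw [Pi.single_eq_same, ZMod.val_one, Nat.cast_one]
    have h2 : (em F c + em F x * uu F l) *
        sigma (fser F) (Pi.single l 1) (em F c + em F x * uu F l) =
        em F (c ^ 2 + c * x + x ^ 2 * fser F l) := by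
      rw [map_add, map_mul, sigma_algebraMap, sigma_algebraMap, sigma_gen, hv]
      simp only [em, map_mul, map_pow, map_add]
      have h3 := uu_sq F l
      have h4 := two_zero F
      simp only [em, uu] at h3 h4 ⊢
      linear_combination ((algebraMap (LaurentSeries K) (LL F) x) ^ 2) * h3 +
        ((algebraMap (LaurentSeries K) (LL F) c) * (algebraMap (LaurentSeries K) (LL F) x) *
          gen (fser F) l + (algebraMap (LaurentSeries K) (LL F) x) ^ 2 * gen (fser F) l) * h4
    rw [h2, int_E] at h1
    exact key F l x c hx h1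
  · rintro ⟨h1, h2⟩
    exact ((int_E F c).2 h1).add (int_mul_uu F l x h2)

end Pool.Agent.H947R2.WR
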