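import Pool.Agent.H947R2.WRAlg

/-! # Orders of Laurent series -/

namespace Pool.Agent.H947R2.WR

open MvPolynomial

theorem mem_A_iff (z : LaurentSeries K) :
    (∃ a : PowerSeries K, algebraMap (PowerSeries K) (LaurentSeries K) a = z) ↔
      (0 : WithTop ℤ) ≤ z.orderTop := by
  constructor
  · rintro ⟨a, rfl⟩
    by_contra h
    rw [not_le, HahnSeries.orderTop_lt_iff_exists] at h
    obtain ⟨i, hi, hne⟩ := h
    apply hne
    have : i < 0 := by exact_mod_cast hi
    rw [LaurentSeries.coe_algebraMap, PowerSeries.coeff_coe, if_pos this]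
  · intro h
    by_cases hz : z = 0
    · exact ⟨0, by rw [hz, map_zero]⟩
    have h0 : 0 ≤ z.order := by
      rw [← HahnSeries.order_eq_orderTop_of_ne_zero hz] at h
      exact_mod_cast h
    obtain ⟨n, hn⟩ := Int.eq_ofNat_of_zero_le h0
    refine ⟨PowerSeries.X ^ n * z.powerSeriesPart, ?_⟩
    have h1 := LaurentSeries.single_order_mul_powerSeriesPart z
    rw [LaurentSeries.coe_algebraMap, map_mul, map_pow, HahnSeries.ofPowerSeries_X,
      HahnSeries.single_pow]
    rw [hn] at h1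
    simpa using h1

/-- The number of the last nonzero coefficient of `fser F l`, plus one. -/
noncomputable def lev (F : ℕ →₀ K) (l : Fin 2) : ℕ :=
  sSup {n | ∃ i, n = i + 1 ∧ F (2 * i + l) ≠ 0}

theorem lev_bdd (F : ℕ →₀ K) (l : Fin 2) : BddAbove {n | ∃ i, n = i + 1 ∧ F (2 * i + l) ≠ 0} := by
  refine ⟨F.support.sup id + 1, ?_⟩
  rintro n ⟨i, rfl, hi⟩
  have := Finset.le_sup (f := id) (Finsupp.mem_support_iff.2 hi)
  simp only [id] at this
  have e0 : F.support.sup id = F.support.sup (fun x => x) := rfl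
  omega

theorem lev_le_iff (F : ℕ →₀ K) (l : Fin 2) (n : ℕ) :
    lev F l ≤ n ↔ ∀ i, n ≤ i → F (2 * i + l) = 0 := by
  constructor
  · intro h i hi
    by_contra hne
    have : i + 1 ≤ lev F l := le_csSup (lev_bdd F l) ⟨i, rfl, hne⟩
    omega
  · intro h
    by_cases hne : {n | ∃ i, n = i + 1 ∧ F (2 * i + l) ≠ 0}.Nonempty
    · refine csSup_le hne ?_
      rintro m ⟨i, rfl, hi⟩
      by_contra hlt
      exact hi (h i (by omega))
    · rw [Set.not_nonempty_iff_eq_empty] at hne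
      unfold lev
      rw [hne]
      simp

theorem lev_top (F : ℕ →₀ K) (l : Fin 2) (n : ℕ) (h : lev F l = n + 1) :
    F (2 * n + l) ≠ 0 := by
  intro h0
  have : lev F l ≤ n := by
    rw [lev_le_iff]
    intro i hi
    rcases Nat.eq_or_lt_of_le hi with rfl | hi
    · exact h0
    · exact (lev_le_iff F l (n + 1)).1 h.le i hi
  omega

theorem fser_zero (F : ℕ →₀ K) (l : Fin 2) (h : lev F l = 0) : fser F l = 0 := by
  ext n
  by_cases hn : ∃ i : ℕ, n = -(2 * (i : ℤ) + 1)
  · obtain ⟨i, rfl⟩ := hn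
    rw [fser_coeff_odd, (lev_le_iff F l 0).1 h.le i (Nat.zero_le _)]
    rfl
  · push Not at hn
    rw [fser_coeff_zero F l n hn]
    rfl

theorem fser_order (F : ℕ →₀ K) (l : Fin 2) (n : ℕ) (h : lev F l = n + 1) :
    (fser F l).orderTop = ((-(2 * (n : ℤ) + 1) : ℤ) : WithTop ℤ) := by
  refine HahnSeries.orderTop_eq_of_le ?_ ?_
  · rw [HahnSeries.mem_support, fser_coeff_odd]
    exact lev_top F l n h
  · intro m hm
    by_contra hlt
    rw [not_le] at hlt
    rw [HahnSeries.mem_support] at hm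
    apply hm
    by_cases hn : ∃ i : ℕ, m = -(2 * (i : ℤ) + 1)
    · obtain ⟨i, rfl⟩ := hn
      rw [fser_coeff_odd]
      exact (lev_le_iff F l (n + 1)).1 h.le i (by omega)
    · push Not at hn
      exact fser_coeff_zero F l m hn

theorem order_quad (c x : LaurentSeries K) (hx : (0 : WithTop ℤ) ≤ x.orderTop) (s : ℤ)
    (hc : c.orderTop = (s : WithTop ℤ)) (hs : s < 0) :
    (c ^ 2 + c * x).orderTop = ((2 * s : ℤ) : WithTop ℤ) := by
  have h1 : c.orderTop < x.orderTop := by
    rw [hc]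
    exact lt_of_lt_of_le (by exact_mod_cast hs) hx
  have h2 : c ^ 2 + c * x = c * (c + x) := by ring
  rw [h2, HahnSeries.orderTop_mul, HahnSeries.orderTop_add_eq_left h1, hc, ← WithTop.coe_add]
  congr 1
  ring

theorem key (F : ℕ →₀ K) (l : Fin 2) (x c : LaurentSeries K) (hx : (0 : WithTop ℤ) ≤ x.orderTop)
    (hN : (0 : WithTop ℤ) ≤ (c ^ 2 + c * x + x ^ 2 * fser F l).orderTop) :
    (0 : WithTop ℤ) ≤ c.orderTop ∧ (((lev F l : ℕ) : ℤ) : WithTop ℤ) ≤ x.orderTop := by
  -- second part first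
  have h2 : (((lev F l : ℕ) : ℤ) : WithTop ℤ) ≤ x.orderTop := by
    rcases Nat.eq_zero_or_pos (lev F l) with h0 | h0
    · rw [h0]
      exact_mod_cast hx
    obtain ⟨n, hn⟩ : ∃ n, lev F l = n + 1 := ⟨lev F l - 1, by omega⟩
    by_contra hlt
    rw [not_le] at hlt
    have hx0 : x ≠ 0 := by
      rintro rfl
      simp at hlt
    obtain ⟨s, hs⟩ : ∃ s : ℤ, x.orderTop = (s : WithTop ℤ) :=
      ⟨x.order, (HahnSeries.order_eq_orderTop_of_ne_zero hx0).symm⟩
    have hs0 : 0 ≤ s := by rw [hs] at hx; exact_mod_cast hx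
    have hs1 : s < n + 1 := by
      rw [hs, hn] at hlt
      exact_mod_cast hlt
    have hxf : (x ^ 2 * fser F l).orderTop = ((2 * s - (2 * (n : ℤ) + 1) : ℤ) : WithTop ℤ) := by
      rw [HahnSeries.orderTop_mul, pow_two, HahnSeries.orderTop_mul, hs, fser_order F l n hn,
        ← WithTop.coe_add, ← WithTop.coe_add]
      congr 1
      ring
    by_cases hc0 : (0 : WithTop ℤ) ≤ c.orderTop
    · have h3 : (0 : WithTop ℤ) ≤ (c ^ 2 + c * x).orderTop := by
        have h4 : c ^ 2 + c * x = c * (c + x) := by ring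
        rw [h4, HahnSeries.orderTop_mul]
        refine add_nonneg hc0 (le_trans (le_min hc0 hx) HahnSeries.min_orderTop_le_orderTop_add)
      have h5 : (x ^ 2 * fser F l).orderTop < (c ^ 2 + c * x).orderTop := by
        refine lt_of_lt_of_le ?_ h3
        rw [hxf]
        exact_mod_cast (by omega : 2 * s - (2 * (n : ℤ) + 1) < 0)
      rw [HahnSeries.orderTop_add_eq_right h5, hxf] at hN
      have : (0 : ℤ) ≤ 2 * s - (2 * (n : ℤ) + 1) := by exact_mod_cast hN
      omega
    · have hc1 : c ≠ 0 := by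
        rintro rfl
        simp at hc0
      obtain ⟨r, hr⟩ : ∃ r : ℤ, c.orderTop = (r : WithTop ℤ) :=
        ⟨c.order, (HahnSeries.order_eq_orderTop_of_ne_zero hc1).symm⟩
      have hr0 : r < 0 := by
        rw [hr, not_le] at hc0
        exact_mod_cast hc0
      have h6 := order_quad c x hx r hr hr0
      rcases lt_trichotomy (2 * r) (2 * s - (2 * (n : ℤ) + 1)) with h7 | h7 | h7
      · have h8 : (c ^ 2 + c * x).orderTop < (x ^ 2 * fser F l).orderTop := by
          rw [h6, hxf]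
          exact_mod_cast h7
        rw [HahnSeries.orderTop_add_eq_left h8, h6] at hN
        have : (0 : ℤ) ≤ 2 * r := by exact_mod_cast hN
        omega
      · omega
      · have h8 : (x ^ 2 * fser F l).orderTop < (c ^ 2 + c * x).orderTop := by
          rw [h6, hxf]
          exact_mod_cast h7
        rw [HahnSeries.orderTop_add_eq_right h8, hxf] at hN
        have : (0 : ℤ) ≤ 2 * s - (2 * (n : ℤ) + 1) := by exact_mod_cast hN
        omega
  refine ⟨?_, h2⟩
  -- now `x² f` is integral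
  have h3 : (0 : WithTop ℤ) ≤ (x ^ 2 * fser F l).orderTop := by
    rcases Nat.eq_zero_or_pos (lev F l) with h0 | h0
    · rw [fser_zero F l h0, mul_zero]
      simp
    obtain ⟨n, hn⟩ : ∃ n, lev F l = n + 1 := ⟨lev F l - 1, by omega⟩
    by_cases hx0 : x = 0
    · rw [hx0]
      simp
    obtain ⟨s, hs⟩ : ∃ s : ℤ, x.orderTop = (s : WithTop ℤ) :=
      ⟨x.order, (HahnSeries.order_eq_orderTop_of_ne_zero hx0).symm⟩
    have hs1 : (n : ℤ) + 1 ≤ s := by
      rw [hs, hn] at h2
      exact_mod_cast h2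
    rw [HahnSeries.orderTop_mul, pow_two, HahnSeries.orderTop_mul, hs, fser_order F l n hn,
      ← WithTop.coe_add, ← WithTop.coe_add]
    exact_mod_cast (by omega : (0 : ℤ) ≤ s + s + -(2 * (n : ℤ) + 1))
  by_contra hc0
  have hc1 : c ≠ 0 := by
    rintro rfl
    simp at hc0
  obtain ⟨r, hr⟩ : ∃ r : ℤ, c.orderTop = (r : WithTop ℤ) :=
    ⟨c.order, (HahnSeries.order_eq_orderTop_of_ne_zero hc1).symm⟩
  have hr0 : r < 0 := by
    rw [hr, not_le] at hc0
    exact_mod_cast hc0
  have h6 := order_quad c x hx r hr hr0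
  have h8 : (c ^ 2 + c * x).orderTop < (x ^ 2 * fser F l).orderTop := by
    refine lt_of_lt_of_le ?_ h3
    rw [h6]
    exact_mod_cast (by omega : 2 * r < 0)
  rw [HahnSeries.orderTop_add_eq_left h8, h6] at hN
  have : (0 : ℤ) ≤ 2 * r := by exact_mod_cast hN
  omega

theorem key_conv (F : ℕ →₀ K) (l : Fin 2) (x : LaurentSeries K)
    (h2 : (((lev F l : ℕ) : ℤ) : WithTop ℤ) ≤ x.orderTop) :
    (0 : WithTop ℤ) ≤ (x ^ 2 * fser F l).orderTop := by
  rcases Nat.eq_zero_or_pos (lev F l) with h0 | h0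
  · rw [fser_zero F l h0, mul_zero]
    simp
  obtain ⟨n, hn⟩ : ∃ n, lev F l = n + 1 := ⟨lev F l - 1, by omega⟩
  by_cases hx0 : x = 0
  · rw [hx0]
    simp
  obtain ⟨s, hs⟩ : ∃ s : ℤ, x.orderTop = (s : WithTop ℤ) :=
    ⟨x.order, (HahnSeries.order_eq_orderTop_of_ne_zero hx0).symm⟩
  have hs1 : (n : ℤ) + 1 ≤ s := by
    rw [hs, hn] at h2
    exact_mod_cast h2
  rw [HahnSeries.orderTop_mul, pow_two, HahnSeries.orderTop_mul, hs, fser_order F l n hn,
    ← WithTop.coe_add, ← WithTop.coe_add]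
  exact_mod_cast (by omega : (0 : ℤ) ≤ s + s + -(2 * (n : ℤ) + 1))

end Pool.Agent.H947R2.WR
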