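import Pool.Agent.H947R2.WRInt

/-! # The ring of integers is free of rank four -/

namespace Pool.Agent.H947R2.WR

open MvPolynomial

variable (F : ℕ →₀ K)

/-- `X^n` in `K((t))` -/
noncomputable abbrev tp (n : ℕ) : LaurentSeries K :=
  algebraMap (PowerSeries K) (LaurentSeries K) (PowerSeries.X ^ n)

theorem tp_ne (n : ℕ) : tp n ≠ 0 := by
  have hX : (PowerSeries.X ^ n : PowerSeries K) ≠ 0 := pow_ne_zero _ PowerSeries.X_ne_zero
  intro h
  apply hX
  exact (IsFractionRing.injective (PowerSeries K) (LaurentSeries K)) (by rw [map_zero]; exact h)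

theorem tp_add (m n : ℕ) : tp (m + n) = tp m * tp n := by
  simp only [tp, pow_add, map_mul]

theorem tp_eq (n : ℕ) : tp n = HahnSeries.single (n : ℤ) (1 : K) := by
  simp only [tp]
  rw [LaurentSeries.coe_algebraMap, map_pow, HahnSeries.ofPowerSeries_X, HahnSeries.single_pow]
  simp

theorem tp_order (n : ℕ) : (tp n).orderTop = (((n : ℕ) : ℤ) : WithTop ℤ) := by
  rw [tp_eq, HahnSeries.orderTop_single one_ne_zero]

/-- the abbreviation for the ring of integers -/
abbrev OO : Type := integralClosure (PowerSeries K) (LL F)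

theorem coord (c : Fin 4 → LaurentSeries K)
    (h : IsIntegral (PowerSeries K) (comb (fser F) c)) (i : Fin 4) :
    (0 : WithTop ℤ) ≤ (tp (lev F 0 + lev F 1) * c i).orderTop := by
  have h0 : IsIntegral (PowerSeries K)
      (em F (c 1) + em F (c 3) * uu F 1) := by
    have := (int_sigma F (Pi.single 0 1) _ h).sub h
    rwa [sigma_comb_zero] at this
  have h1 : IsIntegral (PowerSeries K)
      (em F (c 2) + em F (c 3) * uu F 0) := by
    have := (int_sigma F (Pi.single 1 1) _ h).sub h
    rwa [sigma_comb_one] at this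
  have h3 : (0 : WithTop ℤ) ≤ (c 3).orderTop := by
    have := (int_sigma F (Pi.single 1 1) _ h0).sub h0
    have hv : ((((Pi.single 1 1 : Fin 2 → ZMod 2) 1).val : ℕ) : LL F) = 1 := by
      rw [Pi.single_eq_same, ZMod.val_one, Nat.cast_one]
    rw [map_add, map_mul, sigma_algebraMap, sigma_algebraMap, sigma_gen, hv] at this
    rw [← int_E F]
    have e : em F (c 3) = algebraMap (LaurentSeries K) (AS (fser F)) (c 1) +
        algebraMap (LaurentSeries K) (AS (fser F)) (c 3) * (gen (fser F) 1 + 1) -
        (em F (c 1) + em F (c 3) * uu F 1) := by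
      simp only [em, uu]
      ring
    rw [e]
    exact this
  have hpos : ∀ n : ℕ, (0 : WithTop ℤ) ≤ (tp n).orderTop := by
    intro n
    rw [tp_order]
    exact_mod_cast Nat.zero_le n
  have mul_nonneg' : ∀ a b : LaurentSeries K, (0 : WithTop ℤ) ≤ a.orderTop →
      (0 : WithTop ℤ) ≤ b.orderTop → (0 : WithTop ℤ) ≤ (a * b).orderTop := by
    intro a b ha hb
    rw [HahnSeries.orderTop_mul]
    exact add_nonneg ha hb
  have hle : ∀ (n : ℕ) (a : LaurentSeries K), (0 : WithTop ℤ) ≤ a.orderTop →
      (((n : ℕ) : ℤ) : WithTop ℤ) ≤ (tp n * a).orderTop := by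
    intro n a ha
    rw [HahnSeries.orderTop_mul, tp_order]
    exact le_add_of_nonneg_right ha
  have hmul : ∀ (n : ℕ) (w : LL F), IsIntegral (PowerSeries K) w →
      IsIntegral (PowerSeries K) (em F (tp n) * w) := fun n w hw =>
    ((int_E F _).2 (hpos n)).mul hw
  -- c 1
  have k1 : (0 : WithTop ℤ) ≤ (tp (lev F 1) * c 1).orderTop := by
    have := hmul (lev F 1) _ h0
    rw [mul_add, ← mul_assoc] at this
    have e1 : em F (tp (lev F 1)) * em F (c 1) = em F (tp (lev F 1) * c 1) := (map_mul _ _ _).symm
    have e2 : em F (tp (lev F 1)) * em F (c 3) = em F (tp (lev F 1) * c 3) := (map_mul _ _ _).symm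
    rw [e1, e2] at this
    exact ((int_lin F 1 _ _ (mul_nonneg' _ _ (hpos _) h3)).1 this).1
  have k2 : (0 : WithTop ℤ) ≤ (tp (lev F 0) * c 2).orderTop := by
    have := hmul (lev F 0) _ h1
    rw [mul_add, ← mul_assoc] at this
    have e1 : em F (tp (lev F 0)) * em F (c 2) = em F (tp (lev F 0) * c 2) := (map_mul _ _ _).symm
    have e2 : em F (tp (lev F 0)) * em F (c 3) = em F (tp (lev F 0) * c 3) := (map_mul _ _ _).symm
    rw [e1, e2] at this
    exact ((int_lin F 0 _ _ (mul_nonneg' _ _ (hpos _) h3)).1 this).1
  have k0 : (0 : WithTop ℤ) ≤ (tp (lev F 0 + lev F 1) * c 0).orderTop := by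
    have i1 := hmul (lev F 0 + lev F 1) _ h
    have i2 : IsIntegral (PowerSeries K)
        (em F (tp (lev F 0) * (tp (lev F 1) * c 1)) * uu F 0) :=
      int_mul_uu F 0 _ (hle _ _ k1)
    have i3 : IsIntegral (PowerSeries K)
        (em F (tp (lev F 1) * (tp (lev F 0) * c 2)) * uu F 1) :=
      int_mul_uu F 1 _ (hle _ _ k2)
    have i4 : IsIntegral (PowerSeries K)
        ((em F (tp (lev F 0)) * uu F 0) * ((em F (tp (lev F 1)) * uu F 1) * em F (c 3))) :=
      (int_mul_uu F 0 _ (tp_order _).ge).mul
        ((int_mul_uu F 1 _ (tp_order _).ge).mul ((int_E F _).2 h3))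
    rw [← int_E F]
    have := ((i1.sub i2).sub i3).sub i4
    have e : em F (tp (lev F 0 + lev F 1) * c 0) =
        em F (tp (lev F 0 + lev F 1)) * comb (fser F) c -
          em F (tp (lev F 0) * (tp (lev F 1) * c 1)) * uu F 0 -
          em F (tp (lev F 1) * (tp (lev F 0) * c 2)) * uu F 1 -
          (em F (tp (lev F 0)) * uu F 0) * ((em F (tp (lev F 1)) * uu F 1) * em F (c 3)) := by
      rw [tp_add]
      simp only [comb, em, uu, map_mul (algebraMap (LaurentSeries K) (LL F))]
      ring
    rw [e]
    exact this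
  fin_cases i
  · exact k0
  · show (0 : WithTop ℤ) ≤ (tp (lev F 0 + lev F 1) * c 1).orderTop
    rw [tp_add, mul_assoc]
    exact mul_nonneg' _ _ (hpos _) k1
  · show (0 : WithTop ℤ) ≤ (tp (lev F 0 + lev F 1) * c 2).orderTop
    rw [add_comm, tp_add, mul_assoc]
    exact mul_nonneg' _ _ (hpos _) k2
  · exact mul_nonneg' _ _ (hpos _) h3

/-- The coordinates of `X^N w`. -/
theorem coord_exists (w : OO F) : ∃ a : Fin 4 → PowerSeries K,
    em F (tp (lev F 0 + lev F 1)) * (w : LL F) =
      comb (fser F) fun i => algebraMap (PowerSeries K) (LaurentSeries K) (a i) := by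
  obtain ⟨c, hc⟩ := comb_surj (fser F) (w : LL F)
  have hw : IsIntegral (PowerSeries K) (comb (fser F) c) := by rw [← hc]; exact w.2
  choose a ha using fun i => (mem_A_iff _).2 (coord F c hw i)
  refine ⟨a, ?_⟩
  rw [hc]
  simp only [comb, ha, em, map_mul]
  ring

/-- coordinates -/
noncomputable def cf (w : OO F) : Fin 4 → PowerSeries K := Classical.choose (coord_exists F w)

theorem cf_spec (w : OO F) : em F (tp (lev F 0 + lev F 1)) * (w : LL F) =
      comb (fser F) fun i => algebraMap (PowerSeries K) (LaurentSeries K) (cf F w i) :=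
  Classical.choose_spec (coord_exists F w)

theorem cf_unique (w : OO F) (a : Fin 4 → PowerSeries K)
    (h : em F (tp (lev F 0 + lev F 1)) * (w : LL F) =
      comb (fser F) fun i => algebraMap (PowerSeries K) (LaurentSeries K) (a i)) : cf F w = a := by
  have := comb_inj (fser F) _ _ ((cf_spec F w).symm.trans h)
  funext i
  exact (IsFractionRing.injective (PowerSeries K) (LaurentSeries K)) (congrFun this i)

theorem comb_add (c d : Fin 4 → LaurentSeries K) :
    comb (fser F) (fun i => c i + d i) = comb (fser F) c + comb (fser F) d := by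
  simp only [comb, map_add]
  ring

theorem comb_smul (a : LaurentSeries K) (c : Fin 4 → LaurentSeries K) :
    comb (fser F) (fun i => a * c i) = em F a * comb (fser F) c := by
  simp only [comb, map_mul, em]
  ring

/-- the coordinates as a linear map -/
noncomputable def cfL : OO F →ₗ[PowerSeries K] (Fin 4 → PowerSeries K) where
  toFun := cf F
  map_add' w w' := by
    refine cf_unique F _ _ ?_
    have h1 := cf_spec F w
    have h2 := cf_spec F w'
    simp only [Pi.add_apply, map_add]
    rw [comb_add, ← h1, ← h2, ← mul_add]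
    rfl
  map_smul' a w := by
    refine cf_unique F _ _ ?_
    have h1 := cf_spec F w
    simp only [RingHom.id_apply, Pi.smul_apply, smul_eq_mul, map_mul]
    rw [comb_smul, ← h1]
    have : ((a • w : OO F) : LL F) = algebraMap (PowerSeries K) (LL F) a * (w : LL F) := by
      rw [Algebra.smul_def]
      rfl
    rw [this, tower]
    ring

theorem cfL_inj : Function.Injective (cfL F) := by
  intro w w' h
  have h1 := cf_spec F w
  have h2 := cf_spec F w'
  have h3 : cf F w = cf F w' := h
  rw [h3, ← h2] at h1
  apply Subtype.ext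
  have hu : IsUnit (em F (tp (lev F 0 + lev F 1))) := (tp_ne _).isUnit.map _
  exact hu.mul_left_cancel h1

/-- weights -/
noncomputable def wt (i : Fin 4) : LaurentSeries K :=
  (![1, tp (lev F 0), tp (lev F 1), tp (lev F 0) * tp (lev F 1)] : Fin 4 → LaurentSeries K) i

theorem wt_ne (i : Fin 4) : wt F i ≠ 0 := by
  fin_cases i
  · exact one_ne_zero
  · exact tp_ne _
  · exact tp_ne _
  · exact mul_ne_zero (tp_ne _) (tp_ne _)

/-- the element with given coordinates -/
noncomputable def invF (a : Fin 4 → PowerSeries K) : LL F :=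
  comb (fser F) fun i => wt F i * algebraMap (PowerSeries K) (LaurentSeries K) (a i)

theorem invF_int (a : Fin 4 → PowerSeries K) : IsIntegral (PowerSeries K) (invF F a) := by
  have h0 := int_mul_uu F 0 (tp (lev F 0)) (tp_order _).ge
  have h1 := int_mul_uu F 1 (tp (lev F 1)) (tp_order _).ge
  have hA : ∀ a : PowerSeries K, IsIntegral (PowerSeries K)
      (em F (algebraMap (PowerSeries K) (LaurentSeries K) a)) := fun a =>
    (int_E F _).2 ((mem_A_iff _).1 ⟨a, rfl⟩)
  have h2 := (((hA (a 0)).add ((hA (a 1)).mul h0)).add ((hA (a 2)).mul h1)).add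
    ((hA (a 3)).mul (h0.mul h1))
  have e : invF F a = em F (algebraMap (PowerSeries K) (LaurentSeries K) (a 0)) +
      em F (algebraMap (PowerSeries K) (LaurentSeries K) (a 1)) *
        (em F (tp (lev F 0)) * uu F 0) +
      em F (algebraMap (PowerSeries K) (LaurentSeries K) (a 2)) *
        (em F (tp (lev F 1)) * uu F 1) +
      em F (algebraMap (PowerSeries K) (LaurentSeries K) (a 3)) *
        (em F (tp (lev F 0)) * uu F 0 * (em F (tp (lev F 1)) * uu F 1)) := by
    simp only [invF, wt, comb, em, uu, Matrix.cons_val_zero, Matrix.cons_val_one, Matrix.cons_val,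
      map_mul (algebraMap (LaurentSeries K) (LL F)), one_mul]
    ring
  rw [e]
  exact h2

theorem invF_add (a b : Fin 4 → PowerSeries K) : invF F (a + b) = invF F a + invF F b := by
  unfold invF
  rw [← comb_add]
  congr 1
  funext i
  rw [Pi.add_apply, map_add, mul_add]

theorem invF_smul (r : PowerSeries K) (a : Fin 4 → PowerSeries K) :
    invF F (r • a) = em F (algebraMap (PowerSeries K) (LaurentSeries K) r) * invF F a := by
  unfold invF
  rw [← comb_smul]
  congr 1
  funext i
  rw [Pi.smul_apply, smul_eq_mul, map_mul]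
  ring

theorem invF_inj : Function.Injective (invF F) := by
  intro a b h
  have h2 := comb_inj (fser F) _ _ h
  funext i
  have h3 := congrFun h2 i
  exact (IsFractionRing.injective (PowerSeries K) (LaurentSeries K))
    (mul_left_cancel₀ (wt_ne F i) h3)

theorem smul_OO (r : PowerSeries K) (w : OO F) : ((r • w : OO F) : LL F) =
    em F (algebraMap (PowerSeries K) (LaurentSeries K) r) * (w : LL F) := by
  rw [Algebra.smul_def]
  rfl

/-- a linear map in the other direction -/
noncomputable def invL : (Fin 4 → PowerSeries K) →ₗ[PowerSeries K] OO F where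
  toFun a := ⟨invF F a, invF_int F a⟩
  map_add' a b := Subtype.ext (invF_add F a b)
  map_smul' r a := Subtype.ext ((invF_smul F r a).trans (smul_OO F r ⟨invF F a, invF_int F a⟩).symm)

theorem invL_inj : Function.Injective (invL F) := by
  intro a b h
  exact invF_inj F (congrArg Subtype.val h)

instance finiteOO : Module.Finite (PowerSeries K) (OO F) :=
  Module.Finite.of_injective (cfL F) (cfL_inj F)

instance torsionOO : Module.IsTorsionFree (PowerSeries K) (OO F) :=
  Function.Injective.moduleIsTorsionFree (cfL F) (cfL_inj F) (fun c x => map_smul (cfL F) c x)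

theorem finrankOO : Module.finrank (PowerSeries K) (OO F) = 4 := by
  have h1 := LinearMap.finrank_le_finrank_of_injective (cfL_inj F)
  have h2 := LinearMap.finrank_le_finrank_of_injective (invL_inj F)
  rw [Module.finrank_fintype_fun_eq_card, Fintype.card_fin] at h1 h2
  omega

theorem len_A (a : ℕ) :
    Module.length (PowerSeries K) (PowerSeries K ⧸ Ideal.span {(PowerSeries.X : PowerSeries K) ^ a})
      = a := by
  have h := IsDiscreteValuationRing.length_quotient_pow_maximalIdeal (R := PowerSeries K) a
  rwa [PowerSeries.maximalIdeal_eq_span_X, Ideal.span_singleton_pow] at h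

/-- `X^a` in the ring of integers -/
noncomputable abbrev xo (a : ℕ) : OO F := algebraMap (PowerSeries K) (OO F) (PowerSeries.X ^ a)

theorem len_quot (a : ℕ) :
    Module.length (PowerSeries K) (OO F ⧸ Ideal.span {xo F a}) = 4 * a := by
  have b : Module.Basis (Fin 4) (PowerSeries K) (OO F) :=
    Module.finBasisOfFinrankEq _ _ (finrankOO F)
  let φ : OO F →ₗ[PowerSeries K]
      (Fin 4 → PowerSeries K ⧸ Ideal.span {(PowerSeries.X : PowerSeries K) ^ a}) :=
    (LinearMap.pi fun i => (Submodule.mkQ _).comp (LinearMap.proj i)).comp b.equivFun.toLinearMap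
  have hφ : Function.Surjective φ := by
    intro z
    choose v hv using fun i => Submodule.mkQ_surjective _ (z i)
    refine ⟨b.equivFun.symm v, ?_⟩
    funext i
    simp only [φ, LinearMap.comp_apply, LinearEquiv.coe_coe, LinearEquiv.apply_symm_apply,
      LinearMap.pi_apply, LinearMap.proj_apply]
    exact hv i
  have hker : LinearMap.ker φ = (Ideal.span {xo F a}).restrictScalars (PowerSeries K) := by
    ext w
    rw [LinearMap.mem_ker, Submodule.restrictScalars_mem, Ideal.mem_span_singleton']
    constructor
    · intro h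
      have h1 : ∀ i, ∃ c, b.equivFun w i = PowerSeries.X ^ a * c := by
        intro i
        have h2 := congrFun h i
        simp only [φ, LinearMap.comp_apply, LinearEquiv.coe_coe, LinearMap.pi_apply,
          LinearMap.proj_apply, Pi.zero_apply] at h2
        rw [Submodule.mkQ_apply, Submodule.Quotient.mk_eq_zero, Ideal.mem_span_singleton] at h2
        exact h2
      choose c hc using h1
      refine ⟨b.equivFun.symm c, ?_⟩
      apply b.equivFun.injective
      rw [mul_comm, ← Algebra.smul_def, map_smul, LinearEquiv.apply_symm_apply]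
      funext i
      rw [Pi.smul_apply, smul_eq_mul, hc i]
    · rintro ⟨v, rfl⟩
      rw [mul_comm, ← Algebra.smul_def, map_smul]
      funext i
      simp only [φ, LinearMap.comp_apply, LinearEquiv.coe_coe, LinearMap.pi_apply,
        LinearMap.proj_apply, Pi.zero_apply, Pi.smul_apply]
      rw [Submodule.mkQ_apply, ← Submodule.Quotient.mk_smul, Submodule.Quotient.mk_eq_zero,
        Ideal.mem_span_singleton]
      exact ⟨_, rfl⟩
  have e1 := (φ.quotKerEquivOfSurjective hφ).length_eq
  have e3 : (OO F ⧸ LinearMap.ker φ) ≃ₗ[PowerSeries K]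
      (OO F ⧸ (Ideal.span {xo F a}).restrictScalars (PowerSeries K)) :=
    Submodule.quotEquivOfEq _ _ hker
  have e4 : (OO F ⧸ (Ideal.span {xo F a}).restrictScalars (PowerSeries K)) ≃ₗ[PowerSeries K]
      (OO F ⧸ Ideal.span {xo F a}) :=
    Submodule.Quotient.restrictScalarsEquiv (PowerSeries K) (Ideal.span {xo F a})
  have e2 := e3.trans e4
  rw [← e2.length_eq, e1, Module.length_pi, len_A]
  simp

end Pool.Agent.H947R2.WR
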