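import Pool.Agent.H947R2.WRTun
import Pool.Agent.H947R2.WRCount

/-! # The level sets of `v` -/

namespace Pool.Agent.H947R2.WR

open MvPolynomial

theorem ofFin_apply {n : ℕ} (x : Fin n → K) (i : ℕ) :
    ofFin x i = if h : i < n then x ⟨i, h⟩ else 0 := rfl

theorem ofFin_lt {n : ℕ} (x : Fin n → K) (i : ℕ) (h : i < n) : ofFin x i = x ⟨i, h⟩ := by
  rw [ofFin_apply, dif_pos h]

theorem ofFin_ge {n : ℕ} (x : Fin n → K) (i : ℕ) (h : n ≤ i) : ofFin x i = 0 := by
  rw [ofFin_apply, dif_neg (by omega)]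

theorem mem_levelY (b : ℕ) (x : Fin (b / 6) → K) :
    x ∈ levelY b ↔ 12 * (lev (ofFin x) 0 + lev (ofFin x) 1) = b := by
  show v4 (ofFin x) = (b : ℕ∞) ↔ _
  rw [v4_eq, Nat.cast_inj]

theorem constr_univ (n : ℕ) : Constr (Set.univ : Set (Fin n → K)) := by
  have h := Constr.zero (n := n) 0
  have : {x : Fin n → K | eval x (0 : MvPolynomial (Fin n) K) = 0} = Set.univ := by
    ext x; simp
  rwa [this] at h

theorem constr_union {n : ℕ} {S T : Set (Fin n → K)} (hS : Constr S) (hT : Constr T) :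
    Constr (S ∪ T) := by
  have := (hS.compl.inter hT.compl).compl
  rwa [← Set.compl_union, compl_compl] at this

theorem constr_empty (n : ℕ) : Constr (∅ : Set (Fin n → K)) := by
  have h := (constr_univ n).compl
  rwa [Set.compl_univ] at h

theorem constr_ball {n : ℕ} {ι : Type} (s : Finset ι) (S : ι → Set (Fin n → K))
    (h : ∀ i, Constr (S i)) : Constr {x | ∀ i ∈ s, x ∈ S i} := by
  classical
  induction s using Finset.induction_on with
  | empty => simpa using constr_univ n
  | insert a s _ ih =>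
    have : {x : Fin n → K | ∀ i ∈ insert a s, x ∈ S i} = S a ∩ {x | ∀ i ∈ s, x ∈ S i} := by
      ext x; simp
    rw [this]
    exact (h a).inter ih

theorem constr_bex {n : ℕ} {ι : Type} (s : Finset ι) (S : ι → Set (Fin n → K))
    (h : ∀ i, Constr (S i)) : Constr {x | ∃ i ∈ s, x ∈ S i} := by
  have h1 := (constr_ball s (fun i => (S i)ᶜ) (fun i => (h i).compl)).compl
  have : {x : Fin n → K | ∃ i ∈ s, x ∈ S i} = {x | ∀ i ∈ s, x ∈ (S i)ᶜ}ᶜ := by
    ext x; simp
  rwa [this]

theorem constr_lev_le {n : ℕ} (l : Fin 2) (m : ℕ) :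
    Constr {x : Fin n → K | lev (ofFin x) l ≤ m} := by
  have h1 : {x : Fin n → K | lev (ofFin x) l ≤ m} =
      {x | ∀ k ∈ (Finset.univ : Finset (Fin n)),
        x ∈ (if m ≤ (k : ℕ) / 2 ∧ (k : ℕ) % 2 = l then
          {x : Fin n → K | eval x (X k : MvPolynomial (Fin n) K) = 0} else Set.univ)} := by
    ext x
    rw [Set.mem_setOf_eq, Set.mem_setOf_eq, lev_le_iff]
    constructor
    · intro h k _
      split_ifs with hk
      · have h2 := h ((k : ℕ) / 2) hk.1
        have h3 : 2 * ((k : ℕ) / 2) + (l : ℕ) = k := by omega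
        rw [h3, ofFin_lt x k k.2] at h2
        show eval x (X k) = 0
        rw [eval_X]
        exact h2
      · trivial
    · intro h i hi
      by_cases hlt : 2 * i + (l : ℕ) < n
      · have h2 := h ⟨2 * i + l, hlt⟩ (Finset.mem_univ _)
        have hl := l.2
        rw [if_pos ⟨by show m ≤ (2 * i + (l : ℕ)) / 2; omega,
          by show (2 * i + (l : ℕ)) % 2 = l; omega⟩] at h2
        have h3 : eval x (X ⟨2 * i + l, hlt⟩ : MvPolynomial (Fin n) K) = 0 := h2
        rw [eval_X] at h3
        rw [ofFin_lt x _ hlt]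
        exact h3
      · exact ofFin_ge x _ (by omega)
  rw [h1]
  refine constr_ball _ _ fun k => ?_
  split_ifs
  · exact Constr.zero _
  · exact constr_univ n

theorem constr_lev_eq {n : ℕ} (l : Fin 2) (m : ℕ) :
    Constr {x : Fin n → K | lev (ofFin x) l = m} := by
  rcases m with _ | m
  · have : {x : Fin n → K | lev (ofFin x) l = 0} = {x | lev (ofFin x) l ≤ 0} := by
      ext x; simp
    rw [this]
    exact constr_lev_le l 0
  · have : {x : Fin n → K | lev (ofFin x) l = m + 1} =
        {x | lev (ofFin x) l ≤ m + 1} ∩ {x | lev (ofFin x) l ≤ m}ᶜ := by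
      ext x
      simp only [Set.mem_setOf_eq, Set.mem_inter_iff, Set.mem_compl_iff]
      omega
    rw [this]
    exact (constr_lev_le l _).inter (constr_lev_le l _).compl

theorem constr_levelY (b : ℕ) : Constr (levelY b) := by
  have h : levelY b = {x | ∃ s ∈ Finset.range (b + 1), x ∈
      (if 12 * s ≤ b ∧ 12 ∣ b then ({x : Fin (b / 6) → K | lev (ofFin x) 0 = s} ∩
        {x | lev (ofFin x) 1 = b / 12 - s}) else ∅)} := by
    ext x
    rw [mem_levelY, Set.mem_setOf_eq]
    constructor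
    · intro hx
      refine ⟨lev (ofFin x) 0, Finset.mem_range.2 (by omega), ?_⟩
      rw [if_pos ⟨by omega, ⟨_, hx.symm⟩⟩]
      refine ⟨rfl, ?_⟩
      show lev (ofFin x) 1 = _
      omega
    · rintro ⟨s, _, hx⟩
      split_ifs at hx with hs
      · obtain ⟨h1, h2⟩ := hx
        have h1' : lev (ofFin x) 0 = s := h1
        have h2' : lev (ofFin x) 1 = b / 12 - s := h2
        obtain ⟨c, rfl⟩ := hs.2
        rw [h1', h2']
        omega
      · exact absurd hx (Set.notMem_empty x)
  rw [h]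
  refine constr_bex _ _ fun s => ?_
  split_ifs
  · exact (constr_lev_eq 0 s).inter (constr_lev_eq 1 _)
  · exact constr_empty _

/-- The partial sums `∑_{b ≤ n} {v⁻¹(b / 4)} L^{12 - b / 4}` of the stringy motive of
`K^{12} / G`, by Yasuda's formula. -/
noncomputable def stringy (n : ℕ) : FreeAbelianGroup Gen :=
  ∑ b ∈ Finset.range (n + 1),
    FreeAbelianGroup.of ⟨b / 6, levelY b, constr_levelY b, 4 * 12 - (b : ℤ)⟩

theorem levels_ok (F : ℕ →₀ K) :
    v4 F ≠ ⊤ ∧ ∀ b : ℕ, v4 F = b → ∀ i, b / 6 ≤ i → F i = 0 := by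
  rw [v4_eq]
  refine ⟨ENat.coe_ne_top _, fun b hb i hi => ?_⟩
  have h1 : 12 * (lev F 0 + lev F 1) = b := by exact_mod_cast hb
  rcases Nat.even_or_odd' i with ⟨k, rfl | rfl⟩
  · exact (lev_le_iff F 0 (lev F 0)).1 le_rfl k (by omega)
  · exact (lev_le_iff F 1 (lev F 1)).1 le_rfl k (by omega)

/-! ### Counting points -/

/-- the field with `q_j` elements -/
noncomputable def Fq (j : ℕ) : Finset K := (pts_finite_aux (q j) (by
    unfold q
    exact Nat.one_lt_pow (by positivity) (by norm_num))).toFinset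

theorem mem_Fq (j : ℕ) (z : K) : z ∈ Fq j ↔ z ^ q j = z := by
  unfold Fq
  rw [Set.Finite.mem_toFinset]
  rfl

theorem card_Fq (j : ℕ) : (Fq j).card = q j := by
  have h : ({z : K | z ^ q j = z}).ncard = q j := by
    unfold q
    exact card_fixed _ (Nat.mul_pos (by norm_num) (Nat.factorial_pos j))
  rw [← h, Set.ncard_eq_toFinset_card _ (pts_finite_aux (q j) (by
    unfold q
    exact Nat.one_lt_pow (by positivity) (by norm_num)))]
  rfl

open scoped Classical in
/-- the allowed values of the coordinate `i` if `lev = a` -/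
noncomputable def SS (j a i : ℕ) : Finset K :=
  if i + 1 < a then Fq j else if i + 1 = a then (Fq j).erase 0 else {0}

theorem zero_mem_Fq (j : ℕ) : (0 : K) ∈ Fq j := by
  rw [mem_Fq, zero_pow (cnt_bij_q_ne j)]

open scoped Classical in
theorem card_SS (j a i : ℕ) :
    (SS j a i).card = if i + 1 < a then q j else if i + 1 = a then q j - 1 else 1 := by
  unfold SS
  split_ifs
  · exact card_Fq j
  · rw [Finset.card_erase_of_mem (zero_mem_Fq j), card_Fq]
  · rfl

/-- the number of the torsors of level `a` -/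
def nu (j : ℕ) : ℕ → ℕ
  | 0 => 1
  | a + 1 => q j ^ a * (q j - 1)

theorem prod_SS (j a c : ℕ) (h : a ≤ c) :
    ∏ i ∈ Finset.range c, (SS j a i).card = nu j a := by
  induction c, h using Nat.le_induction with
  | base =>
    rcases a with _ | a
    · simp [nu]
    · rw [Finset.prod_range_succ, card_SS, if_neg (by omega), if_pos rfl, nu]
      congr 1
      rw [Finset.prod_congr rfl (g := fun _ => q j), Finset.prod_const, Finset.card_range]
      intro i hi
      rw [Finset.mem_range] at hi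
      rw [card_SS, if_pos (by omega)]
  | succ c hc ih =>
    rw [Finset.prod_range_succ, ih, card_SS, if_neg (by omega), if_neg (by omega), mul_one]

theorem prod_even_odd (g : ℕ → ℕ) (c : ℕ) : ∏ k ∈ Finset.range (2 * c), g k =
    (∏ i ∈ Finset.range c, g (2 * i)) * ∏ i ∈ Finset.range c, g (2 * i + 1) := by
  induction c with
  | zero => simp
  | succ c ih =>
    rw [show 2 * (c + 1) = 2 * c + 1 + 1 by ring, Finset.prod_range_succ, Finset.prod_range_succ,
      ih, Finset.prod_range_succ, Finset.prod_range_succ]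
    ring

open scoped Classical in
theorem lev_SS {n : ℕ} (j c : ℕ) (hn : n = 2 * c) (x : Fin n → K) (hx : ∀ i, x i ^ q j = x i)
    (l : Fin 2) (a : ℕ) :
    lev (ofFin x) l = a → ∀ k : Fin n, (k : ℕ) % 2 = l → x k ∈ SS j a ((k : ℕ) / 2) := by
  rintro rfl k hk
  have h3 : 2 * ((k : ℕ) / 2) + (l : ℕ) = k := by omega
  unfold SS
  split_ifs with h1 h2
  · rw [mem_Fq]; exact hx k
  · rw [Finset.mem_erase, mem_Fq]
    refine ⟨?_, hx k⟩
    have h4 := lev_top (ofFin x) l ((k : ℕ) / 2) h2.symm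
    rwa [h3, ofFin_lt x k k.2] at h4
  · rw [Finset.mem_singleton]
    have h4 := (lev_le_iff (ofFin x) l _).1 le_rfl ((k : ℕ) / 2) (by omega)
    rwa [h3, ofFin_lt x k k.2] at h4

open scoped Classical in
theorem SS_lev {n : ℕ} (j c : ℕ) (hn : n = 2 * c) (x : Fin n → K)
    (l : Fin 2) (a : ℕ) (ha : a ≤ c)
    (h : ∀ k : Fin n, (k : ℕ) % 2 = l → x k ∈ SS j a ((k : ℕ) / 2)) :
    lev (ofFin x) l = a := by
  have hl := l.2
  have h0 : ∀ i, a ≤ i → ofFin x (2 * i + l) = 0 := by
    intro i hi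
    by_cases hlt : 2 * i + (l : ℕ) < n
    · have h1 := h ⟨2 * i + l, hlt⟩ (by show (2 * i + (l : ℕ)) % 2 = l; omega)
      have h2 : (((⟨2 * i + l, hlt⟩ : Fin n) : ℕ)) / 2 = i := by
        show (2 * i + (l : ℕ)) / 2 = i
        omega
      rw [h2] at h1
      unfold SS at h1
      rw [if_neg (by omega), if_neg (by omega), Finset.mem_singleton] at h1
      rw [ofFin_lt x _ hlt]
      exact h1
    · exact ofFin_ge x _ (by omega)
  apply le_antisymm ((lev_le_iff _ _ _).2 h0)
  by_contra hlt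
  rw [not_le] at hlt
  obtain ⟨i, hi⟩ : ∃ i, a = i + 1 := ⟨a - 1, by omega⟩
  have h3 := (lev_le_iff (ofFin x) l i).1 (by omega) i le_rfl
  have hlt' : 2 * i + (l : ℕ) < n := by omega
  have h1 := h ⟨2 * i + l, hlt'⟩ (by show (2 * i + (l : ℕ)) % 2 = l; omega)
  have h2 : (((⟨2 * i + l, hlt'⟩ : Fin n) : ℕ)) / 2 = i := by
    show (2 * i + (l : ℕ)) / 2 = i
    omega
  rw [h2] at h1
  unfold SS at h1
  rw [if_neg (by omega), if_pos hi.symm, Finset.mem_erase] at h1
  rw [ofFin_lt x _ hlt'] at h3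
  exact h1.1 h3

open scoped Classical in
theorem SS_pow {n : ℕ} (j : ℕ) (x : Fin n → K) (k : Fin n) (a i : ℕ) (h : x k ∈ SS j a i) :
    x k ^ q j = x k := by
  unfold SS at h
  split_ifs at h with h1 h2
  · exact (mem_Fq j _).1 h
  · exact (mem_Fq j _).1 (Finset.mem_of_mem_erase h)
  · rw [Finset.mem_singleton] at h
    rw [h, zero_pow (cnt_bij_q_ne j)]

theorem cnt_two (j c s : ℕ) (hs : s ≤ c) {n : ℕ} (hn : n = 2 * c) :
    cnt j ({x : Fin n → K | lev (ofFin x) 0 = s} ∩ {x | lev (ofFin x) 1 = c - s}) =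
      nu j s * nu j (c - s) := by
  classical
  have h1 : pts j ({x : Fin n → K | lev (ofFin x) 0 = s} ∩ {x | lev (ofFin x) 1 = c - s}) =
      ↑(Fintype.piFinset fun k : Fin n =>
        SS j (if (k : ℕ) % 2 = 0 then s else c - s) ((k : ℕ) / 2)) := by
    ext x
    rw [Finset.mem_coe, Fintype.mem_piFinset]
    constructor
    · rintro ⟨⟨hx0, hx1⟩, hx2⟩ k
      split_ifs with hk
      · exact lev_SS j c hn x hx2 0 s hx0 k hk
      · exact lev_SS j c hn x hx2 1 (c - s) hx1 k (by
          have : ((1 : Fin 2) : ℕ) = 1 := rfl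
          omega)
    · intro h
      refine ⟨⟨?_, ?_⟩, fun k => SS_pow j x k _ _ (h k)⟩
      · refine SS_lev j c hn x 0 s hs fun k hk => ?_
        have h2 := h k
        have h3 : (k : ℕ) % 2 = 0 := hk
        rwa [if_pos h3] at h2
      · refine SS_lev j c hn x 1 (c - s) (by omega) fun k hk => ?_
        have h2 := h k
        have h3 : (k : ℕ) % 2 = 1 := hk
        rwa [if_neg (by omega)] at h2
  unfold cnt
  rw [h1, Set.ncard_coe_finset, Fintype.card_piFinset,
    Fin.prod_univ_eq_prod_range (fun k => (SS j (if k % 2 = 0 then s else c - s) (k / 2)).card) n,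
    hn, prod_even_odd]
  congr 1
  · rw [← prod_SS j s c hs]
    refine Finset.prod_congr rfl fun i _ => ?_
    rw [if_pos (by omega), show 2 * i / 2 = i by omega]
  · rw [← prod_SS j (c - s) c (by omega)]
    refine Finset.prod_congr rfl fun i _ => ?_
    rw [if_neg (by omega), show (2 * i + 1) / 2 = i by omega]

/-- the number of points of the level set -/
def nn (j c : ℕ) : ℕ := ∑ s ∈ Finset.range (c + 1), nu j s * nu j (c - s)

theorem cnt_biUnion (j : ℕ) {n : ℕ} (s : Finset ℕ) (S : ℕ → Set (Fin n → K))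
    (h : ∀ a ∈ s, ∀ b ∈ s, a ≠ b → Disjoint (S a) (S b)) :
    cnt j {x | ∃ i ∈ s, x ∈ S i} = ∑ i ∈ s, cnt j (S i) := by
  classical
  induction s using Finset.induction_on with
  | empty =>
    simp only [Finset.notMem_empty, false_and, exists_false, Finset.sum_empty]
    unfold cnt pts
    simp
  | insert a s ha ih =>
    have h1 : {x : Fin n → K | ∃ i ∈ insert a s, x ∈ S i} = S a ∪ {x | ∃ i ∈ s, x ∈ S i} := by
      ext x; simp
    rw [h1, cnt_union, Finset.sum_insert ha, ih]
    · intro b hb c hc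
      exact h b (Finset.mem_insert_of_mem hb) c (Finset.mem_insert_of_mem hc)
    · rw [Set.disjoint_left]
      rintro x hx ⟨i, hi, hxi⟩
      have hai : a ≠ i := by
        rintro rfl
        exact ha hi
      exact Set.disjoint_left.1 (h a (Finset.mem_insert_self _ _) i
        (Finset.mem_insert_of_mem hi) hai) hx hxi

theorem cnt_level (j c : ℕ) : cnt j (levelY (12 * c)) = nn j c := by
  have hn : (12 * c) / 6 = 2 * c := by omega
  have h : levelY (12 * c) = {x | ∃ s ∈ Finset.range (c + 1), x ∈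
      ({x : Fin (12 * c / 6) → K | lev (ofFin x) 0 = s} ∩ {x | lev (ofFin x) 1 = c - s})} := by
    ext x
    rw [mem_levelY, Set.mem_setOf_eq]
    constructor
    · intro hx
      refine ⟨lev (ofFin x) 0, Finset.mem_range.2 (by omega), rfl, ?_⟩
      show lev (ofFin x) 1 = _
      omega
    · rintro ⟨s, hs, h1, h2⟩
      have h1' : lev (ofFin x) 0 = s := h1
      have h2' : lev (ofFin x) 1 = c - s := h2
      rw [Finset.mem_range] at hs
      rw [h1', h2']
      omega
  rw [h, cnt_biUnion]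
  · unfold nn
    refine Finset.sum_congr rfl fun s hs => ?_
    rw [Finset.mem_range] at hs
    exact cnt_two j c s (by omega) hn
  · intro a _ b _ hab
    rw [Set.disjoint_left]
    rintro x ⟨hx, _⟩ ⟨hx', _⟩
    exact hab (hx.symm.trans hx')

theorem cnt_level_empty (j b : ℕ) (h : ¬ 12 ∣ b) : cnt j (levelY b) = 0 := by
  have : levelY b = ∅ := by
    rw [Set.eq_empty_iff_forall_notMem]
    intro x hx
    rw [mem_levelY] at hx
    exact h ⟨_, hx.symm⟩
  rw [this]
  unfold cnt pts
  simp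

/-- the terms of the point count -/
noncomputable def TT (j b : ℕ) : ℝ := (cnt j (levelY b) : ℝ) * (y j : ℝ) ^ (4 * 12 - (b : ℤ))

theorem TT_mul (j c : ℕ) : TT j (12 * c) = (nn j c : ℝ) * (y j : ℝ) ^ (4 * 12 - 12 * (c : ℤ)) := by
  unfold TT
  rw [cnt_level]
  push_cast
  rfl

theorem TT_zero (j b : ℕ) (h : ¬ 12 ∣ b) : TT j b = 0 := by
  unfold TT
  rw [cnt_level_empty j b h, Nat.cast_zero, zero_mul]

theorem sum_twelve (T : ℕ → ℝ) (hT : ∀ b, ¬ 12 ∣ b → T b = 0) (n : ℕ) :
    ∑ b ∈ Finset.range (n + 1), T b = ∑ c ∈ Finset.range (n / 12 + 1), T (12 * c) := by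
  induction n with
  | zero => simp
  | succ n ih =>
    rw [Finset.sum_range_succ _ (n + 1), ih]
    by_cases h : 12 ∣ n + 1
    · have e1 : (n + 1) / 12 = n / 12 + 1 := by
        rw [Nat.succ_div, if_pos h]
      have e2 : 12 * (n / 12 + 1) = n + 1 := by
        rw [← e1]
        exact Nat.mul_div_cancel' h
      rw [e1, Finset.sum_range_succ _ (n / 12 + 1), e2]
    · have e1 : (n + 1) / 12 = n / 12 := by
        rw [Nat.succ_div, if_neg h, Nat.add_zero]
      rw [e1, hT _ h, add_zero]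

/-- the point count of the partial sums -/
theorem mu_stringy (j n : ℕ) : mu j (stringy n) =
    ∑ c ∈ Finset.range (n / 12 + 1), (nn j c : ℝ) * (y j : ℝ) ^ (4 * 12 - 12 * (c : ℤ)) := by
  have h1 : mu j (stringy n) = ∑ b ∈ Finset.range (n + 1), TT j b := by
    unfold stringy
    rw [map_sum]
    refine Finset.sum_congr rfl fun b _ => ?_
    rw [mu_of]
    rfl
  rw [h1, sum_twelve (TT j) (TT_zero j) n]
  exact Finset.sum_congr rfl fun c _ => TT_mul j c

end Pool.Agent.H947R2.WR
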