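import Pool.Agent.H947R2.WRDefs

/-! # Artin-Schreier theory -/

namespace Pool.Agent.H947R2.WR

open MvPolynomial

theorem as_exists_coeff (h : PowerSeries K) (n : ℕ) :
    PowerSeries.coeff n (h ^ 2) = if 2 ∣ n then (PowerSeries.coeff (n / 2) h) ^ 2 else 0 := by
  have e : h ^ 2 = PowerSeries.map (frobenius K 2) (PowerSeries.expand 2 (by norm_num) h) :=
    (MvPowerSeries.map_frobenius_expand 2 (by norm_num) (f := h)).symm
  rw [e, PowerSeries.coeff_map, PowerSeries.coeff_expand]
  split_ifs
  · rw [frobenius_def]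
  · rw [map_zero]

noncomputable def as_exists_seq (g : ℕ → K) (r : K) : ℕ → K
  | 0 => r
  | (n + 1) => - g (n + 1) + if 2 ∣ (n + 1) then (as_exists_seq g r ((n + 1) / 2)) ^ 2 else 0
  decreasing_by exact Nat.div_lt_self (Nat.succ_pos n) (by norm_num)

theorem as_exists_ps (g : PowerSeries K) : ∃ h : PowerSeries K, g = h ^ 2 - h := by
  obtain ⟨r, hr⟩ : ∃ r : K, PowerSeries.coeff 0 g = r ^ 2 - r := by
    obtain ⟨θ, h⟩ := IsAlgClosed.exists_root (Polynomial.X ^ 2 - Polynomial.X -
        Polynomial.C (PowerSeries.coeff 0 g) : Polynomial K) (by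
      have : (Polynomial.X ^ 2 - Polynomial.X -
          Polynomial.C (PowerSeries.coeff 0 g) : Polynomial K).degree = 2 := by
        compute_degree!
      rw [this]; decide)
    refine ⟨θ, ?_⟩
    simp only [Polynomial.IsRoot, Polynomial.eval_sub, Polynomial.eval_pow, Polynomial.eval_X,
      Polynomial.eval_C] at h
    linear_combination -h
  refine ⟨PowerSeries.mk (as_exists_seq (fun n => PowerSeries.coeff n g) r), ?_⟩
  ext n
  rw [map_sub, as_exists_coeff, PowerSeries.coeff_mk, PowerSeries.coeff_mk]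
  cases n with
  | zero =>
    rw [hr]
    simp [as_exists_seq]
  | succ n =>
    rw [as_exists_seq.eq_2]
    split_ifs <;> ring

def as_exists_P (f : LaurentSeries K) : Prop := ∃ (c : ℕ →₀ K) (h : LaurentSeries K),
    (∀ j, c j ≠ 0 → 1 ≤ j ∧ ¬ 2 ∣ j) ∧
      f - c.sum (fun j a => HahnSeries.single (-(j : ℤ)) a) = h ^ 2 - h

theorem as_exists_add {f₁ f₂ : LaurentSeries K} (h₁ : as_exists_P f₁) (h₂ : as_exists_P f₂) :
    as_exists_P (f₁ + f₂) := by
  obtain ⟨c₁, u₁, a₁, b₁⟩ := h₁
  obtain ⟨c₂, u₂, a₂, b₂⟩ := h₂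
  refine ⟨c₁ + c₂, u₁ + u₂, ?_, ?_⟩
  · intro j hj
    by_cases h1 : c₁ j = 0
    · refine a₂ j (fun h2 => hj ?_)
      rw [Finsupp.add_apply, h1, h2, add_zero]
    · exact a₁ j h1
  · rw [Finsupp.sum_add_index' (fun j => by simp) (fun j a b => by simp),
      add_pow_char u₁ u₂ 2]
    linear_combination b₁ + b₂

theorem as_exists_pc (h : LaurentSeries K) : as_exists_P (h ^ 2 - h) :=
  ⟨0, h, fun j hj => absurd rfl hj, by simp⟩

theorem as_exists_single (j : ℕ) : ∀ a : K, 1 ≤ j → as_exists_P (HahnSeries.single (-(j : ℤ)) a) := by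
  induction j using Nat.strong_induction_on with
  | _ j ih =>
    intro a hj
    by_cases h3 : 2 ∣ j
    · obtain ⟨i, rfl⟩ := h3
      obtain ⟨b, hb⟩ := IsAlgClosed.exists_pow_nat_eq a (n := 2) (by norm_num)
      have e : HahnSeries.single (-((2 * i : ℕ) : ℤ)) a =
          ((HahnSeries.single (-(i : ℤ)) b : LaurentSeries K) ^ 2 - HahnSeries.single (-(i : ℤ)) b) +
            HahnSeries.single (-(i : ℤ)) b := by
        rw [sub_add_cancel, HahnSeries.single_pow, hb]
        congr 1
        push_cast
        simp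
      rw [e]
      exact as_exists_add (as_exists_pc _) (ih i (by omega) b (by omega))
    · refine ⟨Finsupp.single j a, 0, ?_, ?_⟩
      · intro k hk
        rw [Finsupp.single_apply] at hk
        split_ifs at hk with h
        · subst h; exact ⟨hj, h3⟩
        · exact absurd rfl hk
      · rw [Finsupp.sum_single_index (by simp)]
        simp

theorem as_exists_shift (N : ℕ) : ∀ g : PowerSeries K,
    as_exists_P (HahnSeries.single (-(N : ℤ)) (1 : K) * (HahnSeries.ofPowerSeries ℤ K g)) := by
  induction N with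
  | zero =>
    intro g
    obtain ⟨h, hh⟩ := as_exists_ps g
    have e : HahnSeries.single (-((0 : ℕ) : ℤ)) (1 : K) * (HahnSeries.ofPowerSeries ℤ K g) =
        (HahnSeries.ofPowerSeries ℤ K h) ^ 2 - HahnSeries.ofPowerSeries ℤ K h := by
      rw [← map_pow, ← map_sub, ← hh]
      have : HahnSeries.single (-((0 : ℕ) : ℤ)) (1 : K) = 1 := by
        simp
      rw [this, one_mul]
    rw [e]
    exact as_exists_pc _
  | succ N ih =>
    intro g
    have e : HahnSeries.single (-((N + 1 : ℕ) : ℤ)) (1 : K) * (HahnSeries.ofPowerSeries ℤ K g) =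
        HahnSeries.single (-(N : ℤ)) (1 : K) *
          (HahnSeries.ofPowerSeries ℤ K (PowerSeries.mk fun p => PowerSeries.coeff (p + 1) g)) +
        HahnSeries.single (-((N + 1 : ℕ) : ℤ)) (PowerSeries.constantCoeff g) := by
      conv_lhs => rw [PowerSeries.eq_X_mul_shift_add_const g]
      rw [map_add, map_mul, HahnSeries.ofPowerSeries_X, HahnSeries.ofPowerSeries_C, mul_add, ← mul_assoc,
        HahnSeries.single_mul_single, HahnSeries.C_apply, HahnSeries.single_mul_single]
      rw [show (-((N + 1 : ℕ) : ℤ) + 1) = -(N : ℤ) by push_cast; ring, mul_one, add_zero, one_mul]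
    rw [e]
    exact as_exists_add (ih _) (as_exists_single (N + 1) _ (by omega))

theorem as_exists (f : LaurentSeries K) : ∃ (c : ℕ →₀ K) (h : LaurentSeries K),
    (∀ j, c j ≠ 0 → 1 ≤ j ∧ ¬ 2 ∣ j) ∧
      f - c.sum (fun j a => HahnSeries.single (-(j : ℤ)) a) = h ^ 2 - h := by
  have key : ∃ (N : ℕ) (g : PowerSeries K),
      f = HahnSeries.single (-(N : ℤ)) (1 : K) * (HahnSeries.ofPowerSeries ℤ K g) := by
    refine ⟨f.order.natAbs, PowerSeries.X ^ (f.order + f.order.natAbs).toNat * f.powerSeriesPart, ?_⟩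
    rw [map_mul, map_pow, HahnSeries.ofPowerSeries_X, HahnSeries.single_pow, ← mul_assoc,
      HahnSeries.single_mul_single]
    conv_lhs => rw [← LaurentSeries.single_order_mul_powerSeriesPart f]
    have e1 : -(f.order.natAbs : ℤ) + (f.order + (f.order.natAbs : ℤ)).toNat • (1 : ℤ) = f.order := by
      simp only [nsmul_eq_mul, mul_one]
      omega
    rw [e1, one_pow, mul_one]
  obtain ⟨N, g, hg⟩ := key
  have := as_exists_shift N g
  rw [← hg] at this
  exact this

theorem as_unique (c : ℕ →₀ K) (h : LaurentSeries K) (hc : ∀ j, c j ≠ 0 → 1 ≤ j ∧ ¬ 2 ∣ j)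
    (hh : c.sum (fun j a => HahnSeries.single (-(j : ℤ)) a) = h ^ 2 - h) : c = 0 := by
  have hL : ∀ j : ℕ, (c.sum (fun j a => (HahnSeries.single (-(j : ℤ)) a : LaurentSeries K))).coeff
      (-(j : ℤ)) = c j := by
    intro j
    rw [Finsupp.sum, HahnSeries.coeff_sum]
    rw [Finset.sum_eq_single j]
    · simp
    · intro b _ hb
      rw [HahnSeries.coeff_single_of_ne]
      intro h
      apply hb
      omega
    · intro hj
      rw [Finsupp.notMem_support_iff.mp hj]
      simp
  by_cases h0 : h = 0
  · ext j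
    rw [← hL j, hh, h0]
    simp
  have hord : 0 ≤ h.order := by
    by_contra hneg
    rw [not_le] at hneg
    have h3 : (h ^ 2).order = 2 • h.order := HahnSeries.order_pow _ _
    have h3ne : (h ^ 2).coeff (2 • h.order) ≠ 0 := by
      rw [← h3]
      exact fun hz => pow_ne_zero 2 h0 (HahnSeries.coeff_order_eq_zero.mp hz)
    have h1 : h.coeff (2 • h.order) = 0 := by
      apply HahnSeries.coeff_eq_zero_of_lt_order
      simp only [nsmul_eq_mul]
      push_cast
      linarith
    obtain ⟨m, hm⟩ : ∃ m : ℕ, (m : ℤ) = -h.order := ⟨(-h.order).toNat, by omega⟩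
    have h2 : (2 • h.order : ℤ) = -((2 * m : ℕ) : ℤ) := by
      simp only [nsmul_eq_mul]
      push_cast
      linarith
    have h4 : c (2 * m) = (h ^ 2 - h).coeff (2 • h.order) := by
      rw [← hh, h2, hL]
    rw [HahnSeries.coeff_sub, h1, sub_zero] at h4
    have h5 : c (2 * m) ≠ 0 := by rw [h4]; exact h3ne
    exact (hc _ h5).2 ⟨m, rfl⟩
  ext j
  by_contra hj
  have hj' : c j ≠ 0 := hj
  have h1 := (hc j hj').1
  apply hj'
  rw [← hL j, hh, HahnSeries.coeff_sub]
  have e1 : (h ^ 2).coeff (-(j : ℤ)) = 0 := by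
    apply HahnSeries.coeff_eq_zero_of_lt_order
    rw [HahnSeries.order_pow]
    simp only [nsmul_eq_mul]
    push_cast
    have : (1 : ℤ) ≤ j := by exact_mod_cast h1
    linarith
  have e2 : h.coeff (-(j : ℤ)) = 0 := by
    apply HahnSeries.coeff_eq_zero_of_lt_order
    have : (1 : ℤ) ≤ j := by exact_mod_cast h1
    linarith
  rw [e1, e2, sub_zero]


theorem fser_coeff_odd (F : ℕ →₀ K) (l : Fin 2) (i : ℕ) :
    (fser F l).coeff (-(2 * (i : ℤ) + 1)) = F (2 * i + l) := by
  unfold fser
  rw [HahnSeries.coeff_sum]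
  by_cases hr : i ∈ Finset.range (F.support.sup id + 1)
  · rw [Finset.sum_eq_single i]
    · exact HahnSeries.coeff_single_same _ _
    · intro b _ hb
      exact HahnSeries.coeff_single_of_ne (by omega)
    · exact fun h => absurd hr h
  · have h0 : F (2 * i + l) = 0 := by
      by_contra h
      have h2 := Finset.le_sup (f := id) (Finsupp.mem_support_iff.2 h)
      rw [Finset.mem_range] at hr
      simp only [id] at h2
      have h4 : F.support.sup id = F.support.sup (fun x => x) := rfl
      omega
    rw [h0]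
    refine Finset.sum_eq_zero fun b hb => HahnSeries.coeff_single_of_ne ?_
    intro h
    have : i = b := by omega
    exact hr (this ▸ hb)

theorem fser_coeff_zero (F : ℕ →₀ K) (l : Fin 2) (n : ℤ) (hn : ∀ i : ℕ, n ≠ -(2 * (i : ℤ) + 1)) :
    (fser F l).coeff n = 0 := by
  unfold fser
  rw [HahnSeries.coeff_sum]
  exact Finset.sum_eq_zero fun b _ => HahnSeries.coeff_single_of_ne (hn b)

theorem torsor_param_sum (c : ℕ →₀ K) (n : ℤ) (h0 : c 0 = 0) :
    (c.sum (fun j a => (HahnSeries.single (-(j : ℤ)) a : LaurentSeries K))).coeff n =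
      if n < 0 then c n.natAbs else 0 := by
  rw [Finsupp.sum, HahnSeries.coeff_sum]
  have h1 : ∀ j ∈ c.support, (HahnSeries.single (-(j:ℤ)) (c j) : LaurentSeries K).coeff n =
      if n = -(j:ℤ) then c j else 0 := by
    intro j _
    split_ifs with hn
    · rw [hn]; exact HahnSeries.coeff_single_same _ _
    · exact HahnSeries.coeff_single_of_ne hn
  rw [Finset.sum_congr rfl h1]
  split_ifs with hn
  · rw [Finset.sum_eq_single n.natAbs]
    · rw [if_pos (by omega)]
    · intro j _ hj
      rw [if_neg (by omega)]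
    · intro hns
      rw [Finsupp.notMem_support_iff.1 hns]; simp
  · apply Finset.sum_eq_zero
    intro j hj
    have hj0 : j ≠ 0 := by
      rintro rfl
      exact (Finsupp.mem_support_iff.1 hj) h0
    rw [if_neg (by omega)]

theorem coef_surj (c : Fin 2 → ℕ →₀ K) :
    ∃ F : ℕ →₀ K, ∀ (l : Fin 2) (i : ℕ), F (2 * i + l) = c l (2 * i + 1) := by
  set M : ℕ := ∑ l : Fin 2, (c l).support.sup id with hM
  have hMle : ∀ l j, c l j ≠ 0 → j ≤ M := by
    intro l j hj
    have h1 : j ∈ (c l).support := Finsupp.mem_support_iff.mpr hj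
    have h2 : j ≤ (c l).support.sup id := Finset.le_sup (f := id) h1
    have h3 : (c l).support.sup id ≤ M :=
      Finset.single_le_sum (f := fun l : Fin 2 => (c l).support.sup id)
        (fun _ _ => Nat.zero_le _) (Finset.mem_univ l)
    exact h2.trans h3
  let f : ℕ → K := fun i => c ⟨i % 2, Nat.mod_lt _ (by norm_num)⟩ (2 * (i / 2) + 1)
  have hf : ∀ i, f i ≠ 0 → i ∈ Finset.range (M + 1) := by
    intro i hi
    have := hMle _ _ hi
    rw [Finset.mem_range]
    omega
  refine ⟨Finsupp.onFinset (Finset.range (M + 1)) f hf, ?_⟩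
  intro l i
  simp only [Finsupp.onFinset_apply]
  have e1 : (⟨(2 * i + (l : ℕ)) % 2, Nat.mod_lt _ (by norm_num)⟩ : Fin 2) = l := by
    apply Fin.ext
    have := l.2
    show (2 * i + (l : ℕ)) % 2 = l
    omega
  have e2 : (2 * i + (l : ℕ)) / 2 = i := by
    have := l.2
    omega
  change c ⟨(2 * i + (l : ℕ)) % 2, _⟩ (2 * ((2 * i + (l : ℕ)) / 2) + 1) = _
  rw [e1, e2]

theorem torsor_param (f : Fin 2 → LaurentSeries K) :
    ∃! F : ℕ →₀ K, ∃ h : Fin 2 → LaurentSeries K, ∀ l, f l - fser F l = h l ^ 2 - h l := by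
  choose c h hc hh using fun l => as_exists (f l)
  obtain ⟨F, hF⟩ := coef_surj c
  have hc0 : ∀ l, c l 0 = 0 := by
    intro l
    by_contra h0
    have := (hc l 0 h0).1
    omega
  have hev : ∀ l j, 2 ∣ j → c l j = 0 := by
    intro l j hj
    by_contra h0
    exact (hc l j h0).2 hj
  have hfs : ∀ l, fser F l = (c l).sum (fun j a => HahnSeries.single (-(j : ℤ)) a) := by
    intro l
    ext n
    rw [torsor_param_sum _ _ (hc0 l)]
    by_cases hn : ∃ i : ℕ, n = -(2 * (i : ℤ) + 1)
    · obtain ⟨i, rfl⟩ := hn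
      rw [fser_coeff_odd, if_pos (by omega), hF l i]
      congr 1
    · push Not at hn
      rw [fser_coeff_zero F l n hn]
      split_ifs with h1
      · rw [hev l]
        by_contra h2
        exact hn ((n.natAbs - 1) / 2) (by omega)
      · rfl
  refine ⟨F, ⟨h, fun l => ?_⟩, ?_⟩
  · rw [hfs l]; exact hh l
  · rintro F' ⟨h', hh'⟩
    have key : ∀ (l : Fin 2) (i : ℕ), F' (2 * i + l) = F (2 * i + l) := by
      intro l i
      have hfin : ∀ j : ℕ, (if j % 2 = 1 then (F' (2 * (j / 2) + l) - F (2 * (j / 2) + l)) else 0) ≠ 0 →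
          j ∈ Finset.range (F.support.sup id + F'.support.sup id + 2) := by
        intro j hj
        rw [Finset.mem_range]
        have e0 : F.support.sup id = F.support.sup (fun x => x) := rfl
        have e1 : F'.support.sup id = F'.support.sup (fun x => x) := rfl
        by_cases h1 : j % 2 = 1
        · rw [if_pos h1] at hj
          by_cases h2 : F (2 * (j / 2) + l) = 0
          · rw [h2, sub_zero] at hj
            have := Finset.le_sup (f := id) (Finsupp.mem_support_iff.2 hj)
            simp only [id] at this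
            omega
          · have := Finset.le_sup (f := id) (Finsupp.mem_support_iff.2 h2)
            simp only [id] at this
            omega
        · rw [if_neg h1] at hj
          exact absurd rfl hj
      obtain ⟨D, hD⟩ : ∃ D : ℕ →₀ K, ∀ j, D j =
          if j % 2 = 1 then (F' (2 * (j / 2) + l) - F (2 * (j / 2) + l)) else 0 :=
        ⟨Finsupp.onFinset _ _ hfin, fun j => rfl⟩
      have hD0 : D 0 = 0 := by rw [hD]; simp
      have hsum : D.sum (fun j a => HahnSeries.single (-(j : ℤ)) a) = fser F' l - fser F l := by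
        ext n
        rw [torsor_param_sum _ _ hD0, HahnSeries.coeff_sub]
        by_cases hn : ∃ i : ℕ, n = -(2 * (i : ℤ) + 1)
        · obtain ⟨i, rfl⟩ := hn
          rw [fser_coeff_odd, fser_coeff_odd, if_pos (by omega), hD, if_pos (by omega)]
          have e3 : (-(2 * (i : ℤ) + 1)).natAbs / 2 = i := by omega
          rw [e3]
        · push Not at hn
          rw [fser_coeff_zero F l n hn, fser_coeff_zero F' l n hn, sub_zero]
          split_ifs with h1
          · rw [hD, if_neg]
            intro h2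
            exact hn (n.natAbs / 2) (by omega)
          · rfl
      have h3 : (2 : LaurentSeries K) = 0 := by
        have := CharP.cast_eq_zero (LaurentSeries K) 2
        exact_mod_cast this
      have hz : D = 0 := by
        refine as_unique D (h l - h' l) ?_ ?_
        · intro j hj
          rw [hD] at hj
          by_cases h1 : j % 2 = 1
          · exact ⟨by omega, by omega⟩
          · rw [if_neg h1] at hj
            exact absurd rfl hj
        · rw [hsum]
          have e1 := hh l
          rw [← hfs l] at e1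
          have e2 := hh' l
          linear_combination e1 - e2 + (h l * h' l - h' l ^ 2) * h3
      have h6 := hD (2 * i + 1)
      rw [hz, if_pos (by omega)] at h6
      simp only [Finsupp.coe_zero, Pi.zero_apply] at h6
      have e4 : (2 * i + 1) / 2 = i := by omega
      rw [e4] at h6
      exact (sub_eq_zero.1 h6.symm)
    apply Finsupp.ext
    intro i
    have h7 := key ⟨i % 2, Nat.mod_lt _ (by norm_num)⟩ (i / 2)
    have h8 : 2 * (i / 2) + ((⟨i % 2, Nat.mod_lt _ (by norm_num)⟩ : Fin 2) : ℕ) = i := by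
      show 2 * (i / 2) + i % 2 = i
      omega
    rwa [h8] at h7

end Pool.Agent.H947R2.WR
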