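import Pool.Agent.H947R2.WRSer
import Pool.Agent.H947R2.WRTors

/-! # Convergence, and no finite sum with single denominators -/

namespace Pool.Agent.H947R2.WR

open MvPolynomial

/-! ### Convergence -/

theorem converges_gen (m : ℤ) (b : ℕ) (hb : (12 * m + 144).toNat ≤ b) :
    FreeAbelianGroup.of (⟨b / 6, levelY b, constr_levelY b, 4 * 12 - (b : ℤ)⟩ : Gen) ∈ Fil m := by
  apply AddSubgroup.subset_closure
  refine ⟨⟨b / 6, levelY b, constr_levelY b, 4 * 12 - (b : ℤ)⟩, b / 6, ?_, ?_, rfl⟩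
  · refine (ringKrullDim_quotient_le _).trans ?_
    rw [MvPolynomial.ringKrullDim_of_isNoetherianRing, ringKrullDim_eq_zero_of_field, zero_add,
      Nat.card_eq_fintype_card, Fintype.card_fin]
  · show 4 * ((b / 6 : ℕ) : ℤ) + (4 * 12 - (b : ℤ)) ≤ -(4 * m)
    have : 12 * m + 144 ≤ (b : ℤ) := by omega
    omega

theorem converges_aux (m : ℤ) (n : ℕ) (hn : (12 * m + 144).toNat ≤ n) :
    stringy n - stringy (12 * m + 144).toNat ∈ Fil m := by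
  induction n, hn using Nat.le_induction with
  | base => rw [sub_self]; exact (Fil m).zero_mem
  | succ n hn ih =>
    have h1 : stringy (n + 1) - stringy (12 * m + 144).toNat =
        (stringy n - stringy (12 * m + 144).toNat) +
        FreeAbelianGroup.of (⟨(n + 1) / 6, levelY (n + 1), constr_levelY (n + 1),
          4 * 12 - ((n + 1 : ℕ) : ℤ)⟩ : Gen) := by
      unfold stringy
      rw [Finset.sum_range_succ (fun b => FreeAbelianGroup.of (⟨b / 6, levelY b, constr_levelY b,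
          4 * 12 - (b : ℤ)⟩ : Gen)) (n + 1)]
      abel
    rw [h1]
    exact (Fil m).add_mem ih (converges_gen m (n + 1) (by omega))

theorem converges : ConvergesMod relSub stringy := by
  intro m
  refine ⟨(12 * m + 144).toNat, fun n hn n' hn' => ?_⟩
  apply (le_sup_right : Fil m ≤ relSub ⊔ Fil m)
  have h := (Fil m).sub_mem (converges_aux m n hn) (converges_aux m n' hn')
  rwa [sub_sub_sub_cancel_right] at h

/-! ### No finite sum -/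

theorem geom (w : ℝ) (hw0 : 0 < w) (hw : 2 ≤ w) (n : ℕ) :
    ∑ r ∈ Finset.range n, (w⁻¹) ^ (r + 1) = (w - 1)⁻¹ - (w⁻¹) ^ n * (w - 1)⁻¹ := by
  have hw1 : w - 1 ≠ 0 := by intro h; linarith
  induction n with
  | zero => simp
  | succ n ih =>
    rw [Finset.sum_range_succ, ih, pow_succ]
    field_simp
    ring

theorem mu_shift_sum (j n a : ℕ) (ha : 0 < a) (z : FreeAbelianGroup Gen) :
    mu j (∑ r ∈ Finset.range n, shift (-(((r + 1) * a : ℕ) : ℤ)) z) =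
      mu j z * ((y j : ℝ) ^ a - 1)⁻¹ - mu j z * ((((y j : ℝ) ^ a)⁻¹) ^ n * ((y j : ℝ) ^ a - 1)⁻¹) := by
  have hy0 : (0 : ℝ) < (y j : ℝ) := by exact_mod_cast y_pos j
  have hy2 : (2 : ℝ) ≤ (y j : ℝ) := by
    have : 2 ≤ y j := by
      unfold y
      calc 2 = 2 ^ 1 := by norm_num
        _ ≤ 2 ^ j.factorial := Nat.pow_le_pow_right (by norm_num) (Nat.factorial_pos j)
    exact_mod_cast this
  have hya : (2 : ℝ) ≤ (y j : ℝ) ^ a := by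
    calc (2 : ℝ) ≤ (y j : ℝ) := hy2
      _ = (y j : ℝ) ^ 1 := (pow_one _).symm
      _ ≤ (y j : ℝ) ^ a := pow_le_pow_right₀ (by linarith) ha
  rw [map_sum]
  have h1 : ∀ r ∈ Finset.range n, mu j (shift (-(((r + 1) * a : ℕ) : ℤ)) z) =
      mu j z * (((y j : ℝ) ^ a)⁻¹) ^ (r + 1) := by
    intro r _
    rw [mu_shift, zpow_neg, zpow_natCast, inv_pow, ← pow_mul, mul_comm a (r + 1), mul_comm]
  rw [Finset.sum_congr rfl h1, ← Finset.mul_sum, geom _ (by positivity) hya]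
  ring

theorem y_ge_two (j : ℕ) : (2 : ℝ) ≤ (y j : ℝ) := by
  have : 2 ≤ y j := by
    unfold y
    calc 2 = 2 ^ 1 := by norm_num
      _ ≤ 2 ^ j.factorial := Nat.pow_le_pow_right (by norm_num) (Nat.factorial_pos j)
  exact_mod_cast this

theorem unif {N : ℕ} (z : Fin N → FreeAbelianGroup Gen) : ∃ (B : ℕ) (C : ℝ) (j₀ : ℕ), 0 ≤ C ∧
    ∀ i, ∀ j ≥ j₀, (∃ t : ℤ, mu j (z i) * (y j : ℝ) ^ B = t) ∧ |mu j (z i)| ≤ C * (y j : ℝ) ^ B := by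
  choose B C j₀ h using fun i => mu_int (z i)
  refine ⟨∑ i, B i, ∑ i, |C i|, ∑ i, j₀ i, Finset.sum_nonneg fun _ _ => abs_nonneg _, ?_⟩
  intro i j hj
  have h1 : j₀ i ≤ ∑ i, j₀ i := Finset.single_le_sum (f := j₀) (fun _ _ => Nat.zero_le _) (Finset.mem_univ i)
  have h2 : B i ≤ ∑ i, B i := Finset.single_le_sum (f := B) (fun _ _ => Nat.zero_le _) (Finset.mem_univ i)
  have h3 : |C i| ≤ ∑ i, |C i| :=
    Finset.single_le_sum (f := fun i => |C i|) (fun _ _ => abs_nonneg _) (Finset.mem_univ i)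
  obtain ⟨⟨t, ht⟩, hb⟩ := h i j (h1.trans hj)
  have hy := y_ge_two j
  constructor
  · refine ⟨t * (y j : ℤ) ^ (∑ i, B i - B i), ?_⟩
    push_cast
    rw [← ht, mul_assoc, ← pow_add]
    congr 2
    omega
  · refine hb.trans ?_
    refine mul_le_mul ((le_abs_self _).trans h3) ?_ (by positivity) ?_
    · exact pow_le_pow_right₀ (by linarith) h2
    · exact Finset.sum_nonneg fun _ _ => abs_nonneg _

theorem approx (R : AddSubgroup (FreeAbelianGroup Gen))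
    (hR : ∀ x ∈ R, ∃ j₀, ∀ j ≥ j₀, mu j x = 0) {N : ℕ} (z : Fin N → FreeAbelianGroup Gen)
    (a : Fin N → ℕ) (ha : ∀ i, 0 < a i)
    (h : ∀ m : ℤ, ∃ n₀, ∀ n ≥ n₀,
      stringy n - ∑ i, ∑ r ∈ Finset.range n, shift (-(((r + 1) * a i : ℕ) : ℤ)) (z i) ∈ R ⊔ Fil m)
    (M : ℕ) : ∃ (C : ℝ) (j₀ : ℕ), ∀ j ≥ j₀,
      |sig (q j) - ∑ i, mu j (z i) * ((y j : ℝ) ^ a i - 1)⁻¹| ≤ C * ((y j : ℝ)⁻¹) ^ M := by
  obtain ⟨B, C, j₁, hC, hB⟩ := unif z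
  obtain ⟨n₀, hn⟩ := h M
  obtain ⟨n, hn0, hn1, hn2⟩ : ∃ n, n₀ ≤ n ∧ 12 * (M + 48) ≤ n ∧ M + B ≤ n :=
    ⟨n₀ + 12 * (M + 48) + (M + B), by omega, by omega, by omega⟩
  obtain ⟨u, hu, v, hv, huv⟩ := AddSubgroup.mem_sup.1 (hn n hn0)
  obtain ⟨j₂, hj2⟩ := hR u hu
  obtain ⟨C₃, j₃, hj3⟩ := mu_fil M v hv
  refine ⟨2 + |C₃| + N * C, max j₁ (max j₂ j₃), fun j hj => ?_⟩
  have hja : j₁ ≤ j := le_trans (le_max_left _ _) hj
  have hjb : j₂ ≤ j := le_trans (le_max_left _ _) (le_trans (le_max_right _ _) hj)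
  have hjc : j₃ ≤ j := le_trans (le_max_right _ _) (le_trans (le_max_right _ _) hj)
  have hy2 := y_ge_two j
  have hy0 : (0 : ℝ) < (y j : ℝ) := by linarith
  have hyinv : 0 < (y j : ℝ)⁻¹ := by positivity
  have hyle : (y j : ℝ)⁻¹ ≤ 1 := inv_le_one_of_one_le₀ (by linarith)
  -- first part
  have e1 : |sig (q j) - mu j (stringy n)| ≤ 2 * ((y j : ℝ)⁻¹) ^ M := by
    rw [mu_stringy_eq]
    refine (tail_bound (q j) (q_ge_two j) (n / 12 + 1)).trans ?_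
    have hq : (q j : ℝ) = (y j : ℝ) ^ 4 := by rw [y_pow_four]; push_cast; rfl
    rw [mul_assoc, hq, one_div, ← inv_pow, ← pow_mul, ← pow_mul]
    refine mul_le_mul_of_nonneg_left ?_ (by norm_num)
    have e4 : ((y j : ℝ)⁻¹) ^ (4 * (n / 12 + 1)) ≤ ((y j : ℝ)⁻¹) ^ (48 + M) :=
      pow_le_pow_of_le_one hyinv.le hyle (by omega)
    calc (y j : ℝ) ^ (4 * 12) * ((y j : ℝ)⁻¹) ^ (4 * (n / 12 + 1))
        ≤ (y j : ℝ) ^ (4 * 12) * ((y j : ℝ)⁻¹) ^ (48 + M) :=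
          mul_le_mul_of_nonneg_left e4 (by positivity)
      _ = ((y j : ℝ)⁻¹) ^ M := by
          rw [pow_add, ← mul_assoc, ← mul_pow, mul_inv_cancel₀ hy0.ne', one_pow, one_mul]
  -- second part
  have e2 : |mu j (stringy n) - mu j (∑ i, ∑ r ∈ Finset.range n,
      shift (-(((r + 1) * a i : ℕ) : ℤ)) (z i))| ≤ |C₃| * ((y j : ℝ)⁻¹) ^ M := by
    rw [← map_sub, ← huv, map_add, hj2 j hjb, zero_add]
    refine (hj3 j hjc).trans ?_
    refine mul_le_mul (le_abs_self _) ?_ (by positivity) (abs_nonneg _)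
    rw [zpow_neg, show (4 * (M : ℤ)) = ((4 * M : ℕ) : ℤ) by push_cast; ring, zpow_natCast,
      ← inv_pow]
    exact pow_le_pow_of_le_one hyinv.le hyle (by omega)
  -- third part
  have e3 : |mu j (∑ i, ∑ r ∈ Finset.range n, shift (-(((r + 1) * a i : ℕ) : ℤ)) (z i)) -
      ∑ i, mu j (z i) * ((y j : ℝ) ^ a i - 1)⁻¹| ≤ N * C * ((y j : ℝ)⁻¹) ^ M := by
    rw [map_sum, ← Finset.sum_sub_distrib]
    refine (Finset.abs_sum_le_sum_abs _ _).trans ?_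
    have : ∀ i ∈ (Finset.univ : Finset (Fin N)),
        |mu j (∑ r ∈ Finset.range n, shift (-(((r + 1) * a i : ℕ) : ℤ)) (z i)) -
          mu j (z i) * ((y j : ℝ) ^ a i - 1)⁻¹| ≤ C * ((y j : ℝ)⁻¹) ^ M := by
      intro i _
      have hya : (2 : ℝ) ≤ (y j : ℝ) ^ a i := by
        calc (2 : ℝ) ≤ (y j : ℝ) := hy2
          _ = (y j : ℝ) ^ 1 := (pow_one _).symm
          _ ≤ (y j : ℝ) ^ a i := pow_le_pow_right₀ (by linarith) (ha i)
      have hpos : 0 < (y j : ℝ) ^ a i - 1 := by linarith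
      rw [mu_shift_sum j n (a i) (ha i), sub_right_comm, sub_self, zero_sub, abs_neg, abs_mul,
        abs_of_nonneg (a := (((y j : ℝ) ^ a i)⁻¹) ^ n * ((y j : ℝ) ^ a i - 1)⁻¹) (by positivity)]
      have h5 := (hB i j hja).2
      have h6 : ((y j : ℝ) ^ a i - 1)⁻¹ ≤ 1 := inv_le_one_of_one_le₀ (by linarith)
      have h7 : (((y j : ℝ) ^ a i)⁻¹) ^ n ≤ ((y j : ℝ)⁻¹) ^ (B + M) := by
        rw [← inv_pow, ← pow_mul]
        refine pow_le_pow_of_le_one hyinv.le hyle ?_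
        have := Nat.le_mul_of_pos_left n (ha i)
        omega
      calc |mu j (z i)| * ((((y j : ℝ) ^ a i)⁻¹) ^ n * ((y j : ℝ) ^ a i - 1)⁻¹)
          ≤ (C * (y j : ℝ) ^ B) * (((y j : ℝ)⁻¹) ^ (B + M) * 1) := by
            refine mul_le_mul h5 ?_ (by positivity) (by positivity)
            exact mul_le_mul h7 h6 (by positivity) (by positivity)
        _ = C * ((y j : ℝ)⁻¹) ^ M := by
            rw [mul_one, pow_add, mul_assoc, ← mul_assoc ((y j : ℝ) ^ B), ← mul_pow,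
              mul_inv_cancel₀ hy0.ne', one_pow, one_mul]
    refine (Finset.sum_le_sum this).trans ?_
    rw [Finset.sum_const, Finset.card_univ, Fintype.card_fin, nsmul_eq_mul]
    linarith
  have e4 := abs_sub_le (sig (q j)) (mu j (stringy n)) (∑ i, mu j (z i) * ((y j : ℝ) ^ a i - 1)⁻¹)
  have e5 := abs_sub_le (mu j (stringy n)) (mu j (∑ i, ∑ r ∈ Finset.range n,
      shift (-(((r + 1) * a i : ℕ) : ℤ)) (z i))) (∑ i, mu j (z i) * ((y j : ℝ) ^ a i - 1)⁻¹)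
  calc _ ≤ _ := e4
    _ ≤ 2 * ((y j : ℝ)⁻¹) ^ M + (|C₃| * ((y j : ℝ)⁻¹) ^ M + N * C * ((y j : ℝ)⁻¹) ^ M) :=
        add_le_add e1 (e5.trans (add_le_add e2 e3))
    _ = (2 + |C₃| + N * C) * ((y j : ℝ)⁻¹) ^ M := by ring

/-- `(y^A - 1) / (y^a - 1)` for `a ∣ A` -/
theorem geom_div (w : ℕ) (hw : 2 ≤ w) (a k : ℕ) (ha : 0 < a) :
    ((w : ℝ) ^ (a * k) - 1) * ((w : ℝ) ^ a - 1)⁻¹ = ((∑ r ∈ Finset.range k, (w ^ a) ^ r : ℕ) : ℝ) := by
  have hw2 : (2 : ℝ) ≤ w := by exact_mod_cast hw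
  have hya : (2 : ℝ) ≤ (w : ℝ) ^ a := by
    calc (2 : ℝ) ≤ (w : ℝ) := hw2
      _ = (w : ℝ) ^ 1 := (pow_one _).symm
      _ ≤ (w : ℝ) ^ a := pow_le_pow_right₀ (by linarith) ha
  have hne : (w : ℝ) ^ a - 1 ≠ 0 := by intro h; linarith
  have h1 := geom_sum_mul ((w : ℝ) ^ a) k
  rw [pow_mul, ← h1]
  push_cast
  field_simp

theorem int_zero (t : ℤ) (h : |(t : ℝ)| < 1) : t = 0 := by
  have : |t| < 1 := by exact_mod_cast h
  exact Int.abs_lt_one_iff.1 this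

/-- the arithmetic contradiction -/
theorem arith (w B k : ℕ) (hk : 0 < k) (hw : 2 * k < w ^ 4 + 1) (hw1 : 1 < w) (t : ℤ)
    (h : (w : ℤ) ^ B * ((w : ℤ) ^ (8 * k) - 1) * (((w : ℤ) ^ 4) ^ 10 *
      (((w : ℤ) ^ 4) ^ 2 + (w : ℤ) ^ 4 + 1) ^ 2) = ((w : ℤ) ^ 4 + 1) ^ 2 * t) : False := by
  have hcop : IsCoprime ((w : ℤ) ^ 4 + 1) (w : ℤ) := ⟨1, -(w : ℤ) ^ 3, by ring⟩
  have hcop2 : IsCoprime ((w : ℤ) ^ 4 + 1) (((w : ℤ) ^ 4) ^ 2 + (w : ℤ) ^ 4 + 1) :=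
    ⟨-(w : ℤ) ^ 4, 1, by ring⟩
  have hd : ((w : ℤ) ^ 4 + 1) ^ 2 ∣ (w : ℤ) ^ B * ((w : ℤ) ^ (8 * k) - 1) * (((w : ℤ) ^ 4) ^ 10 *
      (((w : ℤ) ^ 4) ^ 2 + (w : ℤ) ^ 4 + 1) ^ 2) := ⟨t, h⟩
  have c1 : IsCoprime (((w : ℤ) ^ 4 + 1) ^ 2) (((w : ℤ) ^ 4) ^ 10 *
      (((w : ℤ) ^ 4) ^ 2 + (w : ℤ) ^ 4 + 1) ^ 2) := by
    apply IsCoprime.pow_left
    apply IsCoprime.mul_right
    · exact (hcop.pow_right).pow_right
    · exact hcop2.pow_right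
  have d1 := c1.dvd_of_dvd_mul_right hd
  have c2 : IsCoprime (((w : ℤ) ^ 4 + 1) ^ 2) ((w : ℤ) ^ B) := (hcop.pow_right).pow_left
  have d2 := c2.dvd_of_dvd_mul_left d1
  -- (w^4+1)^2 ∣ w^(8k) - 1 = (w^4-1)(w^4+1) S
  have h3 : (w : ℤ) ^ (8 * k) - 1 = ((w : ℤ) ^ 4 + 1) *
      (((w : ℤ) ^ 4 - 1) * ∑ r ∈ Finset.range k, ((w : ℤ) ^ 8) ^ r) := by
    have := geom_sum_mul ((w : ℤ) ^ 8) k
    rw [pow_mul, ← this]
    ring
  have hne : (w : ℤ) ^ 4 + 1 ≠ 0 := by positivity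
  rw [h3, pow_two] at d2
  have d3 := Int.dvd_of_mul_dvd_mul_left hne d2
  have m1 : (w : ℤ) ^ 4 ≡ -1 [ZMOD (w : ℤ) ^ 4 + 1] := by
    apply Int.ModEq.symm
    rw [Int.modEq_iff_dvd]
    exact ⟨1, by ring⟩
  have m2 : (w : ℤ) ^ 8 ≡ 1 [ZMOD (w : ℤ) ^ 4 + 1] := by
    have := m1.pow 2
    rw [← pow_mul] at this
    simpa using this
  have m3 : ∑ r ∈ Finset.range k, ((w : ℤ) ^ 8) ^ r ≡ ∑ r ∈ Finset.range k, (1 : ℤ)
      [ZMOD (w : ℤ) ^ 4 + 1] := by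
    apply Int.ModEq.sum
    intro r _
    have := m2.pow r
    simpa using this
  have m4 : ((w : ℤ) ^ 4 - 1) * ∑ r ∈ Finset.range k, ((w : ℤ) ^ 8) ^ r ≡ (-1 - 1) * (k : ℤ)
      [ZMOD (w : ℤ) ^ 4 + 1] := by
    apply Int.ModEq.mul (Int.ModEq.sub_right 1 m1)
    simpa using m3
  have d4 : (w : ℤ) ^ 4 + 1 ∣ (-1 - 1) * (k : ℤ) := m4.dvd_iff.1 d3
  have d5 : (w : ℤ) ^ 4 + 1 ∣ 2 * (k : ℤ) := by
    have := (dvd_neg (a := (w : ℤ) ^ 4 + 1)).2 d4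
    have e : -((-1 - 1) * (k : ℤ)) = 2 * (k : ℤ) := by ring
    rwa [e] at this
  have := Int.le_of_dvd (by positivity) d5
  have hw' : (2 : ℤ) * k < (w : ℤ) ^ 4 + 1 := by exact_mod_cast hw
  linarith

theorem not_finite (R : AddSubgroup (FreeAbelianGroup Gen))
    (hR : ∀ x ∈ R, ∃ j₀, ∀ j ≥ j₀, mu j x = 0) : ¬ FiniteSumMod R stringy := by
  rintro ⟨N, z, a, ha, h⟩
  obtain ⟨B, C₁, j₁, hC₁, hB⟩ := unif z
  obtain ⟨k, hk⟩ : ∃ k, k = ∏ i, a i := ⟨_, rfl⟩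
  have hk0 : 0 < k := by
    rw [hk]
    exact Finset.prod_pos fun i _ => ha i
  have hdvd : ∀ i, a i ∣ 8 * k := fun i => by
    rw [hk]
    exact Dvd.dvd.mul_left (Finset.dvd_prod_of_mem a (Finset.mem_univ i)) 8
  choose kk hkk using hdvd
  obtain ⟨C, j₀, hC⟩ := approx R hR z a ha h (8 + B + 8 * k + 1)
  -- choose j large
  obtain ⟨j, hj0, hj1, hjC, hjk⟩ : ∃ j, j₀ ≤ j ∧ j₁ ≤ j ∧ 4 * |C| < (y j : ℝ) ∧ 2 * k < y j := by
    obtain ⟨X, hX⟩ := exists_nat_gt (4 * |C|)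
    refine ⟨j₀ + j₁ + X + 2 * k, by omega, by omega, ?_, ?_⟩
    · have h1 : X ≤ y (j₀ + j₁ + X + 2 * k) := by
        unfold y
        calc X ≤ j₀ + j₁ + X + 2 * k := by omega
          _ ≤ (j₀ + j₁ + X + 2 * k).factorial := Nat.self_le_factorial _
          _ ≤ 2 ^ (j₀ + j₁ + X + 2 * k).factorial := Nat.lt_two_pow_self.le
      have h2 : (X : ℝ) ≤ (y (j₀ + j₁ + X + 2 * k) : ℝ) := by exact_mod_cast h1
      linarith
    · unfold y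
      calc 2 * k ≤ j₀ + j₁ + X + 2 * k := by omega
          _ ≤ (j₀ + j₁ + X + 2 * k).factorial := Nat.self_le_factorial _
          _ < 2 ^ (j₀ + j₁ + X + 2 * k).factorial := Nat.lt_two_pow_self
  have hy2 := y_ge_two j
  have hy2' : 2 ≤ y j := by exact_mod_cast hy2
  have hy0 : (0 : ℝ) < (y j : ℝ) := by linarith
  have hq : (q j : ℝ) = (y j : ℝ) ^ 4 := by rw [y_pow_four]; push_cast; rfl
  -- the integers
  choose t ht using fun i => (hB i j hj1).1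
  obtain ⟨D, hD⟩ : ∃ D : ℤ, D = (y j : ℤ) ^ B * ((y j : ℤ) ^ (8 * k) - 1) * (((y j : ℤ) ^ 4) ^ 10 *
      (((y j : ℤ) ^ 4) ^ 2 + (y j : ℤ) ^ 4 + 1) ^ 2) - ((y j : ℤ) ^ 4 + 1) ^ 2 *
        ∑ i, t i * ((∑ r ∈ Finset.range (kk i), (y j ^ a i) ^ r : ℕ) : ℤ) := ⟨_, rfl⟩
  have hDr : (D : ℝ) = ((y j : ℝ) ^ 4 + 1) ^ 2 * (y j : ℝ) ^ B * ((y j : ℝ) ^ (8 * k) - 1) *
      (sig (q j) - ∑ i, mu j (z i) * ((y j : ℝ) ^ a i - 1)⁻¹) := by
    rw [mul_sub, hD]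
    push_cast
    congr 1
    · unfold sig
      rw [hq]
      have : (y j : ℝ) ^ 4 + 1 ≠ 0 := by positivity
      field_simp
    · rw [Finset.mul_sum, Finset.mul_sum]
      refine Finset.sum_congr rfl fun i _ => ?_
      have h1 := geom_div (y j) hy2' (a i) (kk i) (ha i)
      rw [← hkk i] at h1
      push_cast at h1
      rw [← h1, ← ht i]
      ring
  have hDlt : |(D : ℝ)| < 1 := by
    rw [hDr, abs_mul]
    have e1 := hC j hj0
    have hA : (1 : ℝ) ≤ (y j : ℝ) ^ (8 * k) := one_le_pow₀ (by linarith)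
    have hA' : 0 ≤ (y j : ℝ) ^ (8 * k) - 1 := by linarith
    rw [abs_of_nonneg (a := ((y j : ℝ) ^ 4 + 1) ^ 2 * (y j : ℝ) ^ B * ((y j : ℝ) ^ (8 * k) - 1))
      (by positivity)]
    have e2 : ((y j : ℝ) ^ 4 + 1) ^ 2 ≤ 4 * (y j : ℝ) ^ 8 := by
      have : (1 : ℝ) ≤ (y j : ℝ) ^ 4 := one_le_pow₀ (by linarith)
      nlinarith
    have e3 : ((y j : ℝ) ^ 4 + 1) ^ 2 * (y j : ℝ) ^ B * ((y j : ℝ) ^ (8 * k) - 1) ≤
        4 * (y j : ℝ) ^ 8 * (y j : ℝ) ^ B * (y j : ℝ) ^ (8 * k) := by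
      refine mul_le_mul (mul_le_mul_of_nonneg_right e2 (by positivity)) (by linarith) hA'
        (by positivity)
    calc _ ≤ (4 * (y j : ℝ) ^ 8 * (y j : ℝ) ^ B * (y j : ℝ) ^ (8 * k)) *
          (|C| * ((y j : ℝ)⁻¹) ^ (8 + B + 8 * k + 1)) := by
          refine mul_le_mul e3 (e1.trans ?_) (abs_nonneg _) (by positivity)
          exact mul_le_mul_of_nonneg_right (le_abs_self _) (by positivity)
      _ = 4 * |C| * (y j : ℝ)⁻¹ := by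
          rw [pow_succ, pow_add, pow_add]
          have h8 : (y j : ℝ) ^ 8 * ((y j : ℝ)⁻¹) ^ 8 = 1 := by
            rw [← mul_pow, mul_inv_cancel₀ hy0.ne', one_pow]
          have hB' : (y j : ℝ) ^ B * ((y j : ℝ)⁻¹) ^ B = 1 := by
            rw [← mul_pow, mul_inv_cancel₀ hy0.ne', one_pow]
          have hA'' : (y j : ℝ) ^ (8 * k) * ((y j : ℝ)⁻¹) ^ (8 * k) = 1 := by
            rw [← mul_pow, mul_inv_cancel₀ hy0.ne', one_pow]
          calc _ = ((y j : ℝ) ^ 8 * ((y j : ℝ)⁻¹) ^ 8) * ((y j : ℝ) ^ B * ((y j : ℝ)⁻¹) ^ B) *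
                ((y j : ℝ) ^ (8 * k) * ((y j : ℝ)⁻¹) ^ (8 * k)) * (4 * |C| * (y j : ℝ)⁻¹) := by
                  ring
            _ = _ := by rw [h8, hB', hA'']; ring
      _ < 1 := by
          rw [← div_eq_mul_inv, div_lt_one hy0]
          exact hjC
  have hD0 := int_zero D hDlt
  rw [hD, sub_eq_zero] at hD0
  refine arith (y j) B k hk0 ?_ (by omega) _ hD0
  calc 2 * k < y j := hjk
    _ = y j ^ 1 := (pow_one _).symm
    _ ≤ y j ^ 4 := Nat.pow_le_pow_right (by omega) (by norm_num)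
    _ < y j ^ 4 + 1 := Nat.lt_succ_self _

end Pool.Agent.H947R2.WR
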