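import Pool.Agent.H947R2.WRLev

/-! # The power series of the point counts -/

namespace Pool.Agent.H947R2.WR

/-- the limit of the point counts of the partial sums of the stringy motive -/
noncomputable def sig (Q : ℝ) : ℝ := Q ^ 10 * (Q ^ 2 + Q + 1) ^ 2 / (Q + 1) ^ 2

/-- real version of `nu` -/
noncomputable def nur (Q : ℝ) : ℕ → ℝ
  | 0 => 1
  | a + 1 => Q ^ a * (Q - 1)

theorem nur_eq (j a : ℕ) : (nu j a : ℝ) = nur (q j) a := by
  rcases a with _ | a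
  · simp [nu, nur]
  · have h : 1 ≤ q j := Nat.one_le_iff_ne_zero.2 (cnt_bij_q_ne j)
    unfold nu nur
    push_cast [Nat.cast_sub h]
    ring

theorem nur_nonneg (Q : ℝ) (hQ : 1 ≤ Q) (a : ℕ) : 0 ≤ nur Q a := by
  rcases a with _ | a
  · simp [nur]
  · unfold nur
    have : 0 ≤ Q - 1 := by linarith
    positivity

theorem nur_le (Q : ℝ) (hQ : 1 ≤ Q) (a : ℕ) : nur Q a ≤ Q ^ a := by
  rcases a with _ | a
  · simp [nur]
  · unfold nur
    rw [pow_succ]
    have : 0 ≤ Q ^ a := by positivity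
    nlinarith

theorem hasSum_nur (Q : ℝ) (hQ : 2 ≤ Q) :
    HasSum (fun a => nur Q a * (1 / Q ^ 3) ^ a) ((1 - 1 / Q ^ 3) / (1 - 1 / Q ^ 2)) := by
  have hQ0 : 0 < Q := by linarith
  have h1 : HasSum (fun a => nur Q (a + 1) * (1 / Q ^ 3) ^ (a + 1))
      ((1 - 1 / Q ^ 3) / (1 - 1 / Q ^ 2) - 1) := by
    have h2 : HasSum (fun a : ℕ => (1 / Q ^ 2) ^ a) (1 - 1 / Q ^ 2)⁻¹ := by
      apply hasSum_geometric_of_lt_one (by positivity)
      rw [div_lt_one (by positivity)]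
      nlinarith
    have h3 := h2.mul_left ((Q - 1) / Q ^ 3)
    have e1 : (fun a => nur Q (a + 1) * (1 / Q ^ 3) ^ (a + 1)) =
        fun a => (Q - 1) / Q ^ 3 * (1 / Q ^ 2) ^ a := by
      funext a
      unfold nur
      rw [pow_succ]
      have : (1 / Q ^ 2) ^ a = Q ^ a * (1 / Q ^ 3) ^ a := by
        rw [← mul_pow]
        congr 1
        field_simp
      rw [this]
      field_simp
    have e2 : (1 - 1 / Q ^ 3) / (1 - 1 / Q ^ 2) - 1 = (Q - 1) / Q ^ 3 * (1 - 1 / Q ^ 2)⁻¹ := by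
      have h4 : Q ^ 2 - 1 ≠ 0 := by nlinarith
      have h5 : (1 : ℝ) - 1 / Q ^ 2 = (Q ^ 2 - 1) / Q ^ 2 := by field_simp
      rw [h5]
      field_simp
      ring
    rw [e1, e2]
    exact h3
  have h6 := (hasSum_nat_add_iff (f := fun a => nur Q a * (1 / Q ^ 3) ^ a) 1).1 h1
  simpa [nur] using h6

/-- real version of `nn` -/
noncomputable def nnr (Q : ℝ) (c : ℕ) : ℝ := ∑ s ∈ Finset.range (c + 1), nur Q s * nur Q (c - s)

theorem nnr_eq (j c : ℕ) : (nn j c : ℝ) = nnr (q j) c := by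
  unfold nn nnr
  push_cast
  exact Finset.sum_congr rfl fun s _ => by rw [nur_eq, nur_eq]

theorem nnr_nonneg (Q : ℝ) (hQ : 1 ≤ Q) (c : ℕ) : 0 ≤ nnr Q c :=
  Finset.sum_nonneg fun s _ => mul_nonneg (nur_nonneg Q hQ s) (nur_nonneg Q hQ _)

theorem nnr_le (Q : ℝ) (hQ : 2 ≤ Q) (c : ℕ) : nnr Q c ≤ Q ^ (2 * c) := by
  have h1 : nnr Q c ≤ ∑ s ∈ Finset.range (c + 1), Q ^ c := by
    refine Finset.sum_le_sum fun s hs => ?_
    rw [Finset.mem_range] at hs
    calc nur Q s * nur Q (c - s) ≤ Q ^ s * Q ^ (c - s) :=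
          mul_le_mul (nur_le Q (by linarith) s) (nur_le Q (by linarith) _)
            (nur_nonneg Q (by linarith) _) (by positivity)
      _ = Q ^ c := by rw [← pow_add]; congr 1; omega
  refine h1.trans ?_
  rw [Finset.sum_const, Finset.card_range, nsmul_eq_mul, two_mul, pow_add]
  refine mul_le_mul_of_nonneg_right ?_ (by positivity)
  have h2 : (c + 1 : ℝ) ≤ 2 ^ c := by
    have := Nat.lt_two_pow_self (n := c)
    have h3 : c + 1 ≤ 2 ^ c := this
    exact_mod_cast h3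
  have h3 : (2 : ℝ) ^ c ≤ Q ^ c := pow_le_pow_left₀ (by norm_num) hQ c
  push_cast
  linarith

theorem term_le (Q : ℝ) (hQ : 2 ≤ Q) (c : ℕ) : nnr Q c * (1 / Q ^ 3) ^ c ≤ (1 / Q) ^ c := by
  have hQ0 : 0 < Q := by linarith
  calc nnr Q c * (1 / Q ^ 3) ^ c ≤ Q ^ (2 * c) * (1 / Q ^ 3) ^ c :=
        mul_le_mul_of_nonneg_right (nnr_le Q hQ c) (by positivity)
    _ = (1 / Q) ^ c := by
        rw [pow_mul, ← mul_pow]
        congr 1
        field_simp

theorem term_nonneg (Q : ℝ) (hQ : 2 ≤ Q) (c : ℕ) : 0 ≤ nnr Q c * (1 / Q ^ 3) ^ c := by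
  have hQ0 : 0 < Q := by linarith
  exact mul_nonneg (nnr_nonneg Q (by linarith) c) (by positivity)

theorem hasSum_nnr (Q : ℝ) (hQ : 2 ≤ Q) :
    HasSum (fun c => nnr Q c * (1 / Q ^ 3) ^ c)
      (((1 - 1 / Q ^ 3) / (1 - 1 / Q ^ 2)) * ((1 - 1 / Q ^ 3) / (1 - 1 / Q ^ 2))) := by
  have hQ0 : 0 < Q := by linarith
  have h1 := hasSum_nur Q hQ
  have hn : Summable fun a => ‖nur Q a * (1 / Q ^ 3) ^ a‖ := by
    have : (fun a => ‖nur Q a * (1 / Q ^ 3) ^ a‖) = fun a => nur Q a * (1 / Q ^ 3) ^ a := by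
      funext a
      rw [Real.norm_of_nonneg (mul_nonneg (nur_nonneg Q (by linarith) a) (by positivity))]
    rw [this]
    exact h1.summable
  have h2 := tsum_mul_tsum_eq_tsum_sum_range_of_summable_norm hn hn
  have h3 := summable_norm_sum_mul_range_of_summable_norm hn hn
  have h4 : (fun c => ∑ k ∈ Finset.range (c + 1),
      nur Q k * (1 / Q ^ 3) ^ k * (nur Q (c - k) * (1 / Q ^ 3) ^ (c - k))) =
      fun c => nnr Q c * (1 / Q ^ 3) ^ c := by
    funext c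
    unfold nnr
    rw [Finset.sum_mul]
    refine Finset.sum_congr rfl fun k hk => ?_
    rw [Finset.mem_range] at hk
    have : (1 / Q ^ 3) ^ c = (1 / Q ^ 3) ^ k * (1 / Q ^ 3) ^ (c - k) := by
      rw [← pow_add]; congr 1; omega
    rw [this]
    ring
  rw [h4] at h2
  have h5 : Summable fun c => nnr Q c * (1 / Q ^ 3) ^ c := by
    rw [← h4]
    exact h3.of_norm
  rw [h1.tsum_eq] at h2
  rw [h2]
  exact h5.hasSum

/-- the partial sums of the point counts are close to `sig` -/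
theorem tail_bound (Q : ℝ) (hQ : 2 ≤ Q) (C : ℕ) :
    |sig Q - Q ^ 12 * ∑ c ∈ Finset.range C, nnr Q c * (1 / Q ^ 3) ^ c| ≤
      2 * Q ^ 12 * (1 / Q) ^ C := by
  have hQ0 : 0 < Q := by linarith
  have h1 := hasSum_nnr Q hQ
  have h2 := h1.summable.sum_add_tsum_nat_add C
  rw [h1.tsum_eq] at h2
  have hs : sig Q = Q ^ 12 *
      (((1 - 1 / Q ^ 3) / (1 - 1 / Q ^ 2)) * ((1 - 1 / Q ^ 3) / (1 - 1 / Q ^ 2))) := by
    have h4 : Q - 1 ≠ 0 := by intro h; linarith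
    have h4' : Q + 1 ≠ 0 := by intro h; linarith
    have e3 : (1 : ℝ) - 1 / Q ^ 3 = (Q - 1) * (Q ^ 2 + Q + 1) / Q ^ 3 := by
      field_simp
      ring
    have e2 : (1 : ℝ) - 1 / Q ^ 2 = (Q - 1) * (Q + 1) / Q ^ 2 := by
      field_simp
      ring
    rw [e3, e2]
    unfold sig
    field_simp
  have hg : HasSum (fun c : ℕ => (1 / Q) ^ (c + C)) ((1 - 1 / Q)⁻¹ * (1 / Q) ^ C) := by
    have h3 : HasSum (fun a : ℕ => (1 / Q) ^ a) (1 - 1 / Q)⁻¹ := by
      apply hasSum_geometric_of_lt_one (by positivity)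
      rw [div_lt_one (by positivity)]
      linarith
    have h4 := h3.mul_right ((1 / Q) ^ C)
    have e1 : (fun c : ℕ => (1 / Q) ^ (c + C)) = fun i : ℕ => (1 / Q) ^ i * (1 / Q) ^ C := by
      funext c
      rw [pow_add]
    rw [e1]
    exact h4
  have hsum : Summable fun c => nnr Q (c + C) * (1 / Q ^ 3) ^ (c + C) :=
    (summable_nat_add_iff C).2 h1.summable
  have hle : ∑' c, nnr Q (c + C) * (1 / Q ^ 3) ^ (c + C) ≤ (1 - 1 / Q)⁻¹ * (1 / Q) ^ C := by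
    rw [← hg.tsum_eq]
    exact hsum.tsum_le_tsum (fun c => term_le Q hQ _) hg.summable
  have h0 : 0 ≤ ∑' c, nnr Q (c + C) * (1 / Q ^ 3) ^ (c + C) :=
    tsum_nonneg fun c => term_nonneg Q hQ _
  have hinv : (1 - 1 / Q)⁻¹ ≤ 2 := by
    rw [inv_le_comm₀ _ (by norm_num)]
    · have : 1 / Q ≤ 1 / 2 := one_div_le_one_div_of_le (by norm_num) hQ
      norm_num at this ⊢
      linarith
    · have : 1 / Q ≤ 1 / 2 := one_div_le_one_div_of_le (by norm_num) hQ
      linarith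
  rw [hs, ← h2, mul_add, add_sub_cancel_left, abs_mul, abs_of_nonneg h0,
    abs_of_nonneg (by positivity)]
  calc Q ^ 12 * ∑' c, nnr Q (c + C) * (1 / Q ^ 3) ^ (c + C)
      ≤ Q ^ 12 * (2 * (1 / Q) ^ C) := by
        refine mul_le_mul_of_nonneg_left (hle.trans ?_) (by positivity)
        exact mul_le_mul_of_nonneg_right hinv (by positivity)
    _ = 2 * Q ^ 12 * (1 / Q) ^ C := by ring

theorem q_ge_two (j : ℕ) : (2 : ℝ) ≤ (q j : ℝ) := by
  have : 2 ≤ q j := by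
    unfold q
    have h : 1 ≤ 4 * j.factorial := Nat.mul_pos (by norm_num) (Nat.factorial_pos j)
    calc 2 = 2 ^ 1 := by norm_num
      _ ≤ 2 ^ (4 * j.factorial) := Nat.pow_le_pow_right (by norm_num) h
  exact_mod_cast this

theorem mu_stringy_eq (j n : ℕ) : mu j (stringy n) =
    (q j : ℝ) ^ 12 * ∑ c ∈ Finset.range (n / 12 + 1), nnr (q j) c * (1 / (q j : ℝ) ^ 3) ^ c := by
  have hy0 : (0 : ℝ) < (y j : ℝ) := by exact_mod_cast y_pos j
  rw [mu_stringy, Finset.mul_sum]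
  refine Finset.sum_congr rfl fun c _ => ?_
  rw [nnr_eq, show (q j : ℝ) = (y j : ℝ) ^ 4 by rw [y_pow_four]; push_cast; rfl,
    zpow_sub₀ hy0.ne', ← pow_mul, ← pow_mul, one_div, inv_pow, ← pow_mul,
    show ((4 : ℤ) * 12) = ((4 * 12 : ℕ) : ℤ) by norm_num, zpow_natCast,
    show ((12 : ℤ) * (c : ℤ)) = ((12 * c : ℕ) : ℤ) by push_cast; ring, zpow_natCast]
  rw [show 4 * 3 * c = 12 * c by ring]
  field_simp

end Pool.Agent.H947R2.WR
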