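import Pool.Agent.H947R2.WRLen

/-! # The tuning module and the function `v` -/

namespace Pool.Agent.H947R2.WR

open MvPolynomial

variable (F : ℕ →₀ K)

/-- the tuning module of the torsor `F` -/
abbrev tun : Set (Idx → OO F) :=
  tuning (A := PowerSeries K) (L := LL F) (fun g => sigma (fser F) g)
    fun g => (rep g).map PowerSeries.C

theorem tun_iff (w : Idx → OO F) :
    w ∈ tun F ↔ ∀ (g : Fin 2 → ZMod 2) (i : Idx),
      sigma (fser F) g (w i : LL F) = (w (swp g i) : LL F) := by
  have h : ∀ (g : Fin 2 → ZMod 2) (i : Idx),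
      ∑ k, algebraMap (PowerSeries K) (LL F) (((rep g).map PowerSeries.C) i k) * (w k : LL F) =
        (w (swp g i) : LL F) := by
    intro g i
    rw [Finset.sum_eq_single (swp g i)]
    · simp [rep, Matrix.map_apply]
    · intro k _ hk
      simp [rep, Matrix.map_apply, hk]
    · intro h
      exact absurd (Finset.mem_univ _) h
  constructor
  · intro hw g i
    exact (hw g i).trans (h g i)
  · intro hw g i
    exact (hw g i).trans (h g i).symm

/-- The submodule generated by the tuning module. -/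
def NN : Submodule (OO F) (Idx → OO F) where
  carrier := {w | ∀ l r, ∃ c : OO F, w (l, 1, r) - w (l, 0, r) = xo F (lev F l) * c}
  add_mem' {a b} ha hb l r := by
    obtain ⟨c, hc⟩ := ha l r
    obtain ⟨d, hd⟩ := hb l r
    refine ⟨c + d, ?_⟩
    rw [Pi.add_apply, Pi.add_apply, mul_add, ← hc, ← hd]
    ring
  zero_mem' l r := ⟨0, by simp⟩
  smul_mem' a b hb l r := by
    obtain ⟨d, hd⟩ := hb l r
    refine ⟨a * d, ?_⟩
    rw [Pi.smul_apply, Pi.smul_apply, smul_eq_mul, smul_eq_mul, ← mul_sub, hd]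
    ring

theorem mem_NN (w : Idx → OO F) :
    w ∈ NN F ↔ ∀ l r, ∃ c : OO F, w (l, 1, r) - w (l, 0, r) = xo F (lev F l) * c := Iff.rfl

/-- divisibility in terms of orders -/
theorem div_xo (z : LaurentSeries K) (n : ℕ)
    (h : (((n : ℕ) : ℤ) : WithTop ℤ) ≤ z.orderTop) (w : OO F) (hw : (w : LL F) = em F z) :
    ∃ c : OO F, w = xo F n * c := by
  have h1 : (0 : WithTop ℤ) ≤ ((tp n)⁻¹ * z).orderTop := by
    have h2 : (tp n) * ((tp n)⁻¹ * z) = z := by
      rw [← mul_assoc, mul_inv_cancel₀ (tp_ne n), one_mul]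
    by_cases hz : z = 0
    · rw [hz, mul_zero]
      simp
    have hz' : (tp n)⁻¹ * z ≠ 0 := mul_ne_zero (inv_ne_zero (tp_ne n)) hz
    have h3 : z.orderTop = (tp n).orderTop + ((tp n)⁻¹ * z).orderTop := by
      rw [← HahnSeries.orderTop_mul, h2]
    obtain ⟨s, hs⟩ : ∃ s : ℤ, ((tp n)⁻¹ * z).orderTop = (s : WithTop ℤ) :=
      ⟨((tp n)⁻¹ * z).order, (HahnSeries.order_eq_orderTop_of_ne_zero hz').symm⟩
    rw [h3, hs, tp_order, ← WithTop.coe_add] at h
    have h4 : ((n : ℕ) : ℤ) ≤ (n : ℤ) + s := by exact_mod_cast h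
    rw [hs]
    exact_mod_cast (by omega : (0 : ℤ) ≤ s)
  refine ⟨⟨em F ((tp n)⁻¹ * z), (int_E F _).2 h1⟩, ?_⟩
  apply Subtype.ext
  show (w : LL F) = em F (tp n) * em F ((tp n)⁻¹ * z)
  rw [hw]
  show em F z = _
  have h2 : (tp n) * ((tp n)⁻¹ * z) = z := by
    rw [← mul_assoc, mul_inv_cancel₀ (tp_ne n), one_mul]
  calc em F z = em F ((tp n) * ((tp n)⁻¹ * z)) := by rw [h2]
    _ = em F (tp n) * em F ((tp n)⁻¹ * z) := map_mul _ _ _

theorem tun_sub_zero (w : Idx → OO F) (hw : w ∈ tun F) (r : Fin 3) :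
    ∃ c : OO F, w (0, 1, r) - w (0, 0, r) = xo F (lev F 0) * c := by
  rw [tun_iff] at hw
  obtain ⟨c, hc⟩ := comb_surj (fser F) (w (0, 0, r) : LL F)
  have h1 := hw (Pi.single 1 1) (0, 0, r)
  have h0 := hw (Pi.single 0 1) (0, 0, r)
  have e1 : swp (Pi.single 1 1) ((0, 0, r) : Idx) = (0, 0, r) := by
    simp [swp]
  have e0 : swp (Pi.single 0 1) ((0, 0, r) : Idx) = (0, 1, r) := by
    simp [swp]
  rw [e1] at h1
  rw [e0] at h0
  have h2 := sigma_comb_one (fser F) c
  rw [← hc, h1, sub_self] at h2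
  have h3 := comb_zero (fser F) ![c 2, c 3, 0, 0] (by
    simp only [comb, Matrix.cons_val_zero, Matrix.cons_val_one, Matrix.cons_val, map_zero,
      zero_mul, add_zero]
    exact h2.symm)
  have c2 : c 2 = 0 := by simpa using congrFun h3 0
  have c3 : c 3 = 0 := by simpa using congrFun h3 1
  have h4 := sigma_comb_zero (fser F) c
  rw [← hc, h0, c3, map_zero, zero_mul, add_zero] at h4
  have hi : IsIntegral (PowerSeries K) (em F (c 1)) := by
    have := (w (0, 1, r) - w (0, 0, r) : OO F).2
    have e5 : ((w (0, 1, r) - w (0, 0, r) : OO F) : LL F) = em F (c 1) := h4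
    rw [← e5]
    exact this
  have hc1 := (int_E F _).1 hi
  have hi0 : IsIntegral (PowerSeries K) (em F (c 0) + em F (c 1) * uu F 0) := by
    have h6 : IsIntegral (PowerSeries K) (w (0, 0, r) : LL F) := (w (0, 0, r)).2
    rw [hc] at h6
    simpa only [comb, c2, c3, map_zero, zero_mul, add_zero] using h6
  have h7 := ((int_lin F 0 _ _ hc1).1 hi0).2
  exact div_xo F (c 1) _ h7 _ h4

theorem tun_sub_one (w : Idx → OO F) (hw : w ∈ tun F) (r : Fin 3) :
    ∃ c : OO F, w (1, 1, r) - w (1, 0, r) = xo F (lev F 1) * c := by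
  rw [tun_iff] at hw
  obtain ⟨c, hc⟩ := comb_surj (fser F) (w (1, 0, r) : LL F)
  have h1 := hw (Pi.single 1 1) (1, 0, r)
  have h0 := hw (Pi.single 0 1) (1, 0, r)
  have e1 : swp (Pi.single 1 1) ((1, 0, r) : Idx) = (1, 1, r) := by
    simp [swp]
  have e0 : swp (Pi.single 0 1) ((1, 0, r) : Idx) = (1, 0, r) := by
    simp [swp]
  rw [e1] at h1
  rw [e0] at h0
  have h2 := sigma_comb_zero (fser F) c
  rw [← hc, h0, sub_self] at h2
  have h3 := comb_zero (fser F) ![c 1, 0, c 3, 0] (by
    simp only [comb, Matrix.cons_val_zero, Matrix.cons_val_one, Matrix.cons_val, map_zero,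
      zero_mul, add_zero]
    exact h2.symm)
  have c1 : c 1 = 0 := by simpa using congrFun h3 0
  have c3 : c 3 = 0 := by simpa using congrFun h3 2
  have h4 := sigma_comb_one (fser F) c
  rw [← hc, h1, c3, map_zero, zero_mul, add_zero] at h4
  have hi : IsIntegral (PowerSeries K) (em F (c 2)) := by
    have := (w (1, 1, r) - w (1, 0, r) : OO F).2
    have e5 : ((w (1, 1, r) - w (1, 0, r) : OO F) : LL F) = em F (c 2) := h4
    rw [← e5]
    exact this
  have hc1 := (int_E F _).1 hi
  have hi0 : IsIntegral (PowerSeries K) (em F (c 0) + em F (c 2) * uu F 1) := by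
    have h6 : IsIntegral (PowerSeries K) (w (1, 0, r) : LL F) := (w (1, 0, r)).2
    rw [hc] at h6
    simpa only [comb, c1, c3, map_zero, zero_mul, add_zero] using h6
  have h7 := ((int_lin F 1 _ _ hc1).1 hi0).2
  exact div_xo F (c 2) _ h7 _ h4

theorem tun_sub (w : Idx → OO F) (hw : w ∈ tun F) : w ∈ NN F := by
  intro l r
  fin_cases l
  · exact tun_sub_zero F w hw r
  · exact tun_sub_one F w hw r

/-- The generator `D_{l,r}`. -/
noncomputable def genD (l : Fin 2) (r : Fin 3) : Idx → OO F :=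
  fun i => if i.1 = l ∧ i.2.2 = r then 1 else 0

theorem genD_mem (l : Fin 2) (r : Fin 3) : genD F l r ∈ tun F := by
  rw [tun_iff]
  intro g i
  simp only [genD, swp]
  split_ifs
  · show sigma (fser F) g 1 = 1
    exact map_one _
  · show sigma (fser F) g 0 = 0
    exact map_zero _

/-- `X^{lev l} u_l` -/
noncomputable def xu (l : Fin 2) : OO F :=
  ⟨em F (tp (lev F l)) * uu F l, int_mul_uu F l _ (tp_order _).ge⟩

/-- The generator `T_{l,r}`. -/
noncomputable def genT (l : Fin 2) (r : Fin 3) : Idx → OO F :=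
  fun i => if i.1 = l ∧ i.2.2 = r then (if i.2.1 = 0 then xu F l else xu F l + xo F (lev F l)) else 0

theorem sigma_xu (g : Fin 2 → ZMod 2) (l : Fin 2) :
    sigma (fser F) g (xu F l : LL F) = (xu F l : LL F) + (((g l).val : ℕ) : LL F) * em F (tp (lev F l)) := by
  show sigma (fser F) g (em F (tp (lev F l)) * uu F l) = em F (tp (lev F l)) * uu F l + _
  rw [map_mul, sigma_algebraMap, sigma_gen]
  ring

theorem genT_same (l : Fin 2) (e : ZMod 2) (r : Fin 3) :
    genT F l r (l, e, r) = if e = 0 then xu F l else xu F l + xo F (lev F l) := by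
  simp [genT]

theorem genT_ne (l l' : Fin 2) (e : ZMod 2) (r r' : Fin 3) (h : ¬ (l' = l ∧ r' = r)) :
    genT F l r (l', e, r') = 0 := by
  simp [genT, h]

theorem genT_zero (l : Fin 2) (r : Fin 3) : genT F l r (l, 0, r) = xu F l := by
  rw [genT_same, if_pos rfl]

theorem genT_one (l : Fin 2) (r : Fin 3) :
    genT F l r (l, 1, r) = xu F l + xo F (lev F l) := by
  rw [genT_same, if_neg (by decide)]

theorem swp_mk (g : Fin 2 → ZMod 2) (l : Fin 2) (e : ZMod 2) (r : Fin 3) :
    swp g (l, e, r) = (l, e + g l, r) := rfl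

theorem genT_mem (l : Fin 2) (r : Fin 3) : genT F l r ∈ tun F := by
  rw [tun_iff]
  rintro g ⟨l', e, r'⟩
  rw [swp_mk]
  have hz : ∀ z : ZMod 2, z = 0 ∨ z = 1 := by decide
  have h11 : (1 : ZMod 2) + 1 = 0 := by decide
  have h2 := two_zero F
  by_cases h : l' = l ∧ r' = r
  · obtain ⟨rfl, rfl⟩ := h
    rcases hz e with rfl | rfl
    · rw [genT_zero, sigma_xu, zero_add]
      rcases hz (g l') with hg | hg
      · rw [hg, genT_zero]
        simp
      · rw [hg, genT_one, ZMod.val_one, Nat.cast_one, one_mul]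
        rfl
    · rw [genT_one]
      have e1 : sigma (fser F) g ((xu F l' + xo F (lev F l') : OO F) : LL F) =
          (xu F l' : LL F) + (((g l').val : ℕ) : LL F) * em F (tp (lev F l')) +
            em F (tp (lev F l')) := by
        show sigma (fser F) g ((xu F l' : LL F) + em F (tp (lev F l'))) = _
        rw [map_add, sigma_xu, sigma_algebraMap]
      rw [e1]
      rcases hz (g l') with hg | hg
      · rw [hg, add_zero, genT_one]
        simp only [ZMod.val_zero, Nat.cast_zero, zero_mul, add_zero]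
        rfl
      · rw [hg, h11, genT_zero, ZMod.val_one, Nat.cast_one, one_mul]
        linear_combination em F (tp (lev F l')) * h2
  · rw [genT_ne F _ _ _ _ _ h, genT_ne F _ _ _ _ _ h]
    show sigma (fser F) g 0 = 0
    exact map_zero _

theorem NN_sub (w : Idx → OO F) (hw : w ∈ NN F) : w ∈ Submodule.span (OO F) (tun F) := by
  choose c hc using hw
  have h1 : w = ∑ lr : Fin 2 × Fin 3, (w (lr.1, 0, lr.2) • genD F lr.1 lr.2 +
      c lr.1 lr.2 • (genT F lr.1 lr.2 - xu F lr.1 • genD F lr.1 lr.2)) := by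
    funext i
    obtain ⟨l, e, r⟩ := i
    rw [Finset.sum_apply, Finset.sum_eq_single (l, r)]
    · have hz : ∀ z : ZMod 2, z = 0 ∨ z = 1 := by decide
      simp only [Pi.add_apply, Pi.smul_apply, Pi.sub_apply, genD, genT, smul_eq_mul]
      simp only [and_self, if_true, mul_one]
      rcases hz e with rfl | rfl
      · simp
      · rw [if_neg (by decide)]
        have := hc l r
        linear_combination this
    · intro b _ hb
      have hb' : ¬ (l = b.1 ∧ r = b.2) := by
        rintro ⟨rfl, rfl⟩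
        exact hb rfl
      simp only [Pi.add_apply, Pi.smul_apply, Pi.sub_apply, genD, genT, smul_eq_mul]
      rw [if_neg hb', if_neg hb']
      simp
    · intro h
      exact absurd (Finset.mem_univ _) h
  rw [h1]
  refine Submodule.sum_mem _ fun lr _ => Submodule.add_mem _ ?_ ?_
  · exact Submodule.smul_mem _ _ (Submodule.subset_span (genD_mem F _ _))
  · exact Submodule.smul_mem _ _ (Submodule.sub_mem _ (Submodule.subset_span (genT_mem F _ _))
      (Submodule.smul_mem _ _ (Submodule.subset_span (genD_mem F _ _))))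

theorem span_tun : Submodule.span (OO F) (tun F) = NN F := by
  apply le_antisymm
  · rw [Submodule.span_le]
    exact fun w hw => tun_sub F w hw
  · exact fun w hw => NN_sub F w hw

theorem v4_eq : v4 F = ((12 * (lev F 0 + lev F 1) : ℕ) : ℕ∞) := by
  show Module.length (PowerSeries K) ((Idx → OO F) ⧸ Submodule.span (OO F) (tun F)) = _
  rw [span_tun]
  let φ : (Idx → OO F) →ₗ[OO F] ((lr : Fin 2 × Fin 3) → OO F ⧸ Ideal.span {xo F (lev F lr.1)}) :=
    LinearMap.pi fun lr => (Submodule.mkQ _).comp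
      ((LinearMap.proj (lr.1, 1, lr.2) : (Idx → OO F) →ₗ[OO F] OO F) -
        (LinearMap.proj (lr.1, 0, lr.2) : (Idx → OO F) →ₗ[OO F] OO F))
  have hφa : ∀ w lr, φ w lr = Submodule.mkQ (Ideal.span {xo F (lev F lr.1)})
      (w (lr.1, 1, lr.2) - w (lr.1, 0, lr.2)) := fun w lr => rfl
  have hφ : Function.Surjective φ := by
    intro z
    choose v hv using fun lr => Submodule.mkQ_surjective _ (z lr)
    refine ⟨fun i => if i.2.1 = 0 then 0 else v (i.1, i.2.2), ?_⟩
    funext lr
    rw [hφa]
    simp only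
    rw [if_neg (by decide), if_pos trivial, sub_zero]
    exact hv lr
  have hker : LinearMap.ker φ = NN F := by
    ext w
    rw [LinearMap.mem_ker, mem_NN]
    constructor
    · intro h l r
      have h2 := congrFun h (l, r)
      rw [hφa, Pi.zero_apply, Submodule.mkQ_apply, Submodule.Quotient.mk_eq_zero,
        Ideal.mem_span_singleton] at h2
      exact h2
    · intro h
      funext lr
      rw [hφa, Pi.zero_apply, Submodule.mkQ_apply, Submodule.Quotient.mk_eq_zero,
        Ideal.mem_span_singleton]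
      exact h lr.1 lr.2
  have e1 := φ.quotKerEquivOfSurjective hφ
  rw [hker] at e1
  have e2 := (e1.restrictScalars (PowerSeries K)).length_eq
  rw [e2, Module.length_pi_of_fintype]
  simp only [len_quot]
  rw [Fintype.sum_prod_type]
  simp only [Fin.sum_univ_two, Finset.sum_const, Finset.card_univ, Fintype.card_fin]
  push_cast
  simp only [nsmul_eq_mul]
  push_cast
  ring

end Pool.Agent.H947R2.WR
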